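import Pool.Agent.H.MP_f5ceca_al.N.Tri

/-!
The telescoping formula.
-/

namespace Pool.Agent.H.MP_f5ceca_al.N

universe u v

variable (Γ : Type v) [CommRing Γ] (n : ℕ)

/-- sorted word of a commutative monomial `μ`: `x_0^{μ 0} x_1^{μ 1} …` -/
noncomputable def srt (μ : Fin n →₀ ℕ) : FA Γ n := (List.ofFn fun j => xx Γ j ^ μ j).prod

/-- the commutative image -/
noncomputable def Tele_c : FA Γ n →ₐ[Γ] MvPolynomial (Fin n) Γ :=
  FreeAlgebra.lift Γ MvPolynomial.X

/-- the linear map `monomial ↦ sorted word` -/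
noncomputable def Tele_Phi : MvPolynomial (Fin n) Γ →ₗ[Γ] FA Γ n :=
  (MvPolynomial.basisMonomials (Fin n) Γ).constr Γ (srt Γ n)

theorem Tele_Phi_monomial (μ : Fin n →₀ ℕ) :
    Tele_Phi Γ n (MvPolynomial.monomial μ 1) = srt Γ n μ := by
  have h := (MvPolynomial.basisMonomials (Fin n) Γ).constr_basis Γ (srt Γ n) μ
  rw [MvPolynomial.coe_basisMonomials] at h
  exact h

theorem Tele_c_eq_zero {z : FA Γ n} (hz : sym Γ n 0 z = 0) : Tele_c Γ n z = 0 := by
  have h1 : sym Γ n 0 z = MvPolynomial.C (ev Γ n 0 0 z) := tau_diag Γ n 0 z 0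
  rw [h1] at hz
  have h2 : ev Γ n 0 0 z = 0 := by
    apply MvPolynomial.C_injective _ _
    rw [hz, MvPolynomial.C_0]
  have h3 : (MvPolynomial.rename (fun j : Fin n => ((0 : Fin (0 + 1)), j))).comp (Tele_c Γ n) =
      ev Γ n 0 0 := by
    apply FreeAlgebra.hom_ext
    funext i
    simp only [Function.comp_apply, AlgHom.comp_apply, Tele_c, ev, FreeAlgebra.lift_ι_apply,
      MvPolynomial.rename_X, gX]
  have h4 := DFunLike.congr_fun h3 z
  rw [AlgHom.comp_apply, h2] at h4
  apply MvPolynomial.rename_injective (fun j : Fin n => ((0 : Fin (0 + 1)), j))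
    (fun a b hab => (Prod.ext_iff.1 hab).2)
  rw [h4, map_zero]

/-- the term of the telescoping formula -/
noncomputable def Tele_g (μ : Fin n →₀ ℕ) (p : Fin n × (Fin n →₀ ℕ)) (a : FA Γ n) : FA Γ n :=
  a * (xx Γ p.1 * srt Γ n (p.2 + μ) - srt Γ n (p.2 + μ + Finsupp.single p.1 1))

/-- Telescoping: `z = s(z) + ∑ ∂_{(i,μ)} z * (x_i s_μ - s_{μ+e_i})`, where `s(z)` is the sorted form of the
commutative image of `z`; stated for `z` with commutative image `0`.

PROOF. Let `s : F → F` be the linear map `word ↦ sorted word` (composition of `F → MvPolynomial` and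
`monomial μ ↦ srt μ`). Show `z = s z + ∑ …` for all `z` by induction on words from the right (for `z x_j` use
the formula for `z`, and `s(z x_j)`), or for words by telescoping:
`w - s(w) = ∑_p w_{<p} (x_{i_p} s(w_{>p}) - s(w_{≥p}))`. In the induction `z ↦ z x_j` it is easier to prove for all `z`
and all `μ`: `z s_μ = s(z s_μ) + ∑_{(i,ν)} ∂_{(i,ν)} z * (x_i s_{ν+μ} - s_{ν+μ+e_i})` and to go from `μ` to `z x_j`. -/
theorem telescope (d : (Fin n × (Fin n →₀ ℕ)) → (FA Γ n →ₗ[Γ] FA Γ n)) (h1 : ∀ p, d p 1 = 0)
    (h2 : ∀ p z j, d p (z * xx Γ j) =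
      (if p.2 j = 0 then 0 else d (p.1, p.2 - Finsupp.single j 1) z) +
        (if p.1 = j ∧ p.2 = 0 then z else 0))
    (h3 : ∀ z, (Function.support fun p => d p z).Finite) (z : FA Γ n)
    (hz : sym Γ n 0 z = 0) :
    z = ∑ᶠ p, d p z * (xx Γ p.1 * srt Γ n p.2 - srt Γ n (p.2 + Finsupp.single p.1 1)) := by
  classical
  let D : FA Γ n → ((Fin n × (Fin n →₀ ℕ)) →₀ FA Γ n) := fun z =>
    Finsupp.ofSupportFinite (fun p => d p z) (h3 z)
  have hD : ∀ z p, D z p = d p z := fun z p => rfl
  have hDadd : ∀ a b, D (a + b) = D a + D b := by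
    intro a b
    ext1 p
    rw [Finsupp.add_apply, hD, hD, hD, map_add]
  have hDsmul : ∀ (c : Γ) a, D (c • a) = c • D a := by
    intro c a
    ext1 p
    rw [Finsupp.smul_apply, hD, hD, map_smul]
  have hg0 : ∀ μ p, Tele_g Γ n μ p 0 = 0 := fun μ p => zero_mul _
  have hgadd : ∀ μ p a b, Tele_g Γ n μ p (a + b) = Tele_g Γ n μ p a + Tele_g Γ n μ p b :=
    fun μ p a b => add_mul _ _ _
  have hgsmul : ∀ μ p (c : Γ) a, Tele_g Γ n μ p (c • a) = c • Tele_g Γ n μ p a :=
    fun μ p c a => smul_mul_assoc _ _ _
  let A : FA Γ n → Prop := fun z => ∀ μ, z * srt Γ n μ =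
    Tele_Phi Γ n (Tele_c Γ n z * MvPolynomial.monomial μ 1) + (D z).sum (Tele_g Γ n μ)
  have hAadd : ∀ a b, A a → A b → A (a + b) := by
    intro a b ha hb μ
    rw [add_mul, ha μ, hb μ, map_add, add_mul, map_add, hDadd,
      Finsupp.sum_add_index' (hg0 μ) (hgadd μ)]
    abel
  have hAsmul : ∀ (c : Γ) a, A a → A (c • a) := by
    intro c a ha μ
    rw [smul_mul_assoc, ha μ, map_smul, smul_mul_assoc, map_smul, hDsmul, smul_add]
    congr 1
    rw [Finsupp.sum_smul_index' (hg0 μ), Finsupp.sum, Finsupp.sum, Finset.smul_sum]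
    exact Finset.sum_congr rfl fun p _ => (hgsmul μ p c _).symm
  have hA1 : A 1 := by
    intro μ
    have h : D 1 = 0 := by
      ext1 p
      rw [hD, h1, Finsupp.zero_apply]
    rw [h, Finsupp.sum_zero_index, add_zero, one_mul, map_one, one_mul, Tele_Phi_monomial]
  have hAx : ∀ z j, A z → A (z * xx Γ j) := by
    intro z j hz μ
    have hsh : Function.Injective
        (fun p : Fin n × (Fin n →₀ ℕ) => (p.1, p.2 + Finsupp.single j 1)) := by
      intro p q hpq
      have e1 := (Prod.ext_iff.1 hpq).1
      have e2 := (Prod.ext_iff.1 hpq).2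
      exact Prod.ext e1 (add_right_cancel e2)
    have hDx : D (z * xx Γ j) = Finsupp.mapDomain
        (fun p : Fin n × (Fin n →₀ ℕ) => (p.1, p.2 + Finsupp.single j 1)) (D z) +
        Finsupp.single (j, 0) z := by
      ext1 p
      rw [hD, h2, Finsupp.add_apply]
      congr 1
      · by_cases hp : p.2 j = 0
        · rw [if_pos hp, Finsupp.mapDomain_of_notMem_range]
          rintro ⟨q, hq⟩
          have e := (Prod.ext_iff.1 hq).2
          have e2 := DFunLike.congr_fun e j
          simp only [Finsupp.add_apply, Finsupp.single_eq_same] at e2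
          omega
        · rw [if_neg hp]
          have e : p = (fun p : Fin n × (Fin n →₀ ℕ) => (p.1, p.2 + Finsupp.single j 1))
              (p.1, p.2 - Finsupp.single j 1) := by
            refine Prod.ext rfl ?_
            refine (tsub_add_cancel_of_le ?_).symm
            rw [Finsupp.single_le_iff]
            omega
          conv_rhs => rw [e]
          rw [Finsupp.mapDomain_apply hsh, hD]
      · rw [Finsupp.single_apply]
        by_cases hp : p.1 = j ∧ p.2 = 0
        · rw [if_pos hp, if_pos (Prod.ext hp.1.symm hp.2.symm)]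
        · rw [if_neg hp, if_neg]
          rintro rfl
          exact hp ⟨rfl, rfl⟩
    have e1 : Tele_c Γ n (z * xx Γ j) * MvPolynomial.monomial μ 1 =
        Tele_c Γ n z * MvPolynomial.monomial (μ + Finsupp.single j 1) 1 := by
      have e2 : Tele_c Γ n (xx Γ j) = MvPolynomial.monomial (Finsupp.single j 1) 1 := by
        rw [Tele_c, xx, FreeAlgebra.lift_ι_apply]
        rfl
      rw [map_mul, e2, mul_assoc, MvPolynomial.monomial_mul, one_mul, add_comm μ]
    rw [hDx, Finsupp.sum_add_index' (hg0 μ) (hgadd μ),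
      Finsupp.sum_mapDomain_index (hg0 μ) (hgadd μ), Finsupp.sum_single_index (hg0 μ _), e1]
    have e3 : ∀ (p : Fin n × (Fin n →₀ ℕ)) (a : FA Γ n),
        Tele_g Γ n μ (p.1, p.2 + Finsupp.single j 1) a =
          Tele_g Γ n (μ + Finsupp.single j 1) p a := by
      intro p a
      unfold Tele_g
      have e4 : p.2 + Finsupp.single j 1 + μ = p.2 + (μ + Finsupp.single j 1) := by
        rw [add_assoc, add_comm μ]
      simp only [e4]
    have e5 : (D z).sum (fun a m => Tele_g Γ n μ (a.1, a.2 + Finsupp.single j 1) m) =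
        (D z).sum (Tele_g Γ n (μ + Finsupp.single j 1)) := by
      refine Finsupp.sum_congr fun p _ => e3 p _
    rw [e5, ← add_assoc, ← hz (μ + Finsupp.single j 1)]
    unfold Tele_g
    simp only [zero_add]
    rw [mul_sub, ← mul_assoc]
    abel
  have hall : ∀ w z, A z → A (z * w) := by
    intro w
    induction w using FreeAlgebra.induction with
    | grade0 r =>
      intro z hz
      rw [← Algebra.commutes, ← Algebra.smul_def]
      exact hAsmul _ _ hz
    | grade1 j => intro z hz; exact hAx z j hz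
    | mul a b ha hb =>
      intro z hz
      rw [← mul_assoc]
      exact hb _ (ha _ hz)
    | add a b ha hb =>
      intro z hz
      rw [mul_add]
      exact hAadd _ _ (ha _ hz) (hb _ hz)
  have hfin := hall z 1 hA1 0
  have hs0 : srt Γ n 0 = 1 := by
    unfold srt
    simp
  rw [one_mul, hs0, mul_one, Tele_c_eq_zero Γ n hz, zero_mul, map_zero, zero_add] at hfin
  have e6 : ∑ᶠ p, d p z * (xx Γ p.1 * srt Γ n p.2 - srt Γ n (p.2 + Finsupp.single p.1 1)) =
      (D z).sum (Tele_g Γ n 0) := by
    rw [Finsupp.sum, finsum_eq_sum_of_support_subset (s := (D z).support)]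
    · refine Finset.sum_congr rfl fun p _ => ?_
      unfold Tele_g
      rw [add_zero, hD]
    · intro p hp
      rw [Finset.mem_coe, Finsupp.mem_support_iff, hD]
      intro h0
      apply hp
      simp only [h0, zero_mul]
  rw [e6]
  exact hfin

theorem Tele_ofFn (x : FA Γ n) : ∀ (m : ℕ) (f : Fin m → FA Γ n) (i : Fin m),
    x * (List.ofFn f).prod - (List.ofFn (Function.update f i (x * f i))).prod ∈ Com Γ n := by
  have hc : ∀ p q : FA Γ n, p * q - q * p ∈ Com Γ n := fun p q =>
    Submodule.subset_span ⟨1, 1, p, q, by rw [one_mul, mul_one]⟩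
  intro m
  induction m with
  | zero => intro f i; exact i.elim0
  | succ m ih =>
    intro f i
    refine Fin.cases ?_ (fun i' => ?_) i
    · rw [List.ofFn_succ, List.ofFn_succ, List.prod_cons, List.prod_cons]
      have e : (fun j : Fin m => Function.update f 0 (x * f 0) j.succ) = fun j => f j.succ := by
        funext j
        rw [Function.update_of_ne (Fin.succ_ne_zero j)]
      rw [e, Function.update_self, mul_assoc, sub_self]
      exact zero_mem _
    · rw [List.ofFn_succ, List.ofFn_succ, List.prod_cons, List.prod_cons]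
      have e : (fun j : Fin m => Function.update f i'.succ (x * f i'.succ) j.succ) =
          Function.update (fun j => f j.succ) i' (x * f i'.succ) := by
        funext j
        by_cases hj : j = i'
        · subst hj
          rw [Function.update_self, Function.update_self]
        · rw [Function.update_of_ne hj, Function.update_of_ne]
          intro h
          exact hj (Fin.succ_injective _ h)
      rw [e, Function.update_of_ne (Fin.succ_ne_zero i').symm]
      have e2 : x * (f 0 * (List.ofFn fun j => f j.succ).prod) -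
          f 0 * (List.ofFn (Function.update (fun j => f j.succ) i' (x * f i'.succ))).prod =
          (x * f 0 - f 0 * x) * (List.ofFn fun j => f j.succ).prod +
          f 0 * (x * (List.ofFn fun j => f j.succ).prod -
          (List.ofFn (Function.update (fun j => f j.succ) i' (x * f i'.succ))).prod) := by
        noncomm_ring
      rw [e2]
      exact add_mem (Com_right Γ _ (hc _ _)) (Com_left Γ _ (ih _ _))

theorem sub_srt_mem_Com (i : Fin n) (μ : Fin n →₀ ℕ) :
    xx Γ i * srt Γ n μ - srt Γ n (μ + Finsupp.single i 1) ∈ Com Γ n := by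
  have h := Tele_ofFn Γ n (xx Γ i) n (fun j => xx Γ j ^ μ j) i
  have e : Function.update (fun j => xx Γ j ^ μ j) i (xx Γ i * xx Γ i ^ μ i) =
      fun j => xx Γ j ^ ((μ + Finsupp.single i 1 : Fin n →₀ ℕ) j) := by
    funext j
    by_cases hj : j = i
    · subst hj
      rw [Function.update_self, Finsupp.add_apply, Finsupp.single_eq_same, pow_succ']
    · rw [Function.update_of_ne hj, Finsupp.add_apply, Finsupp.single_eq_of_ne hj, add_zero]
  rw [e] at h
  exact h

end Pool.Agent.H.MP_f5ceca_al.N
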