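import Pool.Agent.H.MP_f5ceca_al.N.Part
import Pool.Agent.H.MP_f5ceca_al.N.Tele

/-!
The theorem of Lewin / Maltsev: the symbol of level `k` has kernel `Fil (k+1)` on `Fil k`.
-/

namespace Pool.Agent.H.MP_f5ceca_al.N

universe u v

variable (Γ : Type v) [CommRing Γ] (n : ℕ)

/-- induction from the right: a submodule which contains `1` and is stable under right
multiplication by the letters is everything -/
theorem lewin_ind (S : Submodule Γ (FA Γ n)) (h1 : (1 : FA Γ n) ∈ S)
    (h2 : ∀ z ∈ S, ∀ j, z * xx Γ j ∈ S) (z : FA Γ n) : z ∈ S := by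
  have key : ∀ w : FA Γ n, ∀ z ∈ S, z * w ∈ S := by
    intro w
    induction w using FreeAlgebra.induction with
    | grade0 r =>
      intro z hz
      rw [← Algebra.commutes, ← Algebra.smul_def]
      exact S.smul_mem _ hz
    | grade1 j => intro z hz; exact h2 z hz j
    | mul a b ha hb =>
      intro z hz
      rw [← mul_assoc]
      exact hb _ (ha _ hz)
    | add a b ha hb =>
      intro z hz
      rw [mul_add]
      exact S.add_mem (ha _ hz) (hb _ hz)
  simpa using key z 1 h1

/-- the target: coefficients of the last variables -/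
abbrev lewinT (k : ℕ) : Type v := MvPolynomial (Fin n) (MvPolynomial (Fin n) (RZ Γ n k))

/-- separation of the last gap variables -/
noncomputable def lewinPhi (k : ℕ) : RX Γ n (k + 1) →+* lewinT Γ n k :=
  MvPolynomial.eval₂Hom
    ((((MvPolynomial.C : MvPolynomial (Fin n) (RZ Γ n k) →+* lewinT Γ n k).comp
      (MvPolynomial.C : RZ Γ n k →+* MvPolynomial (Fin n) (RZ Γ n k))).comp
      (MvPolynomial.C : RX Γ n k →+* RZ Γ n k)).comp (MvPolynomial.C : Γ →+* RX Γ n k))
    (fun v => if h : (v.1 : ℕ) < k + 1 then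
      MvPolynomial.C (MvPolynomial.C (MvPolynomial.C (gX Γ n k ⟨v.1, h⟩ v.2)))
      else MvPolynomial.X v.2)

/-- separation of the last variables -/
noncomputable def lewinPsi (k : ℕ) : RZ Γ n (k + 1) →+* lewinT Γ n k :=
  MvPolynomial.eval₂Hom (lewinPhi Γ n k)
    (fun v => if h : (v.1 : ℕ) < k then
      MvPolynomial.C (MvPolynomial.C (MvPolynomial.X (⟨v.1, h⟩, v.2)))
      else MvPolynomial.C (MvPolynomial.X v.2))

theorem lewinPsi_C_algebraMap (k : ℕ) (r : Γ) :
    lewinPsi Γ n k (algebraMap Γ _ r) = MvPolynomial.C (MvPolynomial.C (algebraMap Γ _ r)) := by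
  have h1 : (algebraMap Γ (RZ Γ n (k + 1))) r = MvPolynomial.C (MvPolynomial.C r) := rfl
  have h2 : (algebraMap Γ (RZ Γ n k)) r = MvPolynomial.C (MvPolynomial.C r) := rfl
  rw [h1, h2, lewinPsi, MvPolynomial.coe_eval₂Hom, MvPolynomial.eval₂_C, lewinPhi,
    MvPolynomial.coe_eval₂Hom, MvPolynomial.eval₂_C]
  rfl

theorem lewinPsi_gen (k : ℕ) (j : Fin n) (a b : Fin (k + 1)) :
    lewinPsi Γ n k (gen Γ n (k + 1) j a.castSucc b.castSucc) =
      MvPolynomial.C (MvPolynomial.C (gen Γ n k j a b)) := by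
  unfold gen
  by_cases hab : a = b
  · subst hab
    rw [if_pos rfl, if_pos rfl, lewinPsi, MvPolynomial.coe_eval₂Hom, MvPolynomial.eval₂_C, gX,
      lewinPhi, MvPolynomial.coe_eval₂Hom, MvPolynomial.eval₂_X, dif_pos (by simp; omega)]
    rfl
  · rw [if_neg (fun h => hab (Fin.castSucc_injective _ h)), if_neg hab]
    by_cases h : (a : ℕ) + 1 = b
    · have hak : (a : ℕ) < k := by have := b.2; omega
      rw [dif_pos (by simpa using h), dif_pos h, lewinPsi, MvPolynomial.coe_eval₂Hom,
        MvPolynomial.eval₂_X, dif_pos (by simpa using hak)]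
      rfl
    · rw [dif_neg (by simpa using h), dif_neg h]
      simp

theorem lewinPsi_tau (k : ℕ) (z : FA Γ n) : ∀ a b : Fin (k + 1),
    lewinPsi Γ n k (tau Γ n (k + 1) z a.castSucc b.castSucc) =
      MvPolynomial.C (MvPolynomial.C (tau Γ n k z a b)) := by
  induction z using FreeAlgebra.induction with
  | grade0 r =>
    intro a b
    rw [AlgHom.commutes, AlgHom.commutes, Matrix.algebraMap_matrix_apply,
      Matrix.algebraMap_matrix_apply]
    by_cases hab : a = b
    · rw [if_pos hab, if_pos (by rw [hab]), lewinPsi_C_algebraMap]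
    · rw [if_neg hab, if_neg (fun h => hab (Fin.castSucc_injective _ h))]
      simp
  | grade1 j =>
    intro a b
    have h1 : ∀ m, tau Γ n m (FreeAlgebra.ι Γ j) = gen Γ n m j := fun m => by
      rw [tau, FreeAlgebra.lift_ι_apply]
    rw [h1, h1]
    exact lewinPsi_gen Γ n k j a b
  | mul x y hx hy =>
    intro a b
    rw [map_mul, map_mul, Matrix.mul_apply, Matrix.mul_apply, Fin.sum_univ_castSucc]
    have h0 : tau Γ n (k + 1) y (Fin.last (k + 1)) b.castSucc = 0 := by
      apply tau_apply_eq_zero Γ n (k + 1) 0 (by rw [Fil_zero]; trivial)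
      simp only [Fin.val_castSucc, Fin.val_last]
      omega
    rw [h0, mul_zero, add_zero, map_sum, map_sum, map_sum]
    refine Finset.sum_congr rfl fun c _ => ?_
    rw [map_mul, map_mul, map_mul, hx, hy]
  | add x y hx hy =>
    intro a b
    rw [map_add, map_add, Matrix.add_apply, Matrix.add_apply, map_add, map_add, map_add, hx, hy]

theorem lewin_gen_last (k : ℕ) (j : Fin n) (c : Fin (k + 1)) (hc : c ≠ Fin.last k) :
    gen Γ n (k + 1) j c.castSucc (Fin.last (k + 1)) = 0 := by
  have hc' : (c : ℕ) ≠ k := fun h => hc (Fin.ext h)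
  have hc2 := c.2
  rw [gen, if_neg, dif_neg]
  · simp only [Fin.val_castSucc, Fin.val_last]
    omega
  · intro h
    have := congrArg Fin.val h
    simp only [Fin.val_castSucc, Fin.val_last] at this
    omega

theorem lewin_gen_last1 (k : ℕ) (j : Fin n) :
    gen Γ n (k + 1) j (Fin.last (k + 1)) (Fin.last (k + 1)) =
      MvPolynomial.C (gX Γ n (k + 1) (Fin.last (k + 1)) j) := by
  rw [gen, if_pos rfl]

theorem lewin_gen_last2 (k : ℕ) (j : Fin n) :
    gen Γ n (k + 1) j (Fin.last k).castSucc (Fin.last (k + 1)) =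
      MvPolynomial.X (⟨k, Nat.lt_succ_self k⟩, j) := by
  rw [gen, if_neg, dif_pos]
  · rfl
  · simp only [Fin.val_castSucc, Fin.val_last]
  · intro h
    have := congrArg Fin.val h
    simp only [Fin.val_castSucc, Fin.val_last] at this
    omega

theorem lewin_sym_mul (k : ℕ) (z : FA Γ n) (j : Fin n) :
    sym Γ n (k + 1) (z * xx Γ j) =
      tau Γ n (k + 1) z 0 (Fin.last k).castSucc * MvPolynomial.X (⟨k, Nat.lt_succ_self k⟩, j) +
      sym Γ n (k + 1) z * MvPolynomial.C (gX Γ n (k + 1) (Fin.last (k + 1)) j) := by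
  have e1 : sym Γ n (k + 1) (z * xx Γ j) = tau Γ n (k + 1) (z * xx Γ j) 0 (Fin.last (k + 1)) := rfl
  have e2 : sym Γ n (k + 1) z = tau Γ n (k + 1) z 0 (Fin.last (k + 1)) := rfl
  have e4 : tau Γ n (k + 1) (xx Γ j) = gen Γ n (k + 1) j := by
    rw [tau, xx, FreeAlgebra.lift_ι_apply]
  rw [e1, e2, map_mul, e4, Matrix.mul_apply, Fin.sum_univ_castSucc,
    Finset.sum_eq_single (Fin.last k), lewin_gen_last1, lewin_gen_last2]
  · intro c _ hc
    rw [lewin_gen_last Γ n k j c hc, mul_zero]
  · intro h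
    exact absurd (Finset.mem_univ _) h

theorem lewinPsi_last1 (k : ℕ) (j : Fin n) :
    lewinPsi Γ n k (MvPolynomial.C (gX Γ n (k + 1) (Fin.last (k + 1)) j)) =
      MvPolynomial.X j := by
  rw [lewinPsi, MvPolynomial.coe_eval₂Hom, MvPolynomial.eval₂_C, gX,
    lewinPhi, MvPolynomial.coe_eval₂Hom, MvPolynomial.eval₂_X, dif_neg]
  simp only [Fin.val_last]
  omega

theorem lewinPsi_last2 (k : ℕ) (j : Fin n) :
    lewinPsi Γ n k (MvPolynomial.X (⟨k, Nat.lt_succ_self k⟩, j)) =
      MvPolynomial.C (MvPolynomial.X j) := by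
  rw [lewinPsi, MvPolynomial.coe_eval₂Hom, MvPolynomial.eval₂_X, dif_neg]
  exact Nat.lt_irrefl k

theorem lewinPsi_sym_mul (k : ℕ) (z : FA Γ n) (j : Fin n) :
    lewinPsi Γ n k (sym Γ n (k + 1) (z * xx Γ j)) =
      lewinPsi Γ n k (sym Γ n (k + 1) z) * MvPolynomial.X j +
        MvPolynomial.C (MvPolynomial.C (sym Γ n k z) * MvPolynomial.X j) := by
  have h5 : lewinPsi Γ n k (tau Γ n (k + 1) z 0 (Fin.last k).castSucc) =
      MvPolynomial.C (MvPolynomial.C (sym Γ n k z)) := lewinPsi_tau Γ n k z 0 (Fin.last k)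
  rw [lewin_sym_mul, RingHom.map_add, RingHom.map_mul, RingHom.map_mul, lewinPsi_last1,
    lewinPsi_last2, h5, RingHom.map_mul]
  exact add_comm _ _

/-- extraction of a coefficient -/
noncomputable def lewinE (k : ℕ) (p : Fin n × (Fin n →₀ ℕ)) (f : lewinT Γ n k) : RZ Γ n k :=
  MvPolynomial.coeff (Finsupp.single p.1 1) (MvPolynomial.coeff p.2 f)

theorem lewin_main (d : (Fin n × (Fin n →₀ ℕ)) → (FA Γ n →ₗ[Γ] FA Γ n)) (h1 : ∀ p, d p 1 = 0)
    (h2 : ∀ p z j, d p (z * xx Γ j) =
      (if p.2 j = 0 then 0 else d (p.1, p.2 - Finsupp.single j 1) z) +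
        (if p.1 = j ∧ p.2 = 0 then z else 0)) (k : ℕ) (z : FA Γ n) :
    ∀ p, lewinE Γ n k p (lewinPsi Γ n k (sym Γ n (k + 1) z)) = sym Γ n k (d p z) := by
  classical
  let S : Submodule Γ (FA Γ n) :=
    { carrier := {z | ∀ p, lewinE Γ n k p (lewinPsi Γ n k (sym Γ n (k + 1) z)) =
        sym Γ n k (d p z)}
      add_mem' := by
        intro x y hx hy p
        rw [map_add, map_add, lewinE, MvPolynomial.coeff_add, MvPolynomial.coeff_add, map_add,
          map_add, ← hx p, ← hy p]
        rfl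
      zero_mem' := by
        intro p
        rw [map_zero, map_zero, map_zero, map_zero, lewinE, MvPolynomial.coeff_zero,
          MvPolynomial.coeff_zero]
      smul_mem' := by
        intro r x hx p
        rw [LinearMap.map_smul, LinearMap.map_smul, LinearMap.map_smul, ← hx p, Algebra.smul_def,
          RingHom.map_mul, lewinPsi_C_algebraMap, lewinE, MvPolynomial.coeff_C_mul,
          MvPolynomial.coeff_C_mul, Algebra.smul_def]
        rfl }
  refine lewin_ind Γ n S ?_ ?_ z
  · intro p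
    have e1 : sym Γ n (k + 1) 1 = 0 := by
      change tau Γ n (k + 1) 1 0 (Fin.last (k + 1)) = 0
      rw [map_one, Matrix.one_apply_ne]
      intro h
      simp [Fin.ext_iff] at h
    rw [e1, h1, map_zero, map_zero, lewinE, MvPolynomial.coeff_zero, MvPolynomial.coeff_zero]
  · intro z hz j p
    rw [lewinPsi_sym_mul, h2, map_add, lewinE, MvPolynomial.coeff_add, MvPolynomial.coeff_add]
    congr 1
    · rw [MvPolynomial.coeff_mul_X']
      by_cases hj : p.2 j = 0
      · rw [if_pos hj, if_neg (by simpa using hj), map_zero, MvPolynomial.coeff_zero]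
      · rw [if_neg hj, if_pos (by simpa using hj), ← hz]
        rfl
    · rw [MvPolynomial.coeff_C]
      by_cases hp2 : p.2 = 0
      · rw [if_pos hp2.symm, MvPolynomial.coeff_C_mul]
        by_cases hp1 : p.1 = j
        · have h9 : (MvPolynomial.coeff (Finsupp.single p.1 1)
              (MvPolynomial.X j : MvPolynomial (Fin n) (RZ Γ n k))) = 1 := by
            rw [hp1, MvPolynomial.coeff_X_same]
          rw [h9, if_pos ⟨hp1, hp2⟩, mul_one]
        · have h9 : (MvPolynomial.coeff (Finsupp.single p.1 1)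
              (MvPolynomial.X j : MvPolynomial (Fin n) (RZ Γ n k))) = 0 := by
            rw [MvPolynomial.coeff_X, if_neg]
            intro h
            exact hp1 (Finsupp.single_left_injective one_ne_zero h).symm
          rw [h9, if_neg (fun h => hp1 h.1), mul_zero, map_zero]
      · rw [if_neg (fun h => hp2 h.symm), if_neg (fun h => hp2 h.2), map_zero,
          MvPolynomial.coeff_zero]

/-- The last jump: if the symbol of level `k+1` of `z` vanishes then so do the symbols of level `k` of all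
`∂ p z`.

PROOF. Let `π : RX k → RX (k+1)`, `RZ k → RZ (k+1)` be the inclusions of variables. By induction on words (from the right)
`tau (k+1) z a b = π (tau k z a b)` for `a, b ≤ k`, and
`sym (k+1) z = ∑_{(i,μ)} π (sym k (∂_{(i,μ)} z)) * ξ(k,i) * X(k+1)^μ`. Now the variables `ξ(k,i)` and `X(k+1,j)` do not
occur in the image of `π`: compare coefficients. -/
theorem sym_partial (d : (Fin n × (Fin n →₀ ℕ)) → (FA Γ n →ₗ[Γ] FA Γ n)) (h1 : ∀ p, d p 1 = 0)
    (h2 : ∀ p z j, d p (z * xx Γ j) =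
      (if p.2 j = 0 then 0 else d (p.1, p.2 - Finsupp.single j 1) z) +
        (if p.1 = j ∧ p.2 = 0 then z else 0))
    (h3 : ∀ z, (Function.support fun p => d p z).Finite) (k : ℕ) (z : FA Γ n)
    (hz : sym Γ n (k + 1) z = 0) (p : Fin n × (Fin n →₀ ℕ)) : sym Γ n k (d p z) = 0 := by
  rw [← lewin_main Γ n d h1 h2 k z p, hz, map_zero, lewinE, MvPolynomial.coeff_zero,
    MvPolynomial.coeff_zero]

/-- LEWIN, MALTSEV. PROOF. Induction on `k`: `z = ∑ ∂_p z * v_p` with `v_p ∈ Com` by `telescope` (level `0`), and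
`∂_p z ∈ Fil k` by induction and `sym_partial`. -/
theorem mem_Fil_of_sym (k : ℕ) (z : FA Γ n) (h : ∀ i < k, sym Γ n i z = 0) : z ∈ Fil Γ n k := by
  obtain ⟨d, h1, h2, h3⟩ := exists_partial Γ n
  induction k generalizing z with
  | zero => rw [Fil_zero]; trivial
  | succ k ih =>
    rw [telescope Γ n d h1 h2 h3 z (h 0 (Nat.succ_pos k)), Fil_succ]
    refine finsum_induction (p := fun x => x ∈ Fil Γ n k * Com Γ n) (Submodule.zero_mem _)
      (fun _ _ hx hy => Submodule.add_mem _ hx hy) fun p => ?_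
    refine Submodule.mul_mem_mul (ih _ fun i hi => ?_) (sub_srt_mem_Com Γ n p.1 p.2)
    exact sym_partial Γ n d h1 h2 h3 i z (h (i + 1) (Nat.succ_lt_succ hi)) p

theorem mem_Fil_succ (k : ℕ) {z : FA Γ n} (hz : z ∈ Fil Γ n k) (h : sym Γ n k z = 0) :
    z ∈ Fil Γ n (k + 1) := by
  refine mem_Fil_of_sym Γ n (k + 1) z fun i hi => ?_
  rcases Nat.lt_succ_iff_lt_or_eq.mp hi with h1 | rfl
  · exact sym_eq_zero Γ n i (Fil_antitone Γ n h1 hz)
  · exact h

end Pool.Agent.H.MP_f5ceca_al.N
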