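import Pool.Agent.H.MP_f5ceca_al.N.Basic

/-!
Finiteness of the quotient.
-/

namespace Pool.Agent.H.MP_f5ceca_al.N

universe v

variable (Γ : Type v) [CommRing Γ] (n : ℕ)

private theorem fgen_Bd_left (f : Fin n → Polynomial Γ) (N : ℕ) (a : FA Γ n) {z : FA Γ n}
    (hz : z ∈ Bd Γ n f N) : a * z ∈ Bd Γ n f N := by
  unfold Bd at hz ⊢
  induction hz using Submodule.span_induction with
  | mem x hx =>
    obtain ⟨b, c, j, rfl⟩ := hx
    exact Submodule.subset_span ⟨a * b, c, j, by simp only [mul_assoc]⟩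
  | zero => simp
  | add x y _ _ hx hy =>
    rw [mul_add]
    exact Submodule.add_mem _ hx hy
  | smul c x _ hx =>
    rw [mul_smul_comm]
    exact Submodule.smul_mem _ _ hx

private theorem fgen_Bd_right (f : Fin n → Polynomial Γ) (N : ℕ) (a : FA Γ n) {z : FA Γ n}
    (hz : z ∈ Bd Γ n f N) : z * a ∈ Bd Γ n f N := by
  unfold Bd at hz ⊢
  induction hz using Submodule.span_induction with
  | mem x hx =>
    obtain ⟨b, c, j, rfl⟩ := hx
    exact Submodule.subset_span ⟨b, c * a, j, by simp only [mul_assoc]⟩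
  | zero => simp
  | add x y _ _ hx hy =>
    rw [add_mul]
    exact Submodule.add_mem _ hx hy
  | smul c x _ hx =>
    rw [smul_mul_assoc]
    exact Submodule.smul_mem _ _ hx

/-- The two-sided ideal of the theorem. -/
private def fgJ (f : Fin n → Polynomial Γ) (N : ℕ) : Submodule Γ (FA Γ n) := Com Γ n ⊔ Bd Γ n f N

private theorem fgJ_left (f : Fin n → Polynomial Γ) (N : ℕ) (a : FA Γ n) {z : FA Γ n}
    (hz : z ∈ fgJ Γ n f N) : a * z ∈ fgJ Γ n f N := by
  unfold fgJ at hz ⊢
  obtain ⟨x, hx, y, hy, rfl⟩ := Submodule.mem_sup.1 hz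
  rw [mul_add]
  exact Submodule.add_mem _ (Submodule.mem_sup_left (Com_left Γ a hx))
    (Submodule.mem_sup_right (fgen_Bd_left Γ n f N a hy))

private theorem fgJ_right (f : Fin n → Polynomial Γ) (N : ℕ) (a : FA Γ n) {z : FA Γ n}
    (hz : z ∈ fgJ Γ n f N) : z * a ∈ fgJ Γ n f N := by
  unfold fgJ at hz ⊢
  obtain ⟨x, hx, y, hy, rfl⟩ := Submodule.mem_sup.1 hz
  rw [add_mul]
  exact Submodule.add_mem _ (Submodule.mem_sup_left (Com_right Γ a hx))
    (Submodule.mem_sup_right (fgen_Bd_right Γ n f N a hy))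

private theorem fgJ_comm (f : Fin n → Polynomial Γ) (N : ℕ) (p q : FA Γ n) :
    p * q - q * p ∈ fgJ Γ n f N := by
  refine Submodule.mem_sup_left (Submodule.subset_span ⟨1, 1, p, q, ?_⟩)
  rw [one_mul, mul_one]

/-- Reduction of powers of a letter. -/
private theorem fgJ_pow (f : Fin n → Polynomial Γ) (hf : ∀ j, (f j).Monic) (N : ℕ) (j : Fin n)
    (i : ℕ) (hi : i ≤ ((f j) ^ N).natDegree) :
    xx Γ j ^ i * xx Γ j ∈ Submodule.span Γ
      ((fun i : ℕ => xx Γ j ^ i) '' (Finset.range (((f j) ^ N).natDegree + 1) : Set ℕ)) ⊔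
        fgJ Γ n f N := by
  classical
  set g : Polynomial Γ := (f j) ^ N with hg
  set D : ℕ := g.natDegree with hD
  have hmem : ∀ l, l ≤ D → xx Γ j ^ l ∈ Submodule.span Γ
      ((fun i : ℕ => xx Γ j ^ i) '' (Finset.range (D + 1) : Set ℕ)) := by
    intro l hl
    refine Submodule.subset_span ⟨l, ?_, rfl⟩
    rw [Finset.mem_coe, Finset.mem_range]
    omega
  rcases Nat.lt_or_ge i D with h | h
  · rw [← pow_succ]
    exact Submodule.mem_sup_left (hmem (i + 1) h)
  · have hiD : i = D := le_antisymm hi h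
    have hgm : g.Monic := (hf j).pow N
    have h1 : Polynomial.aeval (xx Γ j) g = ∑ l ∈ Finset.range D, g.coeff l • xx Γ j ^ l +
        xx Γ j ^ D := by
      rw [Polynomial.aeval_eq_sum_range, ← hD, Finset.sum_range_succ]
      congr 1
      have : g.coeff D = 1 := hgm
      rw [this, one_smul]
    have h2 : xx Γ j ^ D * xx Γ j = Polynomial.aeval (xx Γ j) g * xx Γ j -
        ∑ l ∈ Finset.range D, g.coeff l • xx Γ j ^ (l + 1) := by
      rw [h1, add_mul, Finset.sum_mul]
      have : ∀ l ∈ Finset.range D, (g.coeff l • xx Γ j ^ l) * xx Γ j =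
          g.coeff l • xx Γ j ^ (l + 1) := by
        intro l _
        rw [smul_mul_assoc, pow_succ]
      rw [Finset.sum_congr rfl this]
      abel
    rw [hiD, h2]
    refine Submodule.sub_mem _ ?_ ?_
    · refine Submodule.mem_sup_right ?_
      refine Submodule.mem_sup_right (Submodule.subset_span ⟨1, xx Γ j, j, ?_⟩)
      rw [hg, map_pow, one_mul]
    · refine Submodule.mem_sup_left (Submodule.sum_mem _ fun l hl => ?_)
      refine Submodule.smul_mem _ _ (hmem (l + 1) ?_)
      rw [Finset.mem_range] at hl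
      omega

private theorem fgen_step (f : Fin n → Polynomial Γ) (hf : ∀ j, (f j).Monic) (N : ℕ)
    (s : Finset (Fin n)) :
    ∃ W : Submodule Γ (FA Γ n), W.FG ∧ 1 ∈ W ∧
      ∀ j ∈ s, ∀ w ∈ W, w * xx Γ j ∈ W ⊔ fgJ Γ n f N := by
  classical
  induction s using Finset.induction_on with
  | empty =>
    exact ⟨Submodule.span Γ {1}, Submodule.fg_span (Set.finite_singleton _),
      Submodule.mem_span_singleton_self _, by simp⟩
  | insert j s hj ih =>
    obtain ⟨W, hW, hW1, hWs⟩ := ih
    set P : Submodule Γ (FA Γ n) := Submodule.span Γ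
      ((fun i : ℕ => xx Γ j ^ i) '' (Finset.range (((f j) ^ N).natDegree + 1) : Set ℕ)) with hP
    have hPfg : P.FG := Submodule.fg_span ((Finset.finite_toSet _).image _)
    have hP1 : (1 : FA Γ n) ∈ P := by
      refine Submodule.subset_span ⟨0, ?_, pow_zero _⟩
      simp
    have hPx : ∀ p ∈ P, p * xx Γ j ∈ P ⊔ fgJ Γ n f N := by
      intro p hp
      induction hp using Submodule.span_induction with
      | mem x hx =>
        obtain ⟨i, hi, rfl⟩ := hx
        rw [Finset.mem_coe, Finset.mem_range] at hi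
        exact fgJ_pow Γ n f hf N j i (by omega)
      | zero => simp
      | add x y _ _ hx hy =>
        rw [add_mul]
        exact Submodule.add_mem _ hx hy
      | smul c x _ hx =>
        rw [smul_mul_assoc]
        exact Submodule.smul_mem _ _ hx
    refine ⟨W * P, hW.mul hPfg, ?_, ?_⟩
    · have := Submodule.mul_mem_mul hW1 hP1
      rwa [one_mul] at this
    · intro i hi w hw
      rcases Finset.mem_insert.1 hi with rfl | hi
      · refine Submodule.mul_induction_on hw ?_ ?_
        · intro a ha p hp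
          obtain ⟨p', hp', z, hz, hpz⟩ := Submodule.mem_sup.1 (hPx p hp)
          rw [mul_assoc, ← hpz, mul_add]
          exact Submodule.add_mem _ (Submodule.mem_sup_left (Submodule.mul_mem_mul ha hp'))
            (Submodule.mem_sup_right (fgJ_left Γ n f N a hz))
        · intro x y hx hy
          rw [add_mul]
          exact Submodule.add_mem _ hx hy
      · refine Submodule.mul_induction_on hw ?_ ?_
        · intro a ha p hp
          obtain ⟨a', ha', z, hz, haz⟩ := Submodule.mem_sup.1 (hWs i hi a ha)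
          have e : a * p * xx Γ i = a' * p + (z * p + a * (p * xx Γ i - xx Γ i * p)) := by
            have e1 : a * xx Γ i * p = (a' + z) * p := by rw [haz]
            calc a * p * xx Γ i = a * xx Γ i * p + a * (p * xx Γ i - xx Γ i * p) := by
                  noncomm_ring
              _ = a' * p + (z * p + a * (p * xx Γ i - xx Γ i * p)) := by
                  rw [e1]
                  noncomm_ring
          rw [e]
          refine Submodule.add_mem _ (Submodule.mem_sup_left (Submodule.mul_mem_mul ha' hp))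
            (Submodule.mem_sup_right (Submodule.add_mem _ (fgJ_right Γ n f N p hz)
              (fgJ_left Γ n f N a (fgJ_comm Γ n f N _ _))))
        · intro x y hx hy
          rw [add_mul]
          exact Submodule.add_mem _ hx hy

/-- Modulo `Com + Bd` the free algebra is spanned by finitely many elements.

PROOF. Let `W_j` be the span of the `x_j^i`, `i < N deg f_j` (if this is `0` then ... `f_j` monic: `f_j^N = 1`, trivial). Then
`W = W_0 W_1 … W_{n-1}` (product of submodules, finitely generated) satisfies `1 ∈ W` and `W x_j ≤ W + Com + Bd`: move `x_j` to its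
place modulo `Com` and reduce with `x_j^D ∈ W_j + (f_j(x_j)^N)`. So `W + Com + Bd` is everything (`FreeAlgebra.induction`, or: the subalgebra generated by the
letters). Alternatively: the quotient is a commutative ring, generated by integral elements. -/
theorem fg_quot_one (f : Fin n → Polynomial Γ) (hf : ∀ j, (f j).Monic) (N : ℕ) :
    ∃ W : Submodule Γ (FA Γ n), W.FG ∧ 1 ∈ W ∧ ⊤ ≤ W ⊔ (Com Γ n ⊔ Bd Γ n f N) := by
  obtain ⟨W, hW, hW1, hWs⟩ := fgen_step Γ n f hf N Finset.univ
  refine ⟨W, hW, hW1, ?_⟩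
  have key : ∀ a : FA Γ n, ∀ w ∈ W, w * a ∈ W ⊔ fgJ Γ n f N := by
    intro a
    induction a using FreeAlgebra.induction with
    | grade0 r =>
      intro w hw
      rw [← Algebra.commutes, ← Algebra.smul_def]
      exact Submodule.mem_sup_left (Submodule.smul_mem _ _ hw)
    | grade1 j =>
      intro w hw
      exact hWs j (Finset.mem_univ j) w hw
    | mul a b ha hb =>
      intro w hw
      obtain ⟨w', hw', z, hz, hwz⟩ := Submodule.mem_sup.1 (ha w hw)
      rw [← mul_assoc, ← hwz, add_mul]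
      exact Submodule.add_mem _ (hb w' hw') (Submodule.mem_sup_right (fgJ_right Γ n f N b hz))
    | add a b ha hb =>
      intro w hw
      rw [mul_add]
      exact Submodule.add_mem _ (ha w hw) (hb w hw)
  intro a _
  have := key a 1 hW1
  rwa [one_mul] at this

private theorem fgen_Fil_add_two (m : ℕ) : Fil Γ n m * Fil Γ n 2 ≤ Fil Γ n (m + 2) := by
  have h1 : Fil Γ n 2 = Com Γ n * Com Γ n := by rw [Fil_succ, Fil_one]
  rw [h1, ← mul_assoc, ← Fil_succ, ← Fil_succ]

private theorem fgen_Com (f : Fin n → Polynomial Γ) (hf : ∀ j, (f j).Monic) (N : ℕ) :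
    ∃ U : Submodule Γ (FA Γ n), U.FG ∧ U ≤ Com Γ n ∧
      Com Γ n ≤ U ⊔ (Fil Γ n 2 ⊔ Bd Γ n f N) := by
  classical
  obtain ⟨W, hW, -, hWt⟩ := fg_quot_one Γ n f hf N
  set G : Submodule Γ (FA Γ n) := Submodule.span Γ
    (Set.range fun p : Fin n × Fin n => xx Γ p.1 * xx Γ p.2 - xx Γ p.2 * xx Γ p.1) with hG
  have hGfg : G.FG := Submodule.fg_span (Set.finite_range _)
  have hGC : G ≤ Com Γ n := by
    rw [hG, Submodule.span_le]
    rintro _ ⟨p, rfl⟩
    refine Submodule.subset_span ⟨1, 1, xx Γ p.1, xx Γ p.2, ?_⟩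
    rw [one_mul, mul_one]
  have hC2 : Fil Γ n 2 = Com Γ n * Com Γ n := by rw [Fil_succ, Fil_one]
  refine ⟨W * G * W, (hW.mul hGfg).mul hW, ?_, ?_⟩
  · rw [Submodule.mul_le]
    intro x hx w _
    refine Com_right Γ w ?_
    have : W * G ≤ Com Γ n := by
      rw [Submodule.mul_le]
      intro w' _ g hg
      exact Com_left Γ w' (hGC hg)
    exact this hx
  · conv_lhs => rw [Com_eq]
    rw [Submodule.span_le]
    rintro _ ⟨a, b, i, j, rfl⟩
    set g : FA Γ n := xx Γ i * xx Γ j - xx Γ j * xx Γ i with hg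
    have hgG : g ∈ G := Submodule.subset_span ⟨(i, j), rfl⟩
    have hgC : g ∈ Com Γ n := hGC hgG
    obtain ⟨w, hw, a', ha', haw⟩ := Submodule.mem_sup.1 (hWt (Submodule.mem_top : a ∈ ⊤))
    obtain ⟨c, hc, β, hβ, hcβ⟩ := Submodule.mem_sup.1 ha'
    obtain ⟨w₂, hw₂, b', hb', hbw⟩ := Submodule.mem_sup.1 (hWt (Submodule.mem_top : b ∈ ⊤))
    obtain ⟨c₂, hc₂, β₂, hβ₂, hcβ₂⟩ := Submodule.mem_sup.1 hb'
    have e : a * g * b = w * g * w₂ + ((w * (g * c₂) + c * (g * b)) +
        (w * g * β₂ + β * (g * b))) := by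
      have hb2 : b = w₂ + (c₂ + β₂) := by rw [hcβ₂, hbw]
      calc a * g * b = w * g * b + c * (g * b) + β * (g * b) := by
            rw [← haw, ← hcβ]
            noncomm_ring
        _ = w * g * (w₂ + (c₂ + β₂)) + c * (g * b) + β * (g * b) := by rw [← hb2]
        _ = _ := by noncomm_ring
    rw [e, SetLike.mem_coe]
    refine Submodule.add_mem _ (Submodule.mem_sup_left (Submodule.mul_mem_mul
      (Submodule.mul_mem_mul hw hgG) hw₂)) (Submodule.mem_sup_right ?_)
    refine Submodule.add_mem _ (Submodule.mem_sup_left ?_) (Submodule.mem_sup_right ?_)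
    · refine Submodule.add_mem _ (Fil_left Γ 2 w ?_) ?_
      · rw [hC2]
        exact Submodule.mul_mem_mul hgC hc₂
      · rw [hC2]
        exact Submodule.mul_mem_mul hc (Com_right Γ b hgC)
    · exact Submodule.add_mem _ (fgen_Bd_left Γ n f N _ hβ₂) (fgen_Bd_right Γ n f N _ hβ)

private theorem fgen_layer (f : Fin n → Polynomial Γ) (hf : ∀ j, (f j).Monic) (N : ℕ) (m : ℕ) :
    ∃ V : Submodule Γ (FA Γ n), V.FG ∧ V ≤ Fil Γ n m ∧
      Fil Γ n m ≤ V ⊔ (Fil Γ n (m + 1) ⊔ Bd Γ n f N) := by
  obtain ⟨U, hU, hUC, hCU⟩ := fgen_Com Γ n f hf N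
  induction m with
  | zero =>
    obtain ⟨W, hW, -, hWt⟩ := fg_quot_one Γ n f hf N
    refine ⟨W, hW, ?_, ?_⟩
    · rw [Fil_zero]
      exact le_top
    · rw [Fil_zero, zero_add, Fil_one]
      exact hWt
  | succ m ih =>
    obtain ⟨V, hV, hVF, hFV⟩ := ih
    refine ⟨V * U, hV.mul hU, ?_, ?_⟩
    · rw [Fil_succ]
      exact mul_le_mul' hVF hUC
    · conv_lhs => rw [Fil_succ]
      rw [Submodule.mul_le]
      intro x hx c hc
      obtain ⟨v, hv, x', hx', hvx⟩ := Submodule.mem_sup.1 (hFV hx)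
      obtain ⟨x₁, hx₁, β, hβ, hxβ⟩ := Submodule.mem_sup.1 hx'
      obtain ⟨u, hu, c', hc', huc⟩ := Submodule.mem_sup.1 (hCU hc)
      obtain ⟨k, hk, β₂, hβ₂, hkβ⟩ := Submodule.mem_sup.1 hc'
      have e : x * c = v * u + ((v * k + x₁ * c) + (v * β₂ + β * c)) := by
        have hc2 : c = u + (k + β₂) := by rw [hkβ, huc]
        calc x * c = v * c + x₁ * c + β * c := by
              rw [← hvx, ← hxβ]
              noncomm_ring
          _ = v * (u + (k + β₂)) + x₁ * c + β * c := by rw [← hc2]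
          _ = _ := by noncomm_ring
      rw [e]
      refine Submodule.add_mem _ (Submodule.mem_sup_left (Submodule.mul_mem_mul hv hu))
        (Submodule.mem_sup_right ?_)
      refine Submodule.add_mem _ (Submodule.mem_sup_left ?_) (Submodule.mem_sup_right ?_)
      · refine Submodule.add_mem _ ?_ ?_
        · exact fgen_Fil_add_two Γ n m (Submodule.mul_mem_mul (hVF hv) hk)
        · rw [Fil_succ]
          exact Submodule.mul_mem_mul hx₁ hc
      · exact Submodule.add_mem _ (fgen_Bd_left Γ n f N _ hβ₂) (fgen_Bd_right Γ n f N _ hβ)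

/-- PROOF. `W` as in `fg_quot_one`, `G` the span of the `[x_i,x_j]`, so `Com = ⊤ G ⊤ ≤ W G W + Com^2 + Bd` (`Com_eq`), and by induction
`⊤ ≤ W + W G W + (W G W)^2 + … + (W G W)^(m-1) + Fil m + Bd`; products of finitely generated submodules are finitely generated
(`Submodule.FG.mul`, `Submodule.FG.pow`). -/
theorem fg_quot (f : Fin n → Polynomial Γ) (hf : ∀ j, (f j).Monic) (m N : ℕ) :
    ∃ W : Submodule Γ (FA Γ n), W.FG ∧ ⊤ ≤ W ⊔ (Fil Γ n m ⊔ Bd Γ n f N) := by
  induction m with
  | zero =>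
    refine ⟨⊥, Submodule.fg_bot, ?_⟩
    rw [Fil_zero]
    exact le_sup_of_le_right le_sup_left
  | succ m ih =>
    obtain ⟨W, hW, hWt⟩ := ih
    obtain ⟨V, hV, -, hFV⟩ := fgen_layer Γ n f hf N m
    refine ⟨W ⊔ V, hW.sup hV, hWt.trans ?_⟩
    refine sup_le (le_sup_of_le_left le_sup_left) (sup_le ?_ ?_)
    · refine hFV.trans (sup_le (le_sup_of_le_left le_sup_right) le_sup_right)
    · exact le_sup_of_le_right le_sup_right

end Pool.Agent.H.MP_f5ceca_al.N
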