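import Pool.Agent.H.MP_f5ceca_al.N.Detect
import Pool.Agent.H.MP_f5ceca_al.N.FinGen

/-!
The quotient of the free algebra over the parameter ring.
-/

namespace Pool.Agent.H.MP_f5ceca_al.N

universe u v

/-- Quotient of an algebra by a two-sided ideal given as a submodule.

PROOF. `TwoSidedIdeal` / `RingCon.Quotient` (it is an algebra over `Γ`), or `RingQuot`. -/
theorem exists_quotient {Γ : Type v} [CommRing Γ] {F : Type v} [Ring F] [Algebra Γ F]
    (J : Submodule Γ F) (hl : ∀ a, ∀ z ∈ J, a * z ∈ J) (hr : ∀ a, ∀ z ∈ J, z * a ∈ J) :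
    ∃ (A : Type v) (_ : Ring A) (_ : Algebra Γ A) (π : F →ₐ[Γ] A),
      Function.Surjective π ∧ ∀ z, π z = 0 ↔ z ∈ J := by
  let c : RingCon F :=
    { r := fun x y => x - y ∈ J
      iseqv := ⟨fun x => by rw [sub_self]; exact J.zero_mem,
        fun {x y} h => by
          have : y - x = -(x - y) := by abel
          rw [this]
          exact J.neg_mem h,
        fun {x y z} h1 h2 => by
          have : x - z = (x - y) + (y - z) := by abel
          rw [this]
          exact J.add_mem h1 h2⟩
      add' := fun {w x y z} h1 h2 => by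
        have : w + y - (x + z) = (w - x) + (y - z) := by abel
        show w + y - (x + z) ∈ J
        rw [this]
        exact J.add_mem h1 h2
      mul' := fun {w x y z} h1 h2 => by
        have : w * y - x * z = (w - x) * y + x * (y - z) := by
          rw [sub_mul, mul_sub]
          abel
        show w * y - x * z ∈ J
        rw [this]
        exact J.add_mem (hr _ _ h1) (hl _ _ h2) }
  refine ⟨c.Quotient, inferInstance, inferInstance, RingCon.mkₐ Γ c,
    RingCon.mkₐ_surjective c, ?_⟩
  · intro z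
    have h1 : ((z : F) : c.Quotient) = ((0 : F) : c.Quotient) ↔ c z 0 := c.eq
    have h2 : c z 0 ↔ z ∈ J := by
      show z - 0 ∈ J ↔ z ∈ J
      rw [sub_zero]
    exact h1.trans h2

/-- The commutator filtration is generated over `K`. -/
theorem Quot_Fil_le {K : Type u} [Field K] (Γ : Type v) [CommRing Γ] [Algebra K Γ] (n m : ℕ) :
    Fil Γ n m ≤ TG Γ n (Fil K n m) := by
  induction m with
  | zero =>
    rw [Fil_zero, Fil_zero]
    have h1 := span_mapF_top (K := K) Γ n
    unfold TG
    rw [Submodule.top_coe, Set.image_univ, h1]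
  | succ m ih =>
    rw [Fil_succ, Fil_succ, Submodule.mul_le]
    intro x hx y hy
    have hx' := ih hx
    have hy' := Com_le_TG (K := K) Γ n hy
    obtain ⟨p, γ, z, hz, rfl⟩ := mem_TG_iff Γ n _ hx'
    obtain ⟨q, δ, w, hw, rfl⟩ := mem_TG_iff Γ n _ hy'
    rw [Finset.sum_mul_sum]
    refine Submodule.sum_mem _ fun i _ => Submodule.sum_mem _ fun j _ => ?_
    rw [smul_mul_smul_comm, ← map_mul]
    exact Submodule.smul_mem _ _ (Submodule.subset_span
      ⟨z i * w j, Submodule.mul_mem_mul (hz i) (hw j), rfl⟩)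

theorem Quot_TG_mono {K : Type u} [Field K] (Γ : Type v) [CommRing Γ] [Algebra K Γ] (n : ℕ)
    {S T : Submodule K (FA K n)} (h : S ≤ T) : TG Γ n S ≤ TG Γ n T :=
  Submodule.span_mono (Set.image_mono h)

/-- The algebra `A`, finite over the parameter ring.

PROOF. `T = idn S n` with `Fil K n m ≤ T`, `d, N` from `detect` (with `idn_isOp`), `Γ = PG K n d`, `J = T_Γ + Bd N`
(two-sided ideal: `TG_left`, `TG_right` in Coeff.lean, `Bd_left`, `Bd_right`), `A = F/J` by `exists_quotient`. Finite: `fg_quot` with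
`fG_monic` and `Fil Γ n m ≤ T_Γ` (Fil over `Γ` is spanned by the images of elements of `Fil K n m`, or the products
of commutators; if it is easier, prove `Fil Γ n m ≤ TG Γ n T` by induction on `m` for `Fil Γ n m = span of mapF '' Fil K n m`; compare
`Com_le_TG` in Coeff.lean). -/
theorem exists_A {K : Type u} [Field K] [Infinite K] (n : ℕ) (T : Submodule K (FA K n))
    (hT : IsOp K n T) (m : ℕ) (hm : Fil K n m ≤ T) :
    ∃ (Γ : Type u) (_ : CommRing Γ) (_ : Algebra K Γ) (_ : Algebra.FiniteType K Γ) (A : Type u)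
      (_ : Ring A) (_ : Algebra Γ A) (_ : Module.Finite Γ A) (π : FA Γ n →ₐ[Γ] A),
      (∀ z ∈ T, π (mapF Γ n z) = 0) ∧ (∀ z : FA K n, π (mapF Γ n z) = 0 → z ∈ T) := by
  obtain ⟨d, N, -, hdet⟩ := detect K n T hT m hm
  obtain ⟨A, _, _, π, hsurj, hker⟩ := exists_quotient
    (TG (PG K n d) n T ⊔ Bd (PG K n d) n (fG K n d) N)
    (fun a z hz => by
      obtain ⟨x, hx, y, hy, rfl⟩ := Submodule.mem_sup.1 hz
      rw [mul_add]
      exact Submodule.add_mem _ (Submodule.mem_sup_left (TG_left _ n T hT.left a hx))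
        (Submodule.mem_sup_right (Bd_left _ n _ N a hy)))
    (fun a z hz => by
      obtain ⟨x, hx, y, hy, rfl⟩ := Submodule.mem_sup.1 hz
      rw [add_mul]
      exact Submodule.add_mem _ (Submodule.mem_sup_left (TG_right _ n T hT.right a hx))
        (Submodule.mem_sup_right (Bd_right _ n _ N a hy)))
  refine ⟨PG K n d, inferInstance, inferInstance, inferInstance, A, inferInstance, inferInstance,
    ?_, π, ?_, ?_⟩
  · obtain ⟨W, hW, hWt⟩ := fg_quot (PG K n d) n (fG K n d) (fG_monic K n d) m N
    refine ⟨?_⟩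
    have h1 : (⊤ : Submodule (PG K n d) A) = W.map π.toLinearMap := by
      refine le_antisymm ?_ le_top
      rintro x -
      obtain ⟨z, rfl⟩ := hsurj x
      obtain ⟨w, hw, y, hy, hwy⟩ := Submodule.mem_sup.1 (hWt (Submodule.mem_top (x := z)))
      refine ⟨w, hw, ?_⟩
      have h2 : π y = 0 := by
        rw [hker]
        have h3 : Fil (PG K n d) n m ≤ TG (PG K n d) n T :=
          (Quot_Fil_le (K := K) (PG K n d) n m).trans (Quot_TG_mono _ n hm)
        exact sup_le_sup_right h3 (Bd (PG K n d) n (fG K n d) N) hy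
      rw [← hwy, map_add, h2, add_zero]
      rfl
    rw [h1]
    exact hW.map _
  · intro z hz
    rw [hker]
    exact Submodule.mem_sup_left (Submodule.subset_span ⟨z, hz, rfl⟩)
  · intro z hz
    exact hdet z ((hker _).1 hz)

end Pool.Agent.H.MP_f5ceca_al.N
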