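import Pool.Agent.H.MP_f5ceca_al.N.Defs

/-!
Basic facts on identities.
-/

namespace Pool.Agent.H.MP_f5ceca_al.N

universe u v

variable {K : Type u} [Field K]

/-- The identities in `n` variables as a subspace of the free algebra. -/
def idn (S : Set (FreeAlgebra K ℕ)) (n : ℕ) : Submodule K (FA K n) where
  carrier := identities S n
  add_mem' {a b} ha hb := by
    intro A _ _ _ _ hA w
    rw [map_add, ha A hA w, hb A hA w, add_zero]
  zero_mem' := by
    intro A _ _ _ _ hA w
    rw [map_zero]
  smul_mem' c x hx := by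
    intro A _ _ _ _ hA w
    rw [map_smul, hx A hA w, smul_zero]

theorem mem_idn {S : Set (FreeAlgebra K ℕ)} {n : ℕ} {z : FA K n} :
    z ∈ idn S n ↔ z ∈ identities S n := Iff.rfl

theorem idn_left (S : Set (FreeAlgebra K ℕ)) (n : ℕ) (a : FA K n) {z : FA K n}
    (hz : z ∈ idn S n) : a * z ∈ idn S n := by
  intro A _ _ _ _ hA w
  rw [map_mul, hz A hA w, mul_zero]

theorem idn_right (S : Set (FreeAlgebra K ℕ)) (n : ℕ) (a : FA K n) {z : FA K n}
    (hz : z ∈ idn S n) : z * a ∈ idn S n := by
  intro A _ _ _ _ hA w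
  rw [map_mul, hz A hA w, zero_mul]

theorem Basic_mem_Aug {Γ : Type v} [CommRing Γ] {n : ℕ} {z : FA Γ n} :
    z ∈ Aug Γ n ↔ FreeAlgebra.algebraMapInv z = 0 := Iff.rfl

/-- The value of an element without constant term lies in the algebra. -/
theorem Basic_val {n : ℕ} {A : Type u} [NonUnitalRing A] [Module K A] [IsScalarTower K A A]
    [SMulCommClass K A A] (w : Fin n → A) {g : FA K n} (hg : g ∈ Aug K n) :
    FreeAlgebra.lift K (fun i => ((w i : A) : Unitization K A)) g =
      (((FreeAlgebra.lift K (fun i => ((w i : A) : Unitization K A)) g).snd : A) :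
        Unitization K A) := by
  have h1 : (Unitization.fstHom K A).comp
      (FreeAlgebra.lift K (fun i => ((w i : A) : Unitization K A))) =
      FreeAlgebra.algebraMapInv := by
    apply FreeAlgebra.hom_ext
    funext i
    simp [FreeAlgebra.algebraMapInv]
  have h2 : (FreeAlgebra.lift K (fun i => ((w i : A) : Unitization K A)) g).fst = 0 := by
    have h3 := DFunLike.congr_fun h1 g
    rw [Basic_mem_Aug.1 hg] at h3
    exact h3
  apply Unitization.ext
  · rw [h2, Unitization.fst_inr]
  · rw [Unitization.snd_inr]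

/-- Composition of substitutions. -/
theorem Basic_comp {X : Type} {n : ℕ} {A : Type u} [NonUnitalRing A] [Module K A]
    [IsScalarTower K A A] [SMulCommClass K A A] (w : Fin n → A) (g : X → FA K n)
    (hg : ∀ i, g i ∈ Aug K n) (z : FreeAlgebra K X) :
    FreeAlgebra.lift K (fun i => ((w i : A) : Unitization K A)) (FreeAlgebra.lift K g z) =
      FreeAlgebra.lift K (fun i => (((FreeAlgebra.lift K
        (fun i => ((w i : A) : Unitization K A)) (g i)).snd : A) : Unitization K A)) z := by
  have h1 : (FreeAlgebra.lift K (fun i => ((w i : A) : Unitization K A))).comp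
      (FreeAlgebra.lift K g) = FreeAlgebra.lift K (fun i => (((FreeAlgebra.lift K
        (fun i => ((w i : A) : Unitization K A)) (g i)).snd : A) : Unitization K A)) := by
    apply FreeAlgebra.hom_ext
    funext i
    simp only [Function.comp_apply, AlgHom.comp_apply, FreeAlgebra.lift_ι_apply]
    exact Basic_val w (hg i)
  exact DFunLike.congr_fun h1 z

/-- Substitution into an identity in `k` variables (`X = Fin k`).

PROOF. For `A` in the variety and `w : Fin n → A`, `lift w (g i)` is an element of `A` (constant term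
`Unitization.fst` equal to the constant term of `g i`, which is `0`; induction or composition of
algebra maps `Unitization.fstHom`), and `lift w (lift g z) = lift (fun i => lift w (g i)) z`
(`FreeAlgebra.lift` uniqueness). -/
theorem idn_subst (S : Set (FreeAlgebra K ℕ)) (k n : ℕ) {z : FA K k} (hz : z ∈ idn S k)
    (g : Fin k → FA K n) (hg : ∀ i, g i ∈ Aug K n) : FreeAlgebra.lift K g z ∈ idn S n := by
  intro A _ _ _ _ hA w
  rw [Basic_comp w g hg z]
  exact hz A hA _

/-- The defining identities hold in the relatively free algebra. Same proof. -/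
theorem idn_of_mem (S : Set (FreeAlgebra K ℕ)) (n : ℕ) {f : FreeAlgebra K ℕ} (hf : f ∈ S)
    (g : ℕ → FA K n) (hg : ∀ i, g i ∈ Aug K n) : FreeAlgebra.lift K g f ∈ idn S n := by
  intro A _ _ _ _ hA w
  rw [Basic_comp w g hg f]
  exact hA f hf _

/-- `Aug` is a two-sided ideal, contains the letters and the commutator ideal. -/
theorem Aug_left {Γ : Type v} [CommRing Γ] {n : ℕ} (a : FA Γ n) {z : FA Γ n} (hz : z ∈ Aug Γ n) :
    a * z ∈ Aug Γ n := by
  rw [Basic_mem_Aug] at hz ⊢
  rw [map_mul, hz, mul_zero]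

theorem Aug_right {Γ : Type v} [CommRing Γ] {n : ℕ} (a : FA Γ n) {z : FA Γ n} (hz : z ∈ Aug Γ n) :
    z * a ∈ Aug Γ n := by
  rw [Basic_mem_Aug] at hz ⊢
  rw [map_mul, hz, zero_mul]

theorem xx_mem_Aug (Γ : Type v) [CommRing Γ] {n : ℕ} (j : Fin n) : xx Γ j ∈ Aug Γ n := by
  rw [Basic_mem_Aug]
  unfold xx
  simp [FreeAlgebra.algebraMapInv]

theorem Com_le_Aug (Γ : Type v) [CommRing Γ] (n : ℕ) : Com Γ n ≤ Aug Γ n := by
  unfold Com
  rw [Submodule.span_le]
  rintro z ⟨a, b, p, q, rfl⟩
  rw [SetLike.mem_coe, Basic_mem_Aug]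
  simp only [map_mul, map_sub]
  ring

/-- `T = idn S n` has the properties used in the representability proof. -/
theorem idn_isOp (S : Set (FreeAlgebra K ℕ)) (n : ℕ) : IsOp K n (idn S n) where
  left a _ hz := idn_left S n a hz
  right a _ hz := idn_right S n a hz
  op c hc _ hz := idn_subst S n n hz _ fun j =>
    add_mem (xx_mem_Aug K j) (Com_le_Aug K n (hc j))

/-- The span of a set closed under left multiplication. -/
theorem Basic_span_left {Γ : Type v} [CommRing Γ] {n : ℕ} (s : Set (FA Γ n)) (a : FA Γ n)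
    (hs : ∀ z ∈ s, a * z ∈ s) {z : FA Γ n} (hz : z ∈ Submodule.span Γ s) :
    a * z ∈ Submodule.span Γ s := by
  induction hz using Submodule.span_induction with
  | mem x h => exact Submodule.subset_span (hs x h)
  | zero => rw [mul_zero]; exact zero_mem _
  | add x y _ _ hx hy => rw [mul_add]; exact add_mem hx hy
  | smul c x _ hx => rw [mul_smul_comm]; exact Submodule.smul_mem _ c hx

/-- The span of a set closed under right multiplication. -/
theorem Basic_span_right {Γ : Type v} [CommRing Γ] {n : ℕ} (s : Set (FA Γ n)) (a : FA Γ n)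
    (hs : ∀ z ∈ s, z * a ∈ s) {z : FA Γ n} (hz : z ∈ Submodule.span Γ s) :
    z * a ∈ Submodule.span Γ s := by
  induction hz using Submodule.span_induction with
  | mem x h => exact Submodule.subset_span (hs x h)
  | zero => rw [zero_mul]; exact zero_mem _
  | add x y _ _ hx hy => rw [add_mul]; exact add_mem hx hy
  | smul c x _ hx => rw [smul_mul_assoc]; exact Submodule.smul_mem _ c hx

/-- The commutator ideal is a two-sided ideal. -/
theorem Com_left (Γ : Type v) [CommRing Γ] {n : ℕ} (a : FA Γ n) {z : FA Γ n} (hz : z ∈ Com Γ n) :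
    a * z ∈ Com Γ n := by
  refine Basic_span_left _ a ?_ hz
  rintro z ⟨a', b, p, q, rfl⟩
  exact ⟨a * a', b, p, q, by simp only [mul_assoc]⟩

theorem Com_right (Γ : Type v) [CommRing Γ] {n : ℕ} (a : FA Γ n) {z : FA Γ n} (hz : z ∈ Com Γ n) :
    z * a ∈ Com Γ n := by
  refine Basic_span_right _ a ?_ hz
  rintro z ⟨a', b, p, q, rfl⟩
  exact ⟨a', b * a, p, q, by simp only [mul_assoc]⟩

/-- The commutator ideal is generated by the commutators of letters.

PROOF. The submodule on the right is a two-sided ideal `J`, and the elements commuting with a given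
element modulo `J` form a subalgebra; so all letters commute modulo `J` with everything, and then
everything with everything (`FreeAlgebra.induction` twice). -/
theorem Com_eq (Γ : Type v) [CommRing Γ] (n : ℕ) : Com Γ n =
    Submodule.span Γ {z | ∃ (a b : FA Γ n) (i j : Fin n),
      z = a * (xx Γ i * xx Γ j - xx Γ j * xx Γ i) * b} := by
  set J : Submodule Γ (FA Γ n) := Submodule.span Γ {z | ∃ (a b : FA Γ n) (i j : Fin n),
      z = a * (xx Γ i * xx Γ j - xx Γ j * xx Γ i) * b} with hJ
  have hl : ∀ (a : FA Γ n) {z : FA Γ n}, z ∈ J → a * z ∈ J := by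
    intro a z hz
    refine Basic_span_left _ a ?_ hz
    rintro z ⟨a', b, i, j, rfl⟩
    exact ⟨a * a', b, i, j, by simp only [mul_assoc]⟩
  have hr : ∀ (a : FA Γ n) {z : FA Γ n}, z ∈ J → z * a ∈ J := by
    intro a z hz
    refine Basic_span_right _ a ?_ hz
    rintro z ⟨a', b, i, j, rfl⟩
    exact ⟨a', b * a, i, j, by simp only [mul_assoc]⟩
  have h1 : ∀ (j : Fin n) (p : FA Γ n), p * xx Γ j - xx Γ j * p ∈ J := by
    intro j p
    induction p using FreeAlgebra.induction with
    | grade0 r =>
      have e : algebraMap Γ (FA Γ n) r * xx Γ j - xx Γ j * algebraMap Γ (FA Γ n) r = 0 := by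
        rw [Algebra.commutes r (xx Γ j), sub_self]
      rw [e]
      exact zero_mem _
    | grade1 i =>
      exact Submodule.subset_span ⟨1, 1, i, j, by rw [one_mul, mul_one]; rfl⟩
    | mul p p' hp hp' =>
      have e : p * p' * xx Γ j - xx Γ j * (p * p') =
          p * (p' * xx Γ j - xx Γ j * p') + (p * xx Γ j - xx Γ j * p) * p' := by
        noncomm_ring
      rw [e]
      exact add_mem (hl p hp') (hr p' hp)
    | add p p' hp hp' =>
      have e : (p + p') * xx Γ j - xx Γ j * (p + p') =
          (p * xx Γ j - xx Γ j * p) + (p' * xx Γ j - xx Γ j * p') := by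
        noncomm_ring
      rw [e]
      exact add_mem hp hp'
  have h2 : ∀ p q : FA Γ n, p * q - q * p ∈ J := by
    intro p q
    induction q using FreeAlgebra.induction with
    | grade0 r =>
      have e : p * algebraMap Γ (FA Γ n) r - algebraMap Γ (FA Γ n) r * p = 0 := by
        rw [Algebra.commutes r p, sub_self]
      rw [e]
      exact zero_mem _
    | grade1 i => exact h1 i p
    | mul q q' hq hq' =>
      have e : p * (q * q') - q * q' * p = (p * q - q * p) * q' + q * (p * q' - q' * p) := by
        noncomm_ring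
      rw [e]
      exact add_mem (hr q' hq) (hl q hq')
    | add q q' hq hq' =>
      have e : p * (q + q') - (q + q') * p = (p * q - q * p) + (p * q' - q' * p) := by
        noncomm_ring
      rw [e]
      exact add_mem hq hq'
  apply le_antisymm
  · unfold Com
    rw [Submodule.span_le]
    rintro z ⟨a, b, p, q, rfl⟩
    exact hr b (hl a (h2 p q))
  · rw [hJ, Submodule.span_le]
    rintro z ⟨a, b, i, j, rfl⟩
    exact Submodule.subset_span ⟨a, b, xx Γ i, xx Γ j, rfl⟩

theorem Basic_Fil_zero (Γ : Type v) [CommRing Γ] (n : ℕ) : Fil Γ n 0 = ⊤ := by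
  unfold Fil
  rw [pow_zero, mul_one]

theorem Basic_Fil_succ (Γ : Type v) [CommRing Γ] (n k : ℕ) :
    Fil Γ n (k + 1) = Fil Γ n k * Com Γ n := by
  unfold Fil
  rw [pow_succ, mul_assoc]

theorem Fil_left (Γ : Type v) [CommRing Γ] {n : ℕ} (k : ℕ) (a : FA Γ n) {z : FA Γ n}
    (hz : z ∈ Fil Γ n k) : a * z ∈ Fil Γ n k := by
  unfold Fil at hz ⊢
  induction hz using Submodule.mul_induction_on' with
  | mem_mul_mem p hp q hq =>
    rw [← mul_assoc]
    exact Submodule.mul_mem_mul Submodule.mem_top hq
  | add x _ y _ hx hy => rw [mul_add]; exact add_mem hx hy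

theorem Fil_right (Γ : Type v) [CommRing Γ] {n : ℕ} (k : ℕ) (a : FA Γ n) {z : FA Γ n}
    (hz : z ∈ Fil Γ n k) : z * a ∈ Fil Γ n k := by
  rcases k with _ | k
  · rw [Basic_Fil_zero]
    exact Submodule.mem_top
  · rw [Basic_Fil_succ] at hz ⊢
    induction hz using Submodule.mul_induction_on' with
    | mem_mul_mem p hp q hq =>
      rw [mul_assoc]
      exact Submodule.mul_mem_mul hp (Com_right Γ a hq)
    | add x _ y _ hx hy => rw [add_mul]; exact add_mem hx hy

theorem Fil_zero (Γ : Type v) [CommRing Γ] (n : ℕ) : Fil Γ n 0 = ⊤ := Basic_Fil_zero Γ n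

theorem Fil_one (Γ : Type v) [CommRing Γ] (n : ℕ) : Fil Γ n 1 = Com Γ n := by
  unfold Fil
  rw [pow_one]
  apply le_antisymm
  · rw [Submodule.mul_le]
    intro a _ c hc
    exact Com_left Γ a hc
  · intro z hz
    rw [← one_mul z]
    exact Submodule.mul_mem_mul Submodule.mem_top hz

theorem Fil_succ (Γ : Type v) [CommRing Γ] (n k : ℕ) : Fil Γ n (k + 1) = Fil Γ n k * Com Γ n :=
  Basic_Fil_succ Γ n k

theorem Fil_antitone (Γ : Type v) [CommRing Γ] (n : ℕ) : Antitone (Fil Γ n) := by
  apply antitone_nat_of_succ_le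
  intro k
  rw [Basic_Fil_succ, Submodule.mul_le]
  intro a ha c _
  exact Fil_right Γ k c ha

end Pool.Agent.H.MP_f5ceca_al.N
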