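import Pool.Agent.H.MP_f5ceca_al.N.Vand

/-!
The Nagata-Higman theorem, in a relative form.
-/

namespace Pool.Agent.H.MP_f5ceca_al.N

theorem NagataHigman_lin {K R : Type*} [Field K] [Ring R] [Algebra K R] (x y : R) :
    ∀ n : ℕ, ∃ w : ℕ → R,
      (∀ b : K, (x + b • y) ^ n = ∑ s ∈ Finset.range (n + 1), b ^ s • w s) ∧ w 0 = x ^ n ∧
      w 1 = ∑ i ∈ Finset.range n, x ^ (n - 1 - i) * y * x ^ i ∧ ∀ s, n < s → w s = 0 := by
  intro n
  induction n with
  | zero =>
    refine ⟨fun s => if s = 0 then 1 else 0, ?_, by simp, by simp, ?_⟩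
    · intro b
      simp
    · intro s hs
      exact if_neg hs.ne'
  | succ n ih =>
    obtain ⟨w, h1, h2, h3, h4⟩ := ih
    refine ⟨fun s => w s * x + (if s = 0 then 0 else w (s - 1) * y), ?_, ?_, ?_, ?_⟩
    · intro b
      have e1 : ∑ s ∈ Finset.range (n + 1 + 1), b ^ s • (w s * x) =
          (∑ s ∈ Finset.range (n + 1), b ^ s • w s) * x := by
        rw [Finset.sum_range_succ, h4 (n + 1) (Nat.lt_succ_self n), zero_mul, smul_zero, add_zero,
          Finset.sum_mul]
        refine Finset.sum_congr rfl fun s _ => ?_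
        rw [smul_mul_assoc]
      have e2 : ∑ s ∈ Finset.range (n + 1 + 1), b ^ s • (if s = 0 then 0 else w (s - 1) * y) =
          (∑ s ∈ Finset.range (n + 1), b ^ s • w s) * (b • y) := by
        rw [Finset.sum_range_succ', if_pos rfl, smul_zero, add_zero, Finset.sum_mul]
        refine Finset.sum_congr rfl fun s _ => ?_
        rw [if_neg (Nat.succ_ne_zero s), Nat.add_sub_cancel, smul_mul_smul_comm, pow_succ]
      simp only [smul_add]
      rw [Finset.sum_add_distrib, e1, e2, ← h1, pow_succ, mul_add]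
    · simp only [if_pos, add_zero]
      rw [h2, pow_succ]
    · simp only [one_ne_zero, if_false, Nat.sub_self]
      rw [h3, h2, Finset.sum_range_succ', Finset.sum_mul]
      congr 1
      · refine Finset.sum_congr rfl fun i _ => ?_
        rw [mul_assoc, ← pow_succ, Nat.add_sub_cancel, Nat.sub_sub, add_comm 1 i]
      · simp
    · intro s hs
      have h5 : s ≠ 0 := by omega
      simp only [if_neg h5]
      rw [h4 s (by omega), h4 (s - 1) (by omega), zero_mul, zero_mul, add_zero]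

section

variable {K R : Type*} [Field K] [Ring R] [Algebra K R]

theorem NagataHigman_mulpow {I J : Submodule K R} (hJI : J * I ≤ J) {a y : R} (ha : a ∈ J)
    (hy : y ∈ I) (k : ℕ) : a * y ^ k ∈ J := by
  induction k with
  | zero => rwa [pow_zero, mul_one]
  | succ k ih =>
    rw [pow_succ, ← mul_assoc]
    exact hJI (Submodule.mul_mem_mul ih hy)

theorem NagataHigman_powmul {I J : Submodule K R} (hIJ : I * J ≤ J) {a y : R} (ha : a ∈ J)
    (hy : y ∈ I) (k : ℕ) : y ^ k * a ∈ J := by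
  induction k with
  | zero => rwa [pow_zero, one_mul]
  | succ k ih =>
    rw [pow_succ', mul_assoc]
    exact hIJ (Submodule.mul_mem_mul hy ih)

theorem NagataHigman_pow {I : Submodule K R} (hI : I * I ≤ I) {y : R} (hy : y ∈ I) {k : ℕ}
    (hk : k ≠ 0) : y ^ k ∈ I := by
  obtain ⟨k, rfl⟩ := Nat.exists_eq_succ_of_ne_zero hk
  rw [pow_succ]
  exact NagataHigman_powmul hI hy hy k

theorem NagataHigman_L [CharZero K] (m : ℕ) {I J : Submodule K R}
    (h : ∀ x ∈ I, x ^ (m + 2) ∈ J) {x y : R} (hx : x ∈ I) (hy : y ∈ I) :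
    ∑ i ∈ Finset.range (m + 2), x ^ (m + 1 - i) * y * x ^ i ∈ J := by
  obtain ⟨w, h1, -, h3, -⟩ := NagataHigman_lin (K := K) x y (m + 2)
  have h4 := vandermonde J (m + 2) w (fun b => by
    rw [← h1 b]
    exact h _ (I.add_mem hx (I.smul_mem b hy))) 1 (by omega)
  rw [h3] at h4
  exact h4

theorem NagataHigman_key [CharZero K] (m : ℕ) {I J : Submodule K R} (hI : I * I ≤ I)
    (hIJ : I * J ≤ J) (hJI : J * I ≤ J) (h : ∀ x ∈ I, x ^ (m + 2) ∈ J) {x y z : R} (hx : x ∈ I)
    (hy : y ∈ I) (hz : z ∈ I) : x ^ (m + 1) * z * y ^ (m + 1) ∈ J := by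
  have hL := @NagataHigman_L K R _ _ _ _ m I J h
  have e1 : ∑ j ∈ Finset.range (m + 2),
      (∑ i ∈ Finset.range (m + 2), x ^ (m + 1 - i) * (z * y ^ j) * x ^ i) * y ^ (m + 1 - j) ∈ J :=
    J.sum_mem fun j _ => NagataHigman_mulpow hJI
      (hL hx (NagataHigman_mulpow hI hz hy j)) hy _
  have e2 : ∑ j ∈ Finset.range (m + 2),
      (∑ i ∈ Finset.range (m + 2), x ^ (m + 1 - i) * (z * y ^ j) * x ^ i) * y ^ (m + 1 - j) =
      ∑ i ∈ Finset.range (m + 2), x ^ (m + 1 - i) * z *
        ∑ j ∈ Finset.range (m + 2), y ^ j * x ^ i * y ^ (m + 1 - j) := by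
    simp only [Finset.sum_mul, Finset.mul_sum]
    rw [Finset.sum_comm]
    refine Finset.sum_congr rfl fun i _ => Finset.sum_congr rfl fun j _ => ?_
    simp only [mul_assoc]
  have e3 : ∀ i, ∑ j ∈ Finset.range (m + 2), y ^ j * x ^ i * y ^ (m + 1 - j) =
      ∑ j ∈ Finset.range (m + 2), y ^ (m + 1 - j) * x ^ i * y ^ j := by
    intro i
    rw [← Finset.sum_range_reflect (fun j => y ^ (m + 1 - j) * x ^ i * y ^ j) (m + 2)]
    refine Finset.sum_congr rfl fun j hj => ?_
    have hj' := Finset.mem_range.1 hj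
    have h5 : m + 1 - (m + 1 - j) = j := by omega
    have h6 : m + 2 - 1 - j = m + 1 - j := by omega
    simp only [h6]
    rw [h5]
  rw [e2, Finset.sum_range_succ'] at e1
  have e4 : ∑ i ∈ Finset.range (m + 1), x ^ (m + 1 - (i + 1)) * z *
      ∑ j ∈ Finset.range (m + 2), y ^ j * x ^ (i + 1) * y ^ (m + 1 - j) ∈ J := by
    refine J.sum_mem fun i _ => ?_
    rw [e3, mul_assoc]
    refine NagataHigman_powmul hIJ ?_ hx _
    exact hIJ (Submodule.mul_mem_mul hz (hL hy (NagataHigman_pow hI hx (Nat.succ_ne_zero i))))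
  have e5 := (Submodule.add_mem_iff_right J e4).1 e1
  have e6 : ∑ j ∈ Finset.range (m + 2), y ^ j * x ^ 0 * y ^ (m + 1 - j) =
      ((m + 2 : ℕ) : K) • y ^ (m + 1) := by
    have h7 : ∀ j ∈ Finset.range (m + 2), y ^ j * x ^ 0 * y ^ (m + 1 - j) = y ^ (m + 1) := by
      intro j hj
      have hj' := Finset.mem_range.1 hj
      rw [pow_zero, mul_one, ← pow_add]
      congr 1
      omega
    rw [Finset.sum_congr rfl h7, Finset.sum_const, Finset.card_range, Nat.cast_smul_eq_nsmul]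
  rw [e6, mul_smul_comm, Nat.sub_zero] at e5
  refine (J.smul_mem_iff ?_).1 e5
  exact Nat.cast_ne_zero.2 (by omega)

theorem NagataHigman_aux [CharZero K] (I : Submodule K R) (hI : I * I ≤ I) (m : ℕ) :
    ∀ J : Submodule K R, J ≤ I → I * J ≤ J → J * I ≤ J → (∀ x ∈ I, x ^ (m + 1) ∈ J) →
      I ^ (2 ^ (m + 1) - 1) ≤ J := by
  induction m with
  | zero =>
    intro J _ _ _ h
    rw [show 2 ^ (0 + 1) - 1 = 1 by norm_num, pow_one]
    intro x hx
    have := h x hx
    rwa [zero_add, pow_one] at this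
  | succ m ih =>
    intro J hJ hIJ hJI h
    have key : ∀ x ∈ I, ∀ y ∈ I, ∀ z ∈ I, x ^ (m + 1) * z * y ^ (m + 1) ∈ J :=
      fun x hx y hy z hz => NagataHigman_key m hI hIJ hJI h hx hy hz
    let J₁ : Submodule K R :=
      { carrier := {v | v ∈ I ∧ ∀ z ∈ I, ∀ y ∈ I, v * z * y ^ (m + 1) ∈ J}
        add_mem' := by
          rintro a b ⟨ha, ha'⟩ ⟨hb, hb'⟩
          refine ⟨I.add_mem ha hb, fun z hz y hy => ?_⟩
          rw [add_mul, add_mul]
          exact J.add_mem (ha' z hz y hy) (hb' z hz y hy)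
        zero_mem' := by
          refine ⟨I.zero_mem, fun z _ y _ => ?_⟩
          rw [zero_mul, zero_mul]
          exact J.zero_mem
        smul_mem' := by
          rintro c a ⟨ha, ha'⟩
          refine ⟨I.smul_mem c ha, fun z hz y hy => ?_⟩
          rw [smul_mul_assoc, smul_mul_assoc]
          exact J.smul_mem c (ha' z hz y hy) }
    let J₂ : Submodule K R :=
      { carrier := {w | w ∈ I ∧ ∀ v ∈ J₁, ∀ z ∈ I, v * z * w ∈ J}
        add_mem' := by
          rintro a b ⟨ha, ha'⟩ ⟨hb, hb'⟩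
          refine ⟨I.add_mem ha hb, fun v hv z hz => ?_⟩
          rw [mul_add]
          exact J.add_mem (ha' v hv z hz) (hb' v hv z hz)
        zero_mem' := by
          refine ⟨I.zero_mem, fun v _ z _ => ?_⟩
          rw [mul_zero]
          exact J.zero_mem
        smul_mem' := by
          rintro c a ⟨ha, ha'⟩
          refine ⟨I.smul_mem c ha, fun v hv z hz => ?_⟩
          rw [mul_smul_comm]
          exact J.smul_mem c (ha' v hv z hz) }
    have h1 : I ^ (2 ^ (m + 1) - 1) ≤ J₁ := by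
      refine ih J₁ (fun v hv => hv.1) ?_ ?_ ?_
      · rw [Submodule.mul_le]
        rintro a ha v ⟨hv, hv'⟩
        refine ⟨hI (Submodule.mul_mem_mul ha hv), fun z hz y hy => ?_⟩
        rw [mul_assoc a, mul_assoc a]
        exact hIJ (Submodule.mul_mem_mul ha (hv' z hz y hy))
      · rw [Submodule.mul_le]
        rintro v ⟨hv, hv'⟩ a ha
        refine ⟨hI (Submodule.mul_mem_mul hv ha), fun z hz y hy => ?_⟩
        rw [mul_assoc v]
        exact hv' (a * z) (hI (Submodule.mul_mem_mul ha hz)) y hy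
      · intro x hx
        exact ⟨NagataHigman_pow hI hx (Nat.succ_ne_zero m), fun z hz y hy => key x hx y hy z hz⟩
    have h2 : I ^ (2 ^ (m + 1) - 1) ≤ J₂ := by
      refine ih J₂ (fun v hv => hv.1) ?_ ?_ ?_
      · rw [Submodule.mul_le]
        rintro a ha w ⟨hw, hw'⟩
        refine ⟨hI (Submodule.mul_mem_mul ha hw), fun v hv z hz => ?_⟩
        rw [← mul_assoc, mul_assoc v z a]
        exact hw' v hv (z * a) (hI (Submodule.mul_mem_mul hz ha))
      · rw [Submodule.mul_le]
        rintro w ⟨hw, hw'⟩ a ha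
        refine ⟨hI (Submodule.mul_mem_mul hw ha), fun v hv z hz => ?_⟩
        rw [← mul_assoc]
        exact hJI (Submodule.mul_mem_mul (hw' v hv z hz) ha)
      · intro x hx
        exact ⟨NagataHigman_pow hI hx (Nat.succ_ne_zero m), fun v hv z hz => hv.2 z hz x hx⟩
    have h3 : 2 ^ (m + 1 + 1) - 1 = (2 ^ (m + 1) - 1) + 1 + (2 ^ (m + 1) - 1) := by
      have : 0 < 2 ^ (m + 1) := by positivity
      rw [pow_succ 2 (m + 1)]
      omega
    rw [h3, pow_add, pow_add, pow_one]
    refine Submodule.mul_le.2 fun a ha w hw => ?_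
    have hw2 := h2 hw
    refine Submodule.mul_induction_on ha (fun v hv z hz => hw2.2 v (h1 hv) z hz) ?_
    intro a b ha' hb'
    rw [add_mul]
    exact J.add_mem ha' hb'

end

/-- NAGATA-HIGMAN (relative form). `I` is a subspace closed under multiplication, `J` an ideal of `I`
and `x ^ m ∈ J` for all `x ∈ I`. Then every product of `2 ^ m - 1` elements of `I` is in `J`.

PROOF (Higman). Induction on `m ≥ 1` (for all `J`). `m = 1` is clear. Step `m → m + 1`: let
`n = m + 1`. LINEARIZATION: `L(x,y) := ∑_{i<n} x^(n-1-i) * y * x^i ∈ J` for `x, y ∈ I`: the elements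
`(x + b • y)^n - x^n = ∑_{s≥1} b^s w_s` are in `J` for all `b : K` (`b = 1, 2, …` are enough, `K` has
characteristic `0`), so `w_1 = L(x,y) ∈ J` (Vandermonde; or: pass to linear forms on `R ⧸ J` as a
`K`-space and use that a polynomial over `K` with infinitely many zeros vanishes).
KEY: for `x, y, z ∈ I`: `∑_{j<n} L(x, z * y^j) * y^(n-1-j) =
∑_i x^(n-1-i) * z * (∑_j y^j * x^i * y^(n-1-j))`; the terms with `i ≥ 1` are `x^(n-1-i) * z * L(y, x^i)`,
in `J`; the term `i = 0` is `n • (x^(n-1) * z * y^(n-1))`. So `x^m * z * y^m ∈ J`.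
Put `J₁ = {v ∈ I | ∀ z ∈ I, ∀ y ∈ I, v * z * y^m ∈ J}` and `J₂ = {w ∈ I | ∀ v ∈ J₁, ∀ z ∈ I, v * z * w ∈ J}`.
Both are ideals of `I` (subspaces closed under multiplication by elements of `I` on both sides) which
contain `J` and all `x^m`, `x ∈ I`. By induction `I^(2^m-1) ≤ J₁` and `I^(2^m-1) ≤ J₂`, so
`I^(2^(m+1)-1) = I^(2^m-1) * I * I^(2^m-1) ≤ J₁ * I * J₂ ≤ J`. -/
theorem nagata_higman {K R : Type*} [Field K] [CharZero K] [Ring R] [Algebra K R]
    (m : ℕ) (hm : 0 < m) (I J : Submodule K R) (hI : I * I ≤ I) (hJ : J ≤ I) (hIJ : I * J ≤ J)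
    (hJI : J * I ≤ J) (h : ∀ x ∈ I, x ^ m ∈ J) : I ^ (2 ^ m - 1) ≤ J := by
  obtain ⟨m, rfl⟩ := Nat.exists_eq_succ_of_ne_zero hm.ne'
  exact NagataHigman_aux I hI m J hJ hIJ hJI h

end Pool.Agent.H.MP_f5ceca_al.N
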