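import Pool.Agent.H.MP_f5ceca_al.N.NilA
import Pool.Agent.H.MP_f5ceca_al.N.NagataHigman

/-!
The commutator ideal of a finitely generated relatively free algebra of a nonmatrix variety is
nilpotent.
-/

namespace Pool.Agent.H.MP_f5ceca_al.N

universe u

theorem nil_ml {K R : Type*} [Field K] [Ring R] [Algebra K R] {P Q N : Submodule K R}
    (h : P ≤ Q) : P * N ≤ Q * N :=
  Submodule.mul_le.2 fun _ ha _ hb => Submodule.mul_mem_mul (h ha) hb

theorem nil_mr {K R : Type*} [Field K] [Ring R] [Algebra K R] {P Q N : Submodule K R}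
    (h : P ≤ Q) : N * P ≤ N * Q :=
  Submodule.mul_le.2 fun _ ha _ hb => Submodule.mul_mem_mul ha (h hb)

theorem nil_pow {K R : Type*} [Field K] [Ring R] [Algebra K R] {P Q : Submodule K R}
    (h : P ≤ Q) (k : ℕ) : P ^ k ≤ Q ^ k := by
  induction k with
  | zero => rw [pow_zero, pow_zero]
  | succ k ih =>
    rw [pow_succ, pow_succ]
    exact (nil_ml ih).trans (nil_mr h)

theorem nil_sup_pow_le {K R : Type*} [Field K] [Ring R] [Algebra K R]
    (P Q : Submodule K R) (hl : ⊤ * P ≤ P) (hr : P * ⊤ ≤ P) (k : ℕ) :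
    (P ⊔ Q) ^ k ≤ P ⊔ Q ^ k := by
  induction k with
  | zero => rw [pow_zero, pow_zero]; exact le_sup_right
  | succ k ih =>
    rw [pow_succ, pow_succ]
    refine (nil_ml ih).trans ?_
    rw [Submodule.mul_sup, Submodule.sup_mul, Submodule.sup_mul]
    refine sup_le (sup_le ?_ ?_) (sup_le ?_ ?_)
    · exact ((nil_mr le_top).trans hr).trans le_sup_left
    · exact ((nil_ml le_top).trans hl).trans le_sup_left
    · exact ((nil_mr le_top).trans hr).trans le_sup_left
    · exact le_sup_right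

theorem nil_sup {K R : Type*} [Field K] [Ring R] [Algebra K R]
    (P Q T : Submodule K R) (hPl : ⊤ * P ≤ P) (hPr : P * ⊤ ≤ P) (hTl : ⊤ * T ≤ T)
    (hTr : T * ⊤ ≤ T) {a b : ℕ} (hP : P ^ a ≤ T) (hQ : Q ^ b ≤ T) : (P ⊔ Q) ^ (b * a) ≤ T := by
  have h1 : (P ⊔ Q) ^ b ≤ T ⊔ P := by
    refine (nil_sup_pow_le P Q hPl hPr b).trans ?_
    rw [sup_comm]
    exact sup_le_sup_right hQ P
  rw [pow_mul]
  refine (nil_pow h1 a).trans ?_
  exact (nil_sup_pow_le T P hTl hTr a).trans (sup_le le_rfl hP)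

theorem nil_add_pow {K : Type u} [Field K] (S : Set (FreeAlgebra K ℕ)) (n : ℕ) (x t : FA K n)
    (ht : t ∈ idn S n) (m : ℕ) : (x + t) ^ m - x ^ m ∈ idn S n := by
  induction m with
  | zero => simp
  | succ m ih =>
    have : (x + t) ^ (m + 1) - x ^ (m + 1) =
        ((x + t) ^ m - x ^ m) * (x + t) + x ^ m * t := by
      rw [pow_succ, pow_succ]; noncomm_ring
    rw [this]
    exact add_mem (idn_right S n _ ih) (idn_left S n _ ht)

/-- the ideal generated by one commutator of letters -/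
def nil_D (K : Type u) [Field K] (n : ℕ) (p : Fin n × Fin n) : Submodule K (FA K n) :=
  ⊤ * (Submodule.span K {xx K p.1 * xx K p.2 - xx K p.2 * xx K p.1} * ⊤)

theorem nil_top_mul_top (K : Type u) [Field K] (n : ℕ) :
    (⊤ : Submodule K (FA K n)) * ⊤ ≤ ⊤ := le_top

theorem nil_D_left (K : Type u) [Field K] (n : ℕ) (p : Fin n × Fin n) :
    ⊤ * nil_D K n p ≤ nil_D K n p := by
  unfold nil_D
  rw [← mul_assoc]
  exact nil_ml le_top

theorem nil_D_right (K : Type u) [Field K] (n : ℕ) (p : Fin n × Fin n) :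
    nil_D K n p * ⊤ ≤ nil_D K n p := by
  unfold nil_D
  rw [mul_assoc, mul_assoc]
  exact nil_mr (nil_mr le_top)

theorem nil_D_pow {K : Type u} [Field K] [CharZero K] (S : Set (FreeAlgebra K ℕ))
    (hS : ¬ Satisfies S (Matrix (Fin 2) (Fin 2) K)) (n : ℕ) (p : Fin n × Fin n) :
    ∃ M : ℕ, nil_D K n p ^ M ≤ idn S n := by
  obtain ⟨m0, hm0⟩ := exists_pow_mem S hS
  have hTl : (⊤ : Submodule K (FA K n)) * idn S n ≤ idn S n :=
    Submodule.mul_le.2 fun a _ b hb => idn_left S n a hb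
  have hTr : idn S n * (⊤ : Submodule K (FA K n)) ≤ idn S n :=
    Submodule.mul_le.2 fun a ha b _ => idn_right S n b ha
  obtain ⟨c, hc⟩ : ∃ c, c = xx K p.1 * xx K p.2 - xx K p.2 * xx K p.1 := ⟨_, rfl⟩
  have hcA : c ∈ Aug K n := by
    rw [hc]
    exact sub_mem (Aug_left _ (xx_mem_Aug K _)) (Aug_left _ (xx_mem_Aug K _))
  have key : ∀ b ∈ Aug K n, (c * b) ^ (m0 + 1) ∈ idn S n := by
    intro b hb
    have h1 := idn_subst S 3 n (idn_right S 3 ((xx K (0 : Fin 3) * xx K 1 - xx K 1 * xx K 0)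
      * xx K 2) hm0) ![xx K p.1, xx K p.2, b] (by
        intro i
        fin_cases i
        · exact xx_mem_Aug K _
        · exact xx_mem_Aug K _
        · exact hb)
    rw [← pow_succ, map_pow, map_mul, map_sub, map_mul, map_mul] at h1
    have h2 : ∀ j : Fin 3, FreeAlgebra.lift K ![xx K p.1, xx K p.2, b] (xx K j) =
        ![xx K p.1, xx K p.2, b] j := fun j => FreeAlgebra.lift_ι_apply _ _
    rw [h2, h2, h2] at h1
    rw [hc]
    exact h1
  -- the subspace `c * Aug + T`
  let I : Submodule K (FA K n) := (Submodule.span K {c} * Aug K n) ⊔ idn S n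
  have hmemI : ∀ x, x ∈ I ↔ ∃ b ∈ Aug K n, ∃ t ∈ idn S n, c * b + t = x := by
    intro x
    constructor
    · intro hx
      obtain ⟨y, hy, t, ht, rfl⟩ := Submodule.mem_sup.1 hx
      obtain ⟨b, hb, rfl⟩ := Submodule.mem_span_singleton_mul.1 hy
      exact ⟨b, hb, t, ht, rfl⟩
    · rintro ⟨b, hb, t, ht, rfl⟩
      exact Submodule.add_mem_sup (Submodule.mem_span_singleton_mul.2 ⟨b, hb, rfl⟩) ht
  have hI : I * I ≤ I := by
    refine Submodule.mul_le.2 fun x hx y hy => ?_
    obtain ⟨b, hb, t, ht, rfl⟩ := (hmemI x).1 hx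
    obtain ⟨b', hb', t', ht', rfl⟩ := (hmemI y).1 hy
    refine (hmemI _).2 ⟨b * (c * b'), Aug_left _ (Aug_left _ hb'),
      (c * b + t) * t' + t * (c * b'), add_mem (idn_left S n _ ht') (idn_right S n _ ht), ?_⟩
    noncomm_ring
  have hNH := nagata_higman (m0 + 1) (Nat.succ_pos _) I (idn S n) hI le_sup_right
    ((nil_ml le_top).trans hTl)
    ((nil_mr le_top).trans hTr) (by
      intro x hx
      obtain ⟨b, hb, t, ht, rfl⟩ := (hmemI x).1 hx
      have h1 := nil_add_pow S n (c * b) t ht (m0 + 1)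
      have h2 := add_mem h1 (key b hb)
      rwa [sub_add_cancel] at h2)
  obtain ⟨X, hX⟩ : ∃ X : Submodule K (FA K n), X = Submodule.span K {c} * ⊤ := ⟨_, rfl⟩
  have hD : nil_D K n p = ⊤ * X := by rw [hX, hc]; rfl
  have hXr : X * ⊤ ≤ X := by
    rw [hX, mul_assoc]
    exact nil_mr le_top
  have hXX : X * X ≤ I := by
    refine Submodule.mul_le.2 fun x hx y hy => ?_
    rw [hX] at hx hy
    obtain ⟨b, _, rfl⟩ := Submodule.mem_span_singleton_mul.1 hx
    obtain ⟨b', _, rfl⟩ := Submodule.mem_span_singleton_mul.1 hy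
    refine (hmemI _).2 ⟨b * (c * b'), Aug_left _ (Aug_right _ hcA), 0, zero_mem _, ?_⟩
    noncomm_ring
  have hpow : ∀ k : ℕ, nil_D K n p ^ k ≤ ⊤ * X ^ k := by
    intro k
    induction k with
    | zero =>
      rw [pow_zero, pow_zero, mul_one]; exact le_top
    | succ k ih =>
      rw [pow_succ']
      refine (nil_mr ih).trans ?_
      rw [hD, pow_succ', mul_assoc ⊤ X, ← mul_assoc X ⊤, ← mul_assoc]
      rw [mul_assoc]
      exact nil_mr (nil_ml hXr)
  refine ⟨2 * (2 ^ (m0 + 1) - 1), ?_⟩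
  refine (hpow _).trans ?_
  rw [pow_mul, pow_two]
  refine (nil_mr (nil_pow hXX _)).trans ?_
  exact (nil_mr hNH).trans hTl

theorem nil_fin {K : Type u} [Field K] [CharZero K] (S : Set (FreeAlgebra K ℕ))
    (hS : ¬ Satisfies S (Matrix (Fin 2) (Fin 2) K)) (n : ℕ) (s : Finset (Fin n × Fin n)) :
    ∃ M : ℕ, (s.sup (nil_D K n)) ^ M ≤ idn S n := by
  classical
  induction s using Finset.induction_on with
  | empty =>
    refine ⟨1, ?_⟩
    rw [Finset.sup_empty, pow_one]
    exact bot_le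
  | insert p s _ ih =>
    obtain ⟨b, hb⟩ := ih
    obtain ⟨a, ha⟩ := nil_D_pow S hS n p
    refine ⟨b * a, ?_⟩
    rw [Finset.sup_insert]
    exact nil_sup _ _ _ (nil_D_left K n p) (nil_D_right K n p)
      (Submodule.mul_le.2 fun a _ b hb => idn_left S n a hb)
      (Submodule.mul_le.2 fun a ha b _ => idn_right S n b ha) ha hb

/-- Nilpotency of the commutator ideal.

PROOF. Let `m > 0` be as in `exists_pow_mem` (increase `m` if necessary), `T = idn S n`. Fix letters `i, j` and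
`c = [x_i, x_j]`. `I = c * Aug + T` (subspaces) is closed under multiplication (`c` is in `Aug`),
`T` is an ideal of `I`, and `(c b + t)^m ∈ T` by `idn_subst`. By `nagata_higman` with `J = T ⊓ I = T`:
`I^N ≤ T`, `N = 2^m - 1`. Let `R c R` be the ideal generated by `c`; a product of `2N + 1` elements
`r_i c r_i'` is in `T`: group the factors in pairs, `c r (c s) = c b`, `b ∈ Aug`. So `(RcR)^(2N+1) ≤ T`.
`Com` is the sum of the finitely many ideals `R [x_i,x_j] R` (`Com_eq`); a sum of two ideals whose powers are in `T`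
again has a power in `T`: `(I₁ + I₂)^b ≤ I₁ + I₂^b`. Induction over the finite set of pairs. -/
theorem exists_fil_le {K : Type u} [Field K] [CharZero K] (S : Set (FreeAlgebra K ℕ))
    (hS : ¬ Satisfies S (Matrix (Fin 2) (Fin 2) K)) (n : ℕ) : ∃ m : ℕ, Fil K n m ≤ idn S n := by
  obtain ⟨M, hM⟩ := nil_fin S hS n Finset.univ
  refine ⟨M, ?_⟩
  have hC : Com K n ≤ Finset.univ.sup (nil_D K n) := by
    rw [Com_eq, Submodule.span_le]
    rintro z ⟨a, b, i, j, rfl⟩
    refine Finset.le_sup (f := nil_D K n) (Finset.mem_univ (i, j)) ?_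
    unfold nil_D
    rw [mul_assoc]
    exact Submodule.mul_mem_mul trivial
      (Submodule.mul_mem_mul (Submodule.mem_span_singleton_self _) trivial)
  unfold Fil
  refine (nil_mr ((nil_pow hC M).trans hM)).trans ?_
  exact Submodule.mul_le.2 fun a _ b hb => idn_left S n a hb

end Pool.Agent.H.MP_f5ceca_al.N
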