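import Pool.Agent.H.MP_f5ceca_al.N.Defs

/-!
Extraction of coefficients over an infinite field.
-/

namespace Pool.Agent.H.MP_f5ceca_al.N

universe u v

/-- Vandermonde: if `∑_{s ≤ d} b^s • w s ∈ W` for all `b` in an infinite field `K`, then all `w s ∈ W`. -/
theorem vandermonde {K V : Type*} [Field K] [Infinite K] [AddCommGroup V] [Module K V]
    (W : Submodule K V) (d : ℕ) (w : ℕ → V)
    (h : ∀ b : K, ∑ s ∈ Finset.range (d + 1), b ^ s • w s ∈ W) : ∀ s ≤ d, w s ∈ W := by
  intro s hs
  rw [← Submodule.Quotient.mk_eq_zero, ← Module.forall_dual_apply_eq_zero_iff K]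
  intro φ
  have hP : (∑ t ∈ Finset.range (d + 1),
      Polynomial.C (φ (Submodule.Quotient.mk (w t))) * Polynomial.X ^ t : Polynomial K) = 0 := by
    refine Polynomial.funext fun b => ?_
    have h1 : φ (W.mkQ (∑ s ∈ Finset.range (d + 1), b ^ s • w s)) = 0 := by
      rw [Submodule.mkQ_apply, (Submodule.Quotient.mk_eq_zero W).2 (h b), map_zero]
    rw [map_sum, map_sum] at h1
    rw [Polynomial.eval_finsetSum, Polynomial.eval_zero, ← h1]
    refine Finset.sum_congr rfl fun t _ => ?_
    rw [Polynomial.eval_mul, Polynomial.eval_C, Polynomial.eval_pow, Polynomial.eval_X, map_smul,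
      map_smul, smul_eq_mul, mul_comm]
    rfl
  have hc := congrArg (fun P => Polynomial.coeff P s) hP
  simp only [Polynomial.finsetSum_coeff, Polynomial.coeff_C_mul, Polynomial.coeff_X_pow,
    Polynomial.coeff_zero] at hc
  rw [Finset.sum_eq_single s] at hc
  · rwa [if_pos rfl, mul_one] at hc
  · intro t _ hts
    rw [if_neg (Ne.symm hts), mul_zero]
  · intro hn
    exact absurd (Finset.mem_range.2 (Nat.lt_succ_of_le hs)) hn

end Pool.Agent.H.MP_f5ceca_al.N
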