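import Pool.Agent.H.MP_f5ceca_al.N.Tri

/-!
The module of symbols.
-/

namespace Pool.Agent.H.MP_f5ceca_al.N

universe u v

variable (Γ : Type v) [CommRing Γ] (n : ℕ)

/-- the module of symbols: `RX`-span of the products `ξ(0,w_0) ξ(1,w_1) … ξ(k-1,w_{k-1})` -/
noncomputable def Omega (k : ℕ) : Submodule (RX Γ n k) (RZ Γ n k) :=
  Submodule.span (RX Γ n k)
    (Set.range fun w : Fin k → Fin n => ∏ a : Fin k, (MvPolynomial.X (a, w a) : RZ Γ n k))

theorem Omega_fg (k : ℕ) : (Omega Γ n k).FG :=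
  Submodule.fg_span (Set.finite_range _)

/-- The part of `RZ` where the entry `(a,b)` of `tau z` lives: the `RX`-span of the products
`∏_{a ≤ c < b} ξ(c,w_c)`. -/
noncomputable def OmAB (k : ℕ) (a b : ℕ) : Submodule (RX Γ n k) (RZ Γ n k) :=
  Submodule.span (RX Γ n k)
    {x | ∃ w : (c : Fin k) → (a ≤ (c : ℕ) ∧ (c : ℕ) < b) → Fin n, x = ∏ c : Fin k,
      (if h : a ≤ (c : ℕ) ∧ (c : ℕ) < b then (MvPolynomial.X (c, w c h) : RZ Γ n k) else 1)}

theorem OmAB_zero_last (k : ℕ) : OmAB Γ n k 0 k = Omega Γ n k := by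
  unfold OmAB Omega
  congr 1
  ext x
  constructor
  · rintro ⟨w, rfl⟩
    refine ⟨fun c => w c ⟨Nat.zero_le _, c.2⟩, ?_⟩
    refine Finset.prod_congr rfl fun c _ => ?_
    rw [dif_pos (⟨Nat.zero_le _, c.2⟩ : 0 ≤ (c : ℕ) ∧ (c : ℕ) < k)]
  · rintro ⟨w, rfl⟩
    refine ⟨fun c _ => w c, ?_⟩
    refine Finset.prod_congr rfl fun c _ => ?_
    rw [dif_pos (⟨Nat.zero_le _, c.2⟩ : 0 ≤ (c : ℕ) ∧ (c : ℕ) < k)]

theorem OmAB_mul (k : ℕ) {a b c : ℕ} (hab : a ≤ b) (hbc : b ≤ c) {x y : RZ Γ n k}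
    (hx : x ∈ OmAB Γ n k a b) (hy : y ∈ OmAB Γ n k b c) : x * y ∈ OmAB Γ n k a c := by
  have h1 := Submodule.mul_mem_mul hx hy
  unfold OmAB at h1
  rw [Submodule.span_mul_span] at h1
  refine Submodule.span_mono ?_ h1
  rintro _ ⟨_, ⟨w, rfl⟩, _, ⟨w', rfl⟩, rfl⟩
  refine ⟨fun d hd => if h : (d : ℕ) < b then w d ⟨hd.1, h⟩ else w' d ⟨not_lt.1 h, hd.2⟩, ?_⟩
  show (∏ d : Fin k, _) * (∏ d : Fin k, _) = _
  rw [← Finset.prod_mul_distrib]
  refine Finset.prod_congr rfl fun d _ => ?_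
  by_cases h2 : (d : ℕ) < b
  · rw [dif_neg (show ¬ (b ≤ (d : ℕ) ∧ (d : ℕ) < c) by omega), mul_one]
    by_cases h3 : a ≤ (d : ℕ)
    · rw [dif_pos (show a ≤ (d : ℕ) ∧ (d : ℕ) < b from ⟨h3, h2⟩),
        dif_pos (show a ≤ (d : ℕ) ∧ (d : ℕ) < c from ⟨h3, by omega⟩)]
      beta_reduce
      rw [dif_pos h2]
    · rw [dif_neg (fun h => h3 h.1), dif_neg (fun h => h3 h.1)]
  · rw [dif_neg (show ¬ (a ≤ (d : ℕ) ∧ (d : ℕ) < b) by omega), one_mul]
    by_cases h3 : (d : ℕ) < c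
    · rw [dif_pos (show b ≤ (d : ℕ) ∧ (d : ℕ) < c from ⟨by omega, h3⟩),
        dif_pos (show a ≤ (d : ℕ) ∧ (d : ℕ) < c from ⟨by omega, h3⟩)]
      beta_reduce
      rw [dif_neg h2]
    · rw [dif_neg (fun h => h3 h.2), dif_neg (fun h => h3 h.2)]

theorem one_mem_OmAB (k a : ℕ) : (1 : RZ Γ n k) ∈ OmAB Γ n k a a := by
  refine Submodule.subset_span ⟨fun c h => absurd h (by omega), ?_⟩
  exact (Finset.prod_eq_one fun c _ => dif_neg (by omega)).symm

theorem C_mem_OmAB (k a : ℕ) (r : RX Γ n k) :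
    (MvPolynomial.C r : RZ Γ n k) ∈ OmAB Γ n k a a := by
  have h1 := Submodule.smul_mem _ r (one_mem_OmAB Γ n k a)
  rwa [MvPolynomial.smul_eq_C_mul, mul_one] at h1

/-- PROOF. `FreeAlgebra.induction`, upper triangularity and `OmAB_mul`. -/
theorem tau_mem_OmAB (k : ℕ) (z : FA Γ n) (a b : Fin (k + 1)) (hab : a ≤ b) :
    tau Γ n k z a b ∈ OmAB Γ n k a b := by
  have hz0 : ∀ z : FA Γ n, z ∈ Fil Γ n 0 := by
    intro z
    unfold Fil
    rw [pow_zero, mul_one]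
    trivial
  have htri : ∀ (z : FA Γ n) (a b : Fin (k + 1)), b < a → tau Γ n k z a b = 0 := by
    intro z a b h
    exact tau_apply_eq_zero Γ n k 0 (hz0 z) a b (by rw [add_zero]; exact h)
  revert a b
  refine FreeAlgebra.induction Γ (Fin n) (motive := fun z => ∀ a b : Fin (k + 1), a ≤ b →
    tau Γ n k z a b ∈ OmAB Γ n k a b) ?_ ?_ ?_ ?_ z
  · intro r a b hab
    rw [AlgHom.commutes, Matrix.algebraMap_matrix_apply]
    split_ifs with h
    · subst h
      have h1 : algebraMap Γ (RZ Γ n k) r = MvPolynomial.C (algebraMap Γ (RX Γ n k) r) := by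
        rw [IsScalarTower.algebraMap_apply Γ (RX Γ n k) (RZ Γ n k)]
        rfl
      rw [h1]
      exact C_mem_OmAB Γ n k a _
    · exact Submodule.zero_mem _
  · intro j a b hab
    have h1 : tau Γ n k (FreeAlgebra.ι Γ j) = gen Γ n k j := by
      unfold tau
      rw [FreeAlgebra.lift_ι_apply]
    rw [h1]
    unfold gen
    split_ifs with h2 h3
    · subst h2
      exact C_mem_OmAB Γ n k a _
    · refine Submodule.subset_span ⟨fun _ _ => j, ?_⟩
      have ha : (a : ℕ) < k := by have := b.2; omega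
      rw [Finset.prod_eq_single ⟨a, ha⟩]
      · rw [dif_pos (show (a : ℕ) ≤ ((⟨a, ha⟩ : Fin k) : ℕ) ∧ ((⟨a, ha⟩ : Fin k) : ℕ) < (b : ℕ) from
          ⟨le_refl _, by show (a : ℕ) < b; omega⟩)]
      · intro c _ hc
        refine dif_neg ?_
        rintro ⟨h4, h5⟩
        apply hc
        apply Fin.ext
        show (c : ℕ) = a
        omega
      · intro h
        exact absurd (Finset.mem_univ _) h
    · exact Submodule.zero_mem _
  · intro x y hx hy a b hab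
    rw [map_mul, Matrix.mul_apply]
    refine Submodule.sum_mem _ fun c _ => ?_
    by_cases h1 : c < a
    · rw [htri x a c h1, zero_mul]
      exact Submodule.zero_mem _
    · by_cases h2 : b < c
      · rw [htri y c b h2, mul_zero]
        exact Submodule.zero_mem _
      · exact OmAB_mul Γ n k (not_lt.1 h1) (not_lt.1 h2) (hx a c (not_lt.1 h1))
          (hy c b (not_lt.1 h2))
  · intro x y hx hy a b hab
    rw [map_add, Matrix.add_apply]
    exact Submodule.add_mem _ (hx a b hab) (hy a b hab)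

theorem sym_mem_Omega (k : ℕ) (z : FA Γ n) : sym Γ n k z ∈ Omega Γ n k := by
  have h1 := tau_mem_OmAB Γ n k z 0 (Fin.last k) (Fin.zero_le _)
  rw [← OmAB_zero_last]
  exact h1

end Pool.Agent.H.MP_f5ceca_al.N
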