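import Pool.Agent.H.MP_f5ceca_al.N.GenFD

/-!
The final form of the commutative algebra lemma.
-/

namespace Pool.Agent.H.MP_f5ceca_al.N

universe u

open scoped TensorProduct

/-- The final form: `H = (C ⊗ E) ⧸ I`, and `H ⊗[C] M = M_B / I M_B`. -/
theorem generic_fd {K : Type u} [Field K] {C : Type u} [CommRing C] [Algebra K C]
    [Algebra.FiniteType K C] (M : Type u) [AddCommGroup M] [Module C M] [Module.Finite C M] :
    ∃ (H : Type u) (_ : CommRing H) (_ : Algebra (GE K) H) (_ : Algebra C H),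
      Module.Finite (GE K) H ∧
      (∀ c : K, algebraMap C H (algebraMap K C c) = algebraMap (GE K) H (algebraMap K (GE K) c)) ∧
      Function.Injective (fun m : M => (1 : H) ⊗ₜ[C] m) := by
  classical
  obtain ⟨I, ⟨s, hs⟩, hI⟩ := hasFD (K := K) (C := C) M
  let iE : GE K →+* (C ⊗[K] GE K) ⧸ I := (Ideal.Quotient.mk I).comp
    (Algebra.TensorProduct.includeRight : GE K →ₐ[K] C ⊗[K] GE K).toRingHom
  letI algE : Algebra (GE K) ((C ⊗[K] GE K) ⧸ I) := iE.toAlgebra
  refine ⟨(C ⊗[K] GE K) ⧸ I, inferInstance, algE, inferInstance, ?_, ?_, ?_⟩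
  · refine ⟨⟨s.image (Ideal.Quotient.mk I), ?_⟩⟩
    rw [eq_top_iff]
    rintro x -
    obtain ⟨x, rfl⟩ := Ideal.Quotient.mk_surjective x
    obtain ⟨y, hy, g, hx⟩ := hs x
    rw [hx, map_add, Ideal.Quotient.eq_zero_iff_mem.2 hy, zero_add, map_sum]
    refine Submodule.sum_mem _ fun t ht => ?_
    have h1 : Ideal.Quotient.mk I (t * ((1 : C) ⊗ₜ[K] g t)) = g t • Ideal.Quotient.mk I t := by
      rw [map_mul, mul_comm]
      rfl
    rw [h1]
    exact Submodule.smul_mem _ _ (Submodule.subset_span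
      (Finset.mem_coe.2 (Finset.mem_image_of_mem _ ht)))
  · intro c
    show Ideal.Quotient.mk I (algebraMap K C c ⊗ₜ[K] (1 : GE K)) =
      Ideal.Quotient.mk I ((1 : C) ⊗ₜ[K] algebraMap K (GE K) c)
    congr 1
    rw [Algebra.algebraMap_eq_smul_one, Algebra.algebraMap_eq_smul_one, TensorProduct.smul_tmul]
  · intro m m' hm
    have h0 : (1 : (C ⊗[K] GE K) ⧸ I) ⊗ₜ[C] (m - m') = 0 := by
      rw [TensorProduct.tmul_sub, sub_eq_zero]
      exact hm
    let g : (C ⊗[K] GE K) →ₗ[C] (C ⊗[K] GE K) ⧸ I := (Ideal.Quotient.mkₐ C I).toLinearMap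
    have hg : Function.Surjective g := Ideal.Quotient.mk_surjective
    have hex : Function.Exact (I.restrictScalars C).subtype g := by
      intro x
      rw [show g x = Ideal.Quotient.mk I x from rfl, Ideal.Quotient.eq_zero_iff_mem]
      constructor
      · intro hx
        exact ⟨⟨x, hx⟩, rfl⟩
      · rintro ⟨y, rfl⟩
        exact y.2
    have h1 := (rTensor_exact M hex hg ((1 : C ⊗[K] GE K) ⊗ₜ[C] (m - m'))).1 (by
      rw [LinearMap.rTensor_tmul]
      exact h0)
    obtain ⟨w, hw⟩ := h1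
    have h2 : (1 : C ⊗[K] GE K) ⊗ₜ[C] (m - m') ∈
        I • (⊤ : Submodule (C ⊗[K] GE K) ((C ⊗[K] GE K) ⊗[C] M)) := by
      rw [← hw]
      clear hw
      induction w using TensorProduct.induction_on with
      | zero =>
        rw [map_zero]
        exact Submodule.zero_mem _
      | tmul x y =>
        rw [LinearMap.rTensor_tmul]
        have h3 : ((I.restrictScalars C).subtype x) ⊗ₜ[C] y =
            (x : C ⊗[K] GE K) • ((1 : C ⊗[K] GE K) ⊗ₜ[C] y) := by
          rw [TensorProduct.smul_tmul', smul_eq_mul, mul_one]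
          rfl
        rw [h3]
        exact Submodule.smul_mem_smul x.2 trivial
      | add x y hx hy =>
        rw [map_add]
        exact Submodule.add_mem _ hx hy
    exact sub_eq_zero.1 (hI _ h2)

end Pool.Agent.H.MP_f5ceca_al.N
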