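import Pool.Agent.H.MP_f5ceca_al.N.Quot
import Pool.Agent.H.MP_f5ceca_al.N.Generic
import Pool.Agent.H.MP_f5ceca_al.N.Nil

/-!
NMREP: the finitely generated relatively free algebras of a nonmatrix variety are representable.
-/

namespace Pool.Agent.H.MP_f5ceca_al.N

universe u

open scoped TensorProduct

theorem Final_ext_mul {K Q Γ : Type*} [Field K] [Ring Q] [Algebra K Q] [CommRing Γ] [Algebra K Γ]
    {U : Submodule K Q} (γ : Γ) {u : Q ⊗[K] Γ} (hu : u ∈ extS Γ U) :
    ((1 : Q) ⊗ₜ[K] γ) * u ∈ extS Γ U := by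
  unfold extS at hu ⊢
  induction hu using Submodule.span_induction with
  | mem x hx =>
    obtain ⟨y, hy, δ, rfl⟩ := hx
    rw [Algebra.TensorProduct.tmul_mul_tmul, one_mul]
    exact Submodule.subset_span ⟨y, hy, γ * δ, rfl⟩
  | zero =>
    rw [mul_zero]
    exact Submodule.zero_mem _
  | add x y _ _ hx hy =>
    rw [mul_add]
    exact Submodule.add_mem _ hx hy
  | smul c x _ hx =>
    rw [mul_smul_comm]
    exact Submodule.smul_mem _ c hx

/-- identities in the image of `F ⊗ H` -/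
theorem Final_ident {K F H Q : Type*} [Field K] [Infinite K] [Ring F] [Algebra K F] [CommRing H]
    [Algebra K H] [Ring Q] [Algebra K Q] (Φ : F ⊗[K] H →ₐ[K] Q) {X : Type*} (f : FreeAlgebra K X)
    (U T : Submodule K F) (h : ∀ u : X → F, (∀ i, u i ∈ U) → FreeAlgebra.lift K u f ∈ T)
    (hΦ : ∀ z ∈ T, Φ (z ⊗ₜ[K] (1 : H)) = 0) (w : X → Q)
    (hw : ∀ i, ∃ u ∈ extS H U, Φ u = w i) : FreeAlgebra.lift K w f = 0 := by
  choose u hu huw using hw
  have h1 := scalar_ext (Γ := H) f (fun _ => (0 : F)) (fun _ => U) T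
    (fun u hu => by simpa using h u hu) u hu
  have h2 : (fun i => (0 : F) ⊗ₜ[K] (1 : H) + u i) = u := by
    funext i
    rw [TensorProduct.zero_tmul, zero_add]
  rw [h2] at h1
  have h3 : FreeAlgebra.lift K w f = Φ (FreeAlgebra.lift K u f) := by
    have h5 : Φ.comp (FreeAlgebra.lift K u) = FreeAlgebra.lift K w := by
      apply FreeAlgebra.hom_ext
      funext i
      simp only [Function.comp_apply, AlgHom.comp_apply, FreeAlgebra.lift_ι_apply]
      exact huw i
    rw [← h5]
    rfl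
  rw [h3]
  generalize FreeAlgebra.lift K u f = g at h1
  unfold extS at h1
  induction h1 using Submodule.span_induction with
  | mem x hx =>
    obtain ⟨y, hy, δ, rfl⟩ := hx
    have h6 : y ⊗ₜ[K] δ = (y ⊗ₜ[K] (1 : H)) * ((1 : F) ⊗ₜ[K] δ) := by
      rw [Algebra.TensorProduct.tmul_mul_tmul, mul_one, one_mul]
    rw [h6, map_mul, hΦ y hy, zero_mul]
  | zero => rw [map_zero]
  | add x y _ _ hx hy => rw [map_add, hx, hy, add_zero]
  | smul c x _ hx => rw [map_smul, hx, smul_zero]

theorem Final_core {K E Γ H A : Type u} [Field K] [Infinite K] [Field E] [Algebra K E]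
    [CommRing Γ] [Algebra K Γ] [CommRing H] [Algebra E H] [Algebra Γ H] [Module.Finite E H]
    (hc : ∀ c : K, algebraMap Γ H (algebraMap K Γ c) = algebraMap E H (algebraMap K E c))
    [Ring A] [Algebra Γ A] [Module.Finite Γ A]
    (hinj : Function.Injective (fun m : A => (1 : H) ⊗ₜ[Γ] m))
    (S : Set (FreeAlgebra K ℕ)) (n : ℕ) (T : Submodule K (FA K n))
    (hTS : ∀ f ∈ S, ∀ g : ℕ → FA K n, (∀ i, g i ∈ Aug K n) → FreeAlgebra.lift K g f ∈ T)
    (π : FA Γ n →ₐ[Γ] A) (hπ1 : ∀ z ∈ T, π (mapF Γ n z) = 0)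
    (hπ2 : ∀ z : FA K n, π (mapF Γ n z) = 0 → z ∈ T) :
    ∃ (Q : Type u) (_ : Ring Q) (_ : Algebra E Q) (_ : Algebra K Q)
      (_ : IsScalarTower K E Q) (_ : Module.Finite E Q) (B : Submodule E Q)
      (v : Fin n → Q), (∀ j, v j ∈ B) ∧ (∀ a ∈ B, ∀ b ∈ B, a * b ∈ B) ∧
      (∀ f ∈ S, ∀ w : ℕ → Q, (∀ i, w i ∈ B) → FreeAlgebra.lift K w f = 0) ∧
      (∀ z : FA K n, FreeAlgebra.lift K v z = 0 ↔ z ∈ T) := by
  let algKH : Algebra K H := ((algebraMap E H).comp (algebraMap K E)).toAlgebra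
  have towKEH : IsScalarTower K E H := IsScalarTower.of_algebraMap_eq fun _ => rfl
  have commE : SMulCommClass Γ E H := ⟨fun r s a => by
    rw [Algebra.smul_def, Algebra.smul_def, Algebra.smul_def, Algebra.smul_def, mul_left_comm]⟩
  have commK : SMulCommClass Γ K H := ⟨fun r s a => by
    rw [Algebra.smul_def, Algebra.smul_def, Algebra.smul_def, Algebra.smul_def, mul_left_comm]⟩
  have commH : SMulCommClass Γ H H := inferInstance
  have finE : Module.Finite E (H ⊗[Γ] A) := by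
    have : IsScalarTower E H (H ⊗[Γ] A) := inferInstance
    exact Module.Finite.trans H (H ⊗[Γ] A)
  -- the structure maps
  obtain ⟨j, hj⟩ : ∃ j : H →ₐ[K] H ⊗[Γ] A, ∀ h, j h = h ⊗ₜ[Γ] (1 : A) :=
    ⟨{ toFun := fun h => h ⊗ₜ[Γ] (1 : A)
       map_one' := rfl
       map_mul' := fun a b => by rw [Algebra.TensorProduct.tmul_mul_tmul, mul_one]
       map_zero' := TensorProduct.zero_tmul _ _
       map_add' := fun a b => TensorProduct.add_tmul _ _ _
       commutes' := fun c => rfl }, fun _ => rfl⟩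
  have hjc : ∀ h q, j h * q = q * j h := by
    intro h q
    rw [hj]
    induction q using TensorProduct.induction_on with
    | zero => rw [mul_zero, zero_mul]
    | tmul x y =>
      rw [Algebra.TensorProduct.tmul_mul_tmul, Algebra.TensorProduct.tmul_mul_tmul, one_mul,
        mul_one, mul_comm]
    | add x y hx hy => rw [mul_add, add_mul, hx, hy]
  obtain ⟨v, hv⟩ : ∃ v : Fin n → H ⊗[Γ] A, v = fun i => (1 : H) ⊗ₜ[Γ] π (xx Γ i) := ⟨_, rfl⟩
  have hφ : ∀ z : FA K n, FreeAlgebra.lift K v z = (1 : H) ⊗ₜ[Γ] π (mapF Γ n z) := by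
    intro z
    induction z using FreeAlgebra.induction with
    | grade0 r =>
      rw [AlgHom.commutes, AlgHom.commutes]
      have h1 : (algebraMap K (FA Γ n) r) = algebraMap Γ (FA Γ n) (algebraMap K Γ r) := rfl
      rw [h1, AlgHom.commutes, Algebra.algebraMap_eq_smul_one (algebraMap K Γ r),
        ← TensorProduct.smul_tmul, ← Algebra.algebraMap_eq_smul_one, hc]
      rfl
    | grade1 i =>
      rw [FreeAlgebra.lift_ι_apply, hv]
      unfold mapF
      rw [FreeAlgebra.lift_ι_apply]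
    | mul a b ha hb =>
      rw [map_mul, map_mul, map_mul, ha, hb, Algebra.TensorProduct.tmul_mul_tmul, one_mul]
    | add a b ha hb => rw [map_add, map_add, map_add, ha, hb, TensorProduct.tmul_add]
  have hkey : ∀ z : FA K n, FreeAlgebra.lift K v z = 0 ↔ z ∈ T := by
    intro z
    rw [hφ]
    constructor
    · intro h
      apply hπ2
      apply hinj
      show (1 : H) ⊗ₜ[Γ] π (mapF Γ n z) = (1 : H) ⊗ₜ[Γ] (0 : A)
      rw [h, TensorProduct.tmul_zero]
    · intro h
      rw [hπ1 z h, TensorProduct.tmul_zero]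
  obtain ⟨Φ, hΦ⟩ : ∃ Φ : FA K n ⊗[K] H →ₐ[K] H ⊗[Γ] A, ∀ z h,
      Φ (z ⊗ₜ[K] h) = FreeAlgebra.lift K v z * j h :=
    ⟨Algebra.TensorProduct.lift (FreeAlgebra.lift K v) j fun z h => (hjc h _).symm,
      fun z h => Algebra.TensorProduct.lift_tmul _ _ _ _ _⟩
  have hEj : ∀ e : E, algebraMap E (H ⊗[Γ] A) e = j (algebraMap E H e) := by
    intro e
    rw [hj]
    rfl
  refine ⟨H ⊗[Γ] A, inferInstance, inferInstance, inferInstance, inferInstance, finE,
    Submodule.span E {q | ∃ h : H, ∃ z ∈ Aug K n, q = j h * FreeAlgebra.lift K v z}, v,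
    ?_, ?_, ?_, hkey⟩
  · intro i
    refine Submodule.subset_span ⟨1, xx K i, xx_mem_Aug K i, ?_⟩
    rw [map_one, one_mul]
    exact (FreeAlgebra.lift_ι_apply v i).symm
  · intro a ha b hb
    induction ha using Submodule.span_induction with
    | mem x hx =>
      obtain ⟨h, z, hz, rfl⟩ := hx
      induction hb using Submodule.span_induction with
      | mem x hx =>
        obtain ⟨h', z', hz', rfl⟩ := hx
        refine Submodule.subset_span ⟨h * h', z * z', Aug_left z hz', ?_⟩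
        rw [map_mul, map_mul, mul_assoc, ← mul_assoc (FreeAlgebra.lift K v z), ← hjc h']
        simp only [mul_assoc]
      | zero =>
        rw [mul_zero]
        exact Submodule.zero_mem _
      | add x y _ _ hx hy =>
        rw [mul_add]
        exact Submodule.add_mem _ hx hy
      | smul c x _ hx =>
        rw [mul_smul_comm]
        exact Submodule.smul_mem _ c hx
    | zero =>
      rw [zero_mul]
      exact Submodule.zero_mem _
    | add x y _ _ hx hy =>
      rw [add_mul]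
      exact Submodule.add_mem _ hx hy
    | smul c x _ hx =>
      rw [smul_mul_assoc]
      exact Submodule.smul_mem _ c hx
  · intro f hf w hw
    refine Final_ident Φ f (Aug K n) T (hTS f hf) (fun z hz => ?_) w fun i => ?_
    · rw [hΦ, map_one, mul_one]
      exact (hkey z).2 hz
    · have h1 := hw i
      generalize w i = q at h1
      induction h1 using Submodule.span_induction with
      | mem x hx =>
        obtain ⟨h, z, hz, rfl⟩ := hx
        refine ⟨z ⊗ₜ[K] h, Submodule.subset_span ⟨z, hz, h, rfl⟩, ?_⟩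
        rw [hΦ, hjc]
      | zero => exact ⟨0, Submodule.zero_mem _, map_zero _⟩
      | add x y _ _ hx hy =>
        obtain ⟨u, hu, rfl⟩ := hx
        obtain ⟨u', hu', rfl⟩ := hy
        exact ⟨u + u', Submodule.add_mem _ hu hu', map_add _ _ _⟩
      | smul c x _ hx =>
        obtain ⟨u, hu, rfl⟩ := hx
        refine ⟨((1 : FA K n) ⊗ₜ[K] algebraMap E H c) * u, Final_ext_mul _ hu, ?_⟩
        rw [map_mul, hΦ, map_one, one_mul, ← hEj, ← Algebra.smul_def]

/-- NMREP for an operator stable ideal `T` which contains a power of the commutator ideal and all values on `Aug`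
of the polynomials in `S`.

PROOF. `Γ, A, π` from `exists_A`, `H` from `generic_fd` (with `C = Γ`, `M = A`), `Q = H ⊗[Γ] A` (ring, algebra over `H`, hence
over `GE K` and over `K` via `Algebra.compHom` / restriction of scalars), finite over `GE K`. `v j = 1 ⊗ π (xx j)`,
`B` = the `H`-span of the `1 ⊗ π (mapF z)`, `z ∈ Aug K n` (closed under products).
`lift K v z = 1 ⊗ π (mapF z)` (both sides algebra maps of `z`, equal on the letters; the two `K`-structures on `H` agree by `generic_fd`),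
so `lift K v z = 0` iff `π (mapF z) = 0` (injectivity in `generic_fd`) iff `z ∈ T`.
Identities: let `f ∈ S`, `w i ∈ B`. Apply `scalar_ext` with `Q = FA K n`, `Γ = H` (as a `K`-algebra), `a = 0`, `U i = Aug K n`, `W = T` and map
`FA K n ⊗[K] H → H ⊗[Γ] A`, `z ⊗ h ↦ h ⊗ π (mapF z)`; it kills `extS H T`. -/
theorem rep_of_isOp {K : Type u} [Field K] [Infinite K] (S : Set (FreeAlgebra K ℕ)) (n : ℕ)
    (T : Submodule K (FA K n)) (hT : IsOp K n T) (m : ℕ) (hm : Fil K n m ≤ T)
    (hTS : ∀ f ∈ S, ∀ g : ℕ → FA K n, (∀ i, g i ∈ Aug K n) → FreeAlgebra.lift K g f ∈ T) :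
    ∃ (Q : Type u) (_ : Ring Q) (_ : Algebra (GE K) Q) (_ : Algebra K Q)
      (_ : IsScalarTower K (GE K) Q) (_ : Module.Finite (GE K) Q) (B : Submodule (GE K) Q)
      (v : Fin n → Q), (∀ j, v j ∈ B) ∧ (∀ a ∈ B, ∀ b ∈ B, a * b ∈ B) ∧
      (∀ f ∈ S, ∀ w : ℕ → Q, (∀ i, w i ∈ B) → FreeAlgebra.lift K w f = 0) ∧
      (∀ z : FA K n, FreeAlgebra.lift K v z = 0 ↔ z ∈ T) := by
  obtain ⟨Γ, _, _, _, A, _, _, _, π, hπ1, hπ2⟩ := exists_A n T hT m hm
  obtain ⟨H, _, _, _, hfin, hc, hinj⟩ := generic_fd (K := K) (C := Γ) A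
  exact Final_core (E := GE K) hc hinj S n T hTS π hπ1 hπ2

/-- NMREP. `S` is a set of polynomials such that `M_2(K)` is not in the variety. -/
theorem nmrep {K : Type u} [Field K] [CharZero K] (S : Set (FreeAlgebra K ℕ))
    (hS : ¬ Satisfies S (Matrix (Fin 2) (Fin 2) K)) (n : ℕ) :
    ∃ (Q : Type u) (_ : Ring Q) (_ : Algebra (GE K) Q) (_ : Algebra K Q)
      (_ : IsScalarTower K (GE K) Q) (_ : Module.Finite (GE K) Q) (B : Submodule (GE K) Q)
      (v : Fin n → Q), (∀ j, v j ∈ B) ∧ (∀ a ∈ B, ∀ b ∈ B, a * b ∈ B) ∧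
      (∀ f ∈ S, ∀ w : ℕ → Q, (∀ i, w i ∈ B) → FreeAlgebra.lift K w f = 0) ∧
      (∀ z : FA K n, FreeAlgebra.lift K v z = 0 ↔ z ∈ identities S n) := by
  obtain ⟨m, hm⟩ := exists_fil_le S hS n
  exact rep_of_isOp S n (idn S n) (idn_isOp S n) m hm
    fun f hf g hg => idn_of_mem S n hf g hg

end Pool.Agent.H.MP_f5ceca_al.N
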