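import Pool.Agent.H.MP_f5ceca_al.N.Final

/-!
The form of NMREP used by the decidability theorem.
-/

namespace Pool.Agent.H.MP_f5ceca_al.N

universe u

/-- the subalgebra generated by a submodule closed under products -/
def locAlg {E Q : Type u} [Field E] [Ring Q] [Algebra E Q] (B₀ : Submodule E Q)
    (hmul : ∀ a ∈ B₀, ∀ b ∈ B₀, a * b ∈ B₀) : Subalgebra E Q where
  carrier := {x | ∃ c : E, x - algebraMap E Q c ∈ B₀}
  mul_mem' := by
    rintro x y ⟨c, hc⟩ ⟨d, hd⟩
    refine ⟨c * d, ?_⟩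
    have e : x * y - algebraMap E Q (c * d) = (x - algebraMap E Q c) * (y - algebraMap E Q d) +
        c • (y - algebraMap E Q d) + d • (x - algebraMap E Q c) := by
      rw [Algebra.smul_def, Algebra.smul_def, map_mul, Algebra.commutes d (x - algebraMap E Q c)]
      noncomm_ring
    rw [e]
    exact B₀.add_mem (B₀.add_mem (hmul _ hc _ hd) (B₀.smul_mem _ hd)) (B₀.smul_mem _ hc)
  add_mem' := by
    rintro x y ⟨c, hc⟩ ⟨d, hd⟩
    refine ⟨c + d, ?_⟩
    have e : x + y - algebraMap E Q (c + d) = (x - algebraMap E Q c) + (y - algebraMap E Q d) := by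
      rw [map_add]
      abel
    rw [e]
    exact B₀.add_mem hc hd
  algebraMap_mem' c := ⟨c, by rw [sub_self]; exact B₀.zero_mem⟩

theorem locAlg_of_mem {E Q : Type u} [Field E] [Ring Q] [Algebra E Q] (B₀ : Submodule E Q)
    (hmul : ∀ a ∈ B₀, ∀ b ∈ B₀, a * b ∈ B₀) {x : Q} (hx : x ∈ B₀) : x ∈ locAlg B₀ hmul :=
  ⟨0, by rw [map_zero, sub_zero]; exact hx⟩

theorem locAlg_left {E Q : Type u} [Field E] [Ring Q] [Algebra E Q] (B₀ : Submodule E Q)
    (hmul : ∀ a ∈ B₀, ∀ b ∈ B₀, a * b ∈ B₀) {x u : Q} (hx : x ∈ locAlg B₀ hmul) (hu : u ∈ B₀) :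
    x * u ∈ B₀ := by
  obtain ⟨c, hc⟩ := hx
  have e : x * u = (x - algebraMap E Q c) * u + c • u := by
    rw [Algebra.smul_def]
    noncomm_ring
  rw [e]
  exact B₀.add_mem (hmul _ hc _ hu) (B₀.smul_mem _ hu)

theorem locAlg_right {E Q : Type u} [Field E] [Ring Q] [Algebra E Q] (B₀ : Submodule E Q)
    (hmul : ∀ a ∈ B₀, ∀ b ∈ B₀, a * b ∈ B₀) {x u : Q} (hx : x ∈ locAlg B₀ hmul) (hu : u ∈ B₀) :
    u * x ∈ B₀ := by
  obtain ⟨c, hc⟩ := hx
  have e : u * x = u * (x - algebraMap E Q c) + c • u := by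
    rw [Algebra.smul_def, Algebra.commutes c u]
    noncomm_ring
  rw [e]
  exact B₀.add_mem (hmul _ hu _ hc) (B₀.smul_mem _ hu)

/-- PROOF. `Q, B₀, v` from `nmrep`. `B = Algebra.adjoin (GE K) B₀` (subalgebra of `Q`, finite-dimensional), every element is `c + b` with
`c ∈ GE K`, `b ∈ B₀` (`Algebra.adjoin_induction`); `J = {x : B | (x : Q) ∈ B₀}`. For the last clause use `y = v`. Values in `B`
and in `Q` agree (`FreeAlgebra.lift` composed with the inclusion). -/
theorem locrep {K : Type u} [Field K] [CharZero K] (S : Set (FreeAlgebra K ℕ))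
    (hS : ¬ Satisfies S (Matrix (Fin 2) (Fin 2) K)) (k : ℕ) :
    ∃ (E : Type u) (_ : Field E) (_ : IsAlgClosed E) (_ : Algebra K E) (B : Type u) (_ : Ring B)
      (_ : Algebra E B) (_ : Algebra K B) (_ : IsScalarTower K E B) (J : Submodule E B),
      FiniteDimensional E B ∧ (∀ a u b : B, u ∈ J → a * u * b ∈ J) ∧
      (∀ x : B, ∃ c : E, x - algebraMap E B c ∈ J) ∧
      (∀ f ∈ S, ∀ y : ℕ → B, (∀ i, y i ∈ J) → FreeAlgebra.lift K y f = 0) ∧
      ∀ f : FreeAlgebra K (Fin k),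
        (∀ y : Fin k → B, (∀ i, y i ∈ J) → FreeAlgebra.lift K y f = 0) → f ∈ identities S k := by
  obtain ⟨Q, iR, iE, iK, iT, iF, B₀, v, hv, hmul, hid, hfree⟩ := nmrep S hS k
  have hfd : FiniteDimensional (GE K) (locAlg B₀ hmul) :=
    Module.Finite.of_injective (locAlg B₀ hmul).val.toLinearMap Subtype.val_injective
  have hval : ∀ {X : Type} (y : X → locAlg B₀ hmul) (f : FreeAlgebra K X),
      ((FreeAlgebra.lift K y f : locAlg B₀ hmul) : Q) =
        FreeAlgebra.lift K (fun i => (y i : Q)) f := by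
    intro X y f
    have h : ((locAlg B₀ hmul).val.restrictScalars K).comp (FreeAlgebra.lift K y) =
        FreeAlgebra.lift K (fun i => (y i : Q)) := by
      apply FreeAlgebra.hom_ext
      funext i
      show (((FreeAlgebra.lift K y) (FreeAlgebra.ι K i) : locAlg B₀ hmul) : Q) =
        FreeAlgebra.lift K (fun i => (y i : Q)) (FreeAlgebra.ι K i)
      rw [FreeAlgebra.lift_ι_apply, FreeAlgebra.lift_ι_apply]
    exact DFunLike.congr_fun h f
  refine ⟨GE K, inferInstance, inferInstance, inferInstance, locAlg B₀ hmul, inferInstance,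
    inferInstance, inferInstance, inferInstance, B₀.comap (locAlg B₀ hmul).val.toLinearMap, hfd,
    ?_, ?_, ?_, ?_⟩
  · intro a u b hu
    exact locAlg_right B₀ hmul b.2 (locAlg_left B₀ hmul a.2 hu)
  · intro x
    obtain ⟨c, hc⟩ := x.2
    exact ⟨c, hc⟩
  · intro f hf y hy
    apply Subtype.ext
    rw [hval]
    exact hid f hf _ hy
  · intro f hf
    refine (hfree f).1 ?_
    have h1 := hf (fun i => ⟨v i, locAlg_of_mem B₀ hmul (hv i)⟩) hv
    have h2 := hval (fun i => (⟨v i, locAlg_of_mem B₀ hmul (hv i)⟩ : locAlg B₀ hmul)) f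
    rw [h1] at h2
    exact h2.symm

/-- The hypothesis in the other form. PROOF: if `M_2(K)` satisfies `S` then all identities of the variety vanish on it. -/
theorem not_satisfies_of_identity {K : Type u} [Field K] (S : Set (FreeAlgebra K ℕ)) {k : ℕ}
    (f : FreeAlgebra K (Fin k)) (hf : f ∈ identities S k)
    (y : Fin k → Matrix (Fin 2) (Fin 2) K) (hy : FreeAlgebra.lift K y f ≠ 0) :
    ¬ Satisfies S (Matrix (Fin 2) (Fin 2) K) := by
  intro hS
  refine hy ?_
  have h1 := hf (Matrix (Fin 2) (Fin 2) K) hS y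
  have h2 : (Unitization.lift (NonUnitalAlgHom.id K (Matrix (Fin 2) (Fin 2) K))).comp
      (FreeAlgebra.lift K (fun i => ((y i : Matrix (Fin 2) (Fin 2) K) :
        Unitization K (Matrix (Fin 2) (Fin 2) K)))) = FreeAlgebra.lift K y := by
    apply FreeAlgebra.hom_ext
    funext i
    show Unitization.lift (NonUnitalAlgHom.id K (Matrix (Fin 2) (Fin 2) K))
      (FreeAlgebra.lift K (fun i => ((y i : Matrix (Fin 2) (Fin 2) K) :
        Unitization K (Matrix (Fin 2) (Fin 2) K))) (FreeAlgebra.ι K i)) =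
      FreeAlgebra.lift K y (FreeAlgebra.ι K i)
    rw [FreeAlgebra.lift_ι_apply, FreeAlgebra.lift_ι_apply]
    simp
  have h3 := DFunLike.congr_fun h2 f
  rw [← h3]
  show Unitization.lift (NonUnitalAlgHom.id K (Matrix (Fin 2) (Fin 2) K)) (FreeAlgebra.lift K _ f) = 0
  rw [h1, map_zero]

end Pool.Agent.H.MP_f5ceca_al.N
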