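import Pool.Agent.H.MP_f5ceca_al.N.Om

/-!
Symbols of the elements of the ideal generated by the `f_j(x_j)^N`.
-/

namespace Pool.Agent.H.MP_f5ceca_al.N

universe u v

variable (Γ : Type v) [CommRing Γ] (n : ℕ)

/-- the ideal of `RX` generated by the `f_j(X(a,j))` -/
noncomputable def MM (f : Fin n → Polynomial Γ) (k : ℕ) : Ideal (RX Γ n k) :=
  Ideal.span {r | ∃ (a : Fin (k + 1)) (j : Fin n), r = Polynomial.aeval (gX Γ n k a j) (f j)}

theorem smul_mul_mem (k : ℕ) (I : Ideal (RX Γ n k)) {p q a b c : ℕ} (hab : a ≤ b) (hbc : b ≤ c)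
    {x y : RZ Γ n k} (hx : x ∈ I ^ p • OmAB Γ n k a b) (hy : y ∈ I ^ q • OmAB Γ n k b c) :
    x * y ∈ I ^ (p + q) • OmAB Γ n k a c := by
  refine Submodule.smul_induction_on hx ?_ ?_
  · intro r hr m hm
    refine Submodule.smul_induction_on hy ?_ ?_
    · intro s hs m' hm'
      have h1 : (r • m) * (s • m') = (r * s) • (m * m') := by
        rw [smul_mul_smul_comm]
      rw [h1]
      refine Submodule.smul_mem_smul ?_ (OmAB_mul Γ n k hab hbc hm hm')
      rw [pow_add]
      exact Ideal.mul_mem_mul hr hs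
    · intro y1 y2 h1 h2
      rw [mul_add]
      exact Submodule.add_mem _ h1 h2
  · intro x1 x2 h1 h2
    rw [add_mul]
    exact Submodule.add_mem _ h1 h2

theorem pow_smul_mono (k : ℕ) (I : Ideal (RX Γ n k)) {p q a b : ℕ} (hpq : q ≤ p)
    {x : RZ Γ n k} (hx : x ∈ I ^ p • OmAB Γ n k a b) : x ∈ I ^ q • OmAB Γ n k a b :=
  Submodule.smul_mono_left (Ideal.pow_le_pow_right hpq) hx

theorem mem_pow_zero (k : ℕ) (I : Ideal (RX Γ n k)) {a b : ℕ}
    {x : RZ Γ n k} (hx : x ∈ OmAB Γ n k a b) : x ∈ I ^ 0 • OmAB Γ n k a b := by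
  rw [pow_zero, Ideal.one_eq_top, Submodule.top_smul]
  exact hx

theorem tau_low (k : ℕ) (z : FA Γ n) (a b : Fin (k + 1)) (hab : b < a) :
    tau Γ n k z a b = 0 := by
  refine tau_apply_eq_zero Γ n k 0 (z := z) ?_ a b ?_
  · rw [Fil_zero]
    exact Submodule.mem_top
  · have : (b : ℕ) < a := hab
    omega

theorem tau_diag_mem (f : Fin n → Polynomial Γ) (k : ℕ) (j : Fin n) (a : Fin (k + 1)) :
    tau Γ n k (Polynomial.aeval (xx Γ j) (f j)) a a ∈
      MM Γ n f k ^ 1 • OmAB Γ n k a a := by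
  rw [tau_diag]
  have h1 : ev Γ n k a (Polynomial.aeval (xx Γ j) (f j)) =
      Polynomial.aeval (gX Γ n k a j) (f j) := by
    rw [← Polynomial.aeval_algHom_apply]
    congr 2
    simp [ev, xx]
  rw [h1]
  have h2 : (MvPolynomial.C (Polynomial.aeval (gX Γ n k a j) (f j)) : RZ Γ n k) =
      (Polynomial.aeval (gX Γ n k a j) (f j)) • (1 : RZ Γ n k) := by
    rw [MvPolynomial.smul_eq_C_mul, mul_one]
  rw [h2, pow_one]
  refine Submodule.smul_mem_smul ?_ (one_mem_OmAB Γ n k a)
  exact Ideal.subset_span ⟨a, j, rfl⟩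

theorem tau_pow_mem (f : Fin n → Polynomial Γ) (k : ℕ) (j : Fin n) (N : ℕ) :
    ∀ (a b : Fin (k + 1)), a ≤ b →
      tau Γ n k (Polynomial.aeval (xx Γ j) (f j) ^ N) a b ∈
        MM Γ n f k ^ (N - ((b : ℕ) - a)) • OmAB Γ n k a b := by
  induction N with
  | zero =>
    intro a b hab
    rw [Nat.zero_sub]
    exact mem_pow_zero Γ n k _ (tau_mem_OmAB Γ n k _ a b hab)
  | succ N ih =>
    intro a b hab
    rw [pow_succ, map_mul, Matrix.mul_apply]
    refine Submodule.sum_mem _ ?_
    intro c _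
    by_cases hac : a ≤ c
    · by_cases hcb : c ≤ b
      · have hac' : (a : ℕ) ≤ c := hac
        have hcb' : (c : ℕ) ≤ b := hcb
        rcases eq_or_lt_of_le hcb with h | h
        · subst h
          refine pow_smul_mono Γ n k _ ?_
            (smul_mul_mem Γ n k _ hac' le_rfl (ih a c hac) (tau_diag_mem Γ n f k j c))
          omega
        · have h' : (c : ℕ) < b := h
          refine pow_smul_mono Γ n k _ ?_
            (smul_mul_mem Γ n k _ hac' hcb' (ih a c hac)
              (mem_pow_zero Γ n k _ (tau_mem_OmAB Γ n k _ c b hcb)))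
          omega
      · rw [tau_low Γ n k _ c b (not_le.mp hcb), mul_zero]
        exact Submodule.zero_mem _
    · rw [tau_low Γ n k _ a c (not_le.mp hac), zero_mul]
      exact Submodule.zero_mem _

/-- PROOF. For `a ≤ b` let `Omega_{ab}` be the `RX`-span of the products `∏_{a ≤ c < b} ξ(c,w_c)`, which contains
the entry `(a,b)` of `tau z` for all `z`. Show by induction on `N` that the entry `(a,b)` of `tau (f_j(x_j)^N)` is
in `MM^(N-(b-a)) • Omega_{ab}` (the diagonal entry of `tau (f_j(x_j))` is `f_j(X(a,j))`). Then `u f_j(x_j)^N v`: the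
entry `(0,k)` is the sum over `a ≤ b` of `tau u (0,a) * tau (f_j(x_j)^N) (a,b) * tau v (b,k)`. -/
theorem sym_mem_small (f : Fin n → Polynomial Γ) (k N : ℕ) {w : FA Γ n} (hw : w ∈ Bd Γ n f N) :
    sym Γ n k w ∈ (MM Γ n f k) ^ (N - k) • Omega Γ n k := by
  unfold Bd at hw
  refine Submodule.span_induction ?_ ?_ ?_ ?_ hw
  · rintro z ⟨u, v, j, rfl⟩
    change tau Γ n k (u * Polynomial.aeval (xx Γ j) (f j) ^ N * v) 0 (Fin.last k) ∈ _
    rw [map_mul, map_mul, Matrix.mul_apply]
    refine Submodule.sum_mem _ ?_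
    intro b _
    rw [Matrix.mul_apply, Finset.sum_mul]
    refine Submodule.sum_mem _ ?_
    intro a _
    by_cases hab : a ≤ b
    · have hab' : (a : ℕ) ≤ b := hab
      have hb' : (b : ℕ) ≤ k := Nat.lt_succ_iff.mp b.2
      have h1 := mem_pow_zero Γ n k (MM Γ n f k) (tau_mem_OmAB Γ n k u 0 a (Fin.zero_le a))
      have h2 := tau_pow_mem Γ n f k j N a b hab
      have h3 := mem_pow_zero Γ n k (MM Γ n f k)
        (tau_mem_OmAB Γ n k v b (Fin.last k) (Fin.le_last b))
      have h4 := smul_mul_mem Γ n k _ (Nat.zero_le _) hab' h1 h2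
      have h5 := smul_mul_mem Γ n k _ (Nat.zero_le _) (by simpa using hb') h4 h3
      rw [← OmAB_zero_last]
      refine pow_smul_mono Γ n k _ ?_ h5
      omega
    · rw [tau_low Γ n k _ a b (not_le.mp hab), mul_zero, zero_mul]
      exact Submodule.zero_mem _
  · rw [map_zero]
    exact Submodule.zero_mem _
  · intro x y _ _ hx hy
    rw [map_add]
    exact Submodule.add_mem _ hx hy
  · intro c x _ hx
    rw [map_smul]
    have : c • sym Γ n k x = (algebraMap Γ (RX Γ n k) c) • sym Γ n k x := by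
      rw [algebraMap_smul]
    rw [this]
    exact Submodule.smul_mem _ _ hx

end Pool.Agent.H.MP_f5ceca_al.N
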