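import Pool.Agent.H.MP_f5ceca_al.N.Stab
import Pool.Agent.H.MP_f5ceca_al.N.Small

/-!
A power of the ideal of the `f_j(X(a,j))` is in the extension of the ideal of small multipliers.
-/

namespace Pool.Agent.H.MP_f5ceca_al.N

universe u v

variable {Γ : Type v} [CommRing Γ] {n : ℕ}

/-- The ideal `𝔫` of the stabilizer of the small multipliers. -/
noncomputable def nId (T : Submodule Γ (FA Γ n)) (f : Fin n → Polynomial Γ) (k N : ℕ) :
    Ideal (St Γ n T k) where
  carrier := {s | smallMul Γ n T f k N (s : RX Γ n k)}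
  add_mem' {a b} ha hb u hu := by
    have := add_mem (ha u hu) (hb u hu)
    rwa [← add_smul] at this
  zero_mem' u hu := by
    simpa using Submodule.zero_mem _
  smul_mem' c s hs u hu := by
    have := hs _ (c.2 u hu)
    rwa [← mul_smul, mul_comm] at this

variable {T : Submodule Γ (FA Γ n)} (hT : IsOp Γ n T)

include hT

omit hT in
private theorem mmpow_ev (f : Fin n → Polynomial Γ) (k N : ℕ) (j : Fin n) (a : Fin (k + 1)) :
    ev Γ n k a (Polynomial.aeval (xx Γ j) (f j) ^ N) =
      Polynomial.aeval (gX Γ n k a j) (f j) ^ N := by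
  rw [map_pow, ← Polynomial.aeval_algHom_apply]
  congr 2
  unfold ev xx
  rw [FreeAlgebra.lift_ι_apply]

/-- A power of the ideal generated by the `f_j(X(a,j))` is in the extension of `𝔫`.

PROOF. Let `y = f_j(x_j)^N`, `g = 1`, `h_a = y(X_{a+1}) - y(X_a)`. From `∏_c (h_a - h_c) = 0`:
`h_a^k = - ∑_{s ≥ 1} (±) e_s(h) h_a^{k-s}` is in the extension `𝔫 RX` of `𝔫` (`esymm_smallMul`, `esymm_mem_St`);
`y(X_0) = f_j(X(0,j))^N ∈ 𝔫`. So all `y(X_a) = f_j(X(a,j))^N` are nilpotent modulo `𝔫 RX`, hence so are all the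
`f_j(X(a,j))`, and `MM` is generated by these finitely many elements. -/
theorem exists_MM_pow_le (K : Type u) [Field K] [Infinite K] [Algebra K Γ]
    (f : Fin n → Polynomial Γ) (k N : ℕ) :
    ∃ L : ℕ, (MM Γ n f k) ^ L ≤ (nId T f k N).map (algebraMap (St Γ n T k) (RX Γ n k)) := by
  classical
  set J := (nId T f k N).map (algebraMap (St Γ n T k) (RX Γ n k)) with hJ
  -- small multipliers of the stabilizer are in `J`
  have hmem : ∀ s : RX Γ n k, s ∈ St Γ n T k → smallMul Γ n T f k N s → s ∈ J := by
    intro s hs hsm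
    have h1 : (⟨s, hs⟩ : St Γ n T k) ∈ nId T f k N := hsm
    exact Ideal.mem_map_of_mem (algebraMap (St Γ n T k) (RX Γ n k)) h1
  have hrad : ∀ (j : Fin n) (a : Fin (k + 1)),
      Polynomial.aeval (gX Γ n k a j) (f j) ∈ J.radical := by
    intro j
    set y : FA Γ n := Polynomial.aeval (xx Γ j) (f j) ^ N with hy
    have hyB : y ∈ Bd Γ n f N := Submodule.subset_span ⟨1, 1, j, by rw [one_mul, mul_one]⟩
    have hev : ∀ a : Fin (k + 1), ev Γ n k a y = Polynomial.aeval (gX Γ n k a j) (f j) ^ N :=
      fun a => mmpow_ev f k N j a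
    have h0 : ev Γ n k 0 y ∈ J := by
      apply hmem
      · rw [hev]
        refine pow_mem ?_ N
        have h1 := Polynomial.aeval_subalgebra_coe (f j) (St Γ n T k)
          ⟨gX Γ n k 0 j, X_zero_mem_St hT k j⟩
        rw [← h1]
        exact Subtype.property _
      · rw [hev]
        exact zero_smallMul hT f k N j
    have hh1 : ∀ a : Fin k, hh Γ n k y 1 a = ev Γ n k a.succ y - ev Γ n k a.castSucc y := by
      intro a
      unfold hh
      rw [map_one, mul_one]
    have hes : ∀ s : ℕ, 0 < s → s ≤ k →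
        ((Finset.univ : Finset (Fin k)).val.map (hh Γ n k y 1)).esymm s ∈ J := by
      intro s hs0 hs
      exact hmem _ (esymm_mem_St hT K k y 1 s hs) (esymm_smallMul hT K f k N y 1 hyB s hs hs0)
    have hhk : ∀ a : Fin k, hh Γ n k y 1 a ^ k ∈ J := by
      intro a
      set M := (Finset.univ : Finset (Fin k)).val.map (hh Γ n k y 1) with hM
      have hcard : Multiset.card M = k := by
        rw [hM, Multiset.card_map]
        simp
      have h1 := congrArg (Polynomial.eval (hh Γ n k y 1 a)) (Multiset.prod_X_sub_X_eq_sum_esymm M)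
      rw [Polynomial.eval_multiset_prod, Multiset.map_map] at h1
      have h2 : (Multiset.map (Polynomial.eval (hh Γ n k y 1 a) ∘ fun t =>
          Polynomial.X - Polynomial.C t) M).prod = 0 := by
        apply Multiset.prod_eq_zero
        rw [Multiset.mem_map]
        refine ⟨hh Γ n k y 1 a, ?_, ?_⟩
        · rw [hM, Multiset.mem_map]
          exact ⟨a, Finset.mem_univ_val a, rfl⟩
        · simp
      rw [h2, Polynomial.eval_finsetSum, hcard, Finset.sum_range_succ'] at h1
      have h3 : hh Γ n k y 1 a ^ k = -∑ i ∈ Finset.range k, Polynomial.eval (hh Γ n k y 1 a)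
          ((-1) ^ (i + 1) * (Polynomial.C (M.esymm (i + 1)) * Polynomial.X ^ (k - (i + 1)))) := by
        have h4 : Polynomial.eval (hh Γ n k y 1 a) ((-1) ^ 0 *
            (Polynomial.C (M.esymm 0) * Polynomial.X ^ (k - 0))) = hh Γ n k y 1 a ^ k := by
          simp [Multiset.esymm]
        rw [h4] at h1
        exact eq_neg_of_add_eq_zero_right h1.symm
      rw [h3]
      refine neg_mem (Ideal.sum_mem _ fun i hi => ?_)
      rw [Finset.mem_range] at hi
      rw [Polynomial.eval_mul, Polynomial.eval_mul, Polynomial.eval_C]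
      exact Ideal.mul_mem_left _ _ (Ideal.mul_mem_right _ _ (hes (i + 1) (Nat.succ_pos i) hi))
    have hall : ∀ a : Fin (k + 1), ev Γ n k a y ∈ J.radical := by
      intro a
      induction a using Fin.induction with
      | zero => exact Ideal.le_radical h0
      | succ a ih =>
        have h1 : ev Γ n k a.succ y = ev Γ n k a.castSucc y + hh Γ n k y 1 a := by
          rw [hh1]
          ring
        rw [h1]
        exact Ideal.add_mem _ ih ⟨k, hhk a⟩
    intro a
    have h1 := hall a
    rw [hev] at h1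
    exact Ideal.mem_radical_of_pow_mem h1
  have hle : MM Γ n f k ≤ J.radical := by
    unfold MM
    rw [Ideal.span_le]
    rintro r ⟨a, j, rfl⟩
    exact hrad j a
  have hfg : (MM Γ n f k).FG := by
    have h1 : {r : RX Γ n k | ∃ (a : Fin (k + 1)) (j : Fin n),
        r = Polynomial.aeval (gX Γ n k a j) (f j)} =
        Set.range fun p : Fin (k + 1) × Fin n => Polynomial.aeval (gX Γ n k p.1 p.2) (f p.2) := by
      ext r
      constructor
      · rintro ⟨a, j, rfl⟩
        exact ⟨(a, j), rfl⟩
      · rintro ⟨p, rfl⟩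
        exact ⟨p.1, p.2, rfl⟩
    unfold MM
    rw [h1]
    exact Submodule.fg_span (Set.finite_range _)
  exact Ideal.exists_pow_le_of_le_radical_of_fg hle hfg

end Pool.Agent.H.MP_f5ceca_al.N
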