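import Pool.Agent.H.MP_f5ceca_al.N.Integ
import Pool.Agent.H.MP_f5ceca_al.N.MMpow
import Pool.Agent.H.MP_f5ceca_al.N.Lewin

/-!
The Artin-Rees step.
-/

namespace Pool.Agent.H.MP_f5ceca_al.N

universe u v

variable {Γ : Type v} [CommRing Γ] {n : ℕ} [IsNoetherianRing Γ] {T : Submodule Γ (FA Γ n)}

/-- Artin-Rees for submodules of a module over a finite algebra. -/
theorem AR_generic {R A Z : Type*} [CommRing R] [IsNoetherianRing R] [CommRing A] [Algebra R A]
    [Module.Finite R A] [AddCommGroup Z] [Module R Z] [Module A Z] [IsScalarTower R A Z]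
    (I : Ideal R) (P : Submodule R Z) (Om : Submodule A Z) (hOm : Om.FG) :
    ∃ c : ℕ, ∀ x, x ∈ (I ^ (c + 1)).map (algebraMap R A) • Om → x ∈ P → x ∈ I • P := by
  obtain ⟨OmR, hOmR⟩ : ∃ Q : Submodule R Z, Q = Om.restrictScalars R := ⟨_, rfl⟩
  have hfin : OmR.FG := by
    rw [hOmR]
    haveI : Module.Finite A Om := Module.Finite.iff_fg.2 hOm
    haveI : Module.Finite R Om := Module.Finite.trans (R := R) A Om
    have h1 : (⊤ : Submodule R Om).FG := Module.Finite.fg_top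
    have h2 := h1.map ((Om.subtype).restrictScalars R)
    rw [Submodule.map_top, LinearMap.range_restrictScalars, Submodule.range_subtype] at h2
    exact h2
  haveI : Module.Finite R OmR := Module.Finite.iff_fg.2 hfin
  obtain ⟨c, hc⟩ := Ideal.exists_pow_inf_eq_pow_smul I (P.comap OmR.subtype)
  refine ⟨c, ?_⟩
  intro x hx hxP
  have h4 : x ∈ I ^ (c + 1) • OmR := by
    rw [hOmR, ← Ideal.smul_restrictScalars]
    exact hx
  have h6 : I ^ (c + 1) • OmR = (I ^ (c + 1) • (⊤ : Submodule R OmR)).map OmR.subtype := by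
    rw [Submodule.map_smul'', Submodule.map_top, Submodule.range_subtype]
  rw [h6] at h4
  obtain ⟨m, hm1, hm2⟩ := h4
  have h7 : m ∈ I ^ (c + 1) • (⊤ : Submodule R OmR) ⊓ P.comap OmR.subtype := by
    refine ⟨hm1, ?_⟩
    show OmR.subtype m ∈ P
    rw [hm2]
    exact hxP
  rw [hc (c + 1) (Nat.le_succ c), Nat.add_sub_cancel_left, pow_one] at h7
  have h8 : m ∈ I • (P.comap OmR.subtype) := (smul_mono_right I (inf_le_right : _ ≤ P.comap OmR.subtype)) h7
  have h10 : (I • (P.comap OmR.subtype)).map OmR.subtype ≤ I • P := by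
    rw [Submodule.map_smul'']
    exact smul_mono_right I (Submodule.map_comap_le _ _)
  rw [← hm2]
  exact h10 ⟨m, h8, rfl⟩

omit [IsNoetherianRing Γ] in
/-- The layer as a module over its stabilizer. -/
theorem AR_exists_lay (T : Submodule Γ (FA Γ n)) (k : ℕ) :
    ∃ P : Submodule (St Γ n T k) (RZ Γ n k), ∀ x, x ∈ P ↔ x ∈ Lay Γ n T k := by
  refine ⟨{ carrier := {x | x ∈ Lay Γ n T k}, add_mem' := ?_, zero_mem' := ?_, smul_mem' := ?_ },
    fun x => Iff.rfl⟩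
  · intro a b ha hb
    exact Submodule.add_mem (Lay Γ n T k) ha hb
  · exact Submodule.zero_mem (Lay Γ n T k)
  · intro c x hx
    exact c.2 x hx

omit [IsNoetherianRing Γ] in
theorem AR_smul_lay (f : Fin n → Polynomial Γ) (k N' : ℕ) (P : Submodule (St Γ n T k) (RZ Γ n k))
    (hP : ∀ x, x ∈ P ↔ x ∈ Lay Γ n T k) {x : RZ Γ n k} (hx : x ∈ nId T f k N' • P) :
    x ∈ (T ⊓ Fil Γ n k ⊓ Bd Γ n f N').map (sym Γ n k) := by
  refine Submodule.smul_induction_on hx ?_ ?_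
  · intro s hs u hu
    exact hs u ((hP u).1 hu)
  · intro a b ha hb
    exact add_mem ha hb

/-- One level.

PROOF. `St = St Γ n T k` is noetherian, `Omega` is a finite `St`-module, `Lay T k` is a `St`-submodule of it. Artin-Rees
(`Ideal.exists_pow_inf_eq_pow_smul`) for the ideal `𝔫 = nId T f k N'`: there is `c` with
`𝔫^(c+1) Omega ∩ Lay ≤ 𝔫 Lay`, and `𝔫 Lay ≤ sym (T ∩ Fil k ∩ Bd N')`. With `L` from `exists_MM_pow_le` and
`N'' = k + L (c+1)`: `sym w ∈ MM^(L(c+1)) Omega ≤ 𝔫^(c+1) Omega`. -/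
theorem AR_level (K : Type u) [Field K] [Infinite K] [Algebra K Γ] (hT : IsOp Γ n T) (f : Fin n → Polynomial Γ) (k N' : ℕ) :
    ∃ N'' : ℕ, ∀ w ∈ Bd Γ n f N'', sym Γ n k w ∈ Lay Γ n T k →
      ∃ t ∈ T, t ∈ Fil Γ n k ∧ t ∈ Bd Γ n f N' ∧ sym Γ n k t = sym Γ n k w := by
  haveI : IsNoetherianRing (St Γ n T k) := noetherian_St hT K k
  haveI : Module.Finite (St Γ n T k) (RX Γ n k) := finite_St hT K k
  obtain ⟨P, hP⟩ := AR_exists_lay T k
  obtain ⟨c, hc⟩ := AR_generic (A := RX Γ n k) (nId T f k N') P (Omega Γ n k) (Omega_fg Γ n k)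
  obtain ⟨L, hL⟩ := exists_MM_pow_le hT K f k N'
  refine ⟨k + L * (c + 1), ?_⟩
  intro w hw hwL
  have h1 := sym_mem_small Γ n f k _ hw
  rw [Nat.add_sub_cancel_left] at h1
  have h2 : (MM Γ n f k) ^ (L * (c + 1)) ≤
      ((nId T f k N') ^ (c + 1)).map (algebraMap (St Γ n T k) (RX Γ n k)) := by
    rw [pow_mul, Ideal.map_pow]
    exact Ideal.pow_right_mono hL (c + 1)
  have h3 : sym Γ n k w ∈
      ((nId T f k N') ^ (c + 1)).map (algebraMap (St Γ n T k) (RX Γ n k)) • Omega Γ n k :=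
    Submodule.smul_mono_left h2 h1
  have h9 := hc _ h3 ((hP _).2 hwL)
  obtain ⟨t, ⟨⟨ht1, ht2⟩, ht3⟩, ht4⟩ := AR_smul_lay f k N' P hP h9
  exact ⟨t, ht1, ht2, ht3, ht4⟩

/-- All levels. PROOF. Induction on `k`: given `N'` for `k + 1`, take `N''` of `AR_level` for `(k, N')`, and then `N` for
`(k, max N' N'')` by induction. `t + w ∈ Fil (k+1)`, so `t, w ∈ Fil k` without loss of generality; `sym k w = - sym k t ∈ Lay`,
choose `t'` with `sym t' = sym w`, and replace `t, w` by `t + t'`, `w - t'` (`mem_Fil_succ`). -/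
theorem AR_main (K : Type u) [Field K] [Infinite K] [Algebra K Γ] (hT : IsOp Γ n T) (f : Fin n → Polynomial Γ) (k N' : ℕ) :
    ∃ N : ℕ, ∀ t ∈ T, ∀ w ∈ Bd Γ n f N, t + w ∈ Fil Γ n k →
      ∃ t' ∈ T, ∃ w' ∈ Bd Γ n f N', t' ∈ Fil Γ n k ∧ w' ∈ Fil Γ n k ∧ t' + w' = t + w := by
  induction k generalizing N' with
  | zero =>
    refine ⟨N', fun t ht w hw _ => ⟨t, ht, w, hw, ?_, ?_, rfl⟩⟩ <;> rw [Fil_zero] <;> trivial
  | succ k ih =>
    obtain ⟨N'', hN''⟩ := AR_level K hT f k N'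
    obtain ⟨N, hN⟩ := ih (max N' N'')
    refine ⟨N, ?_⟩
    intro t ht w hw htw
    obtain ⟨t1, ht1, w1, hw1, ht1F, hw1F, hsum⟩ :=
      hN t ht w hw (Fil_antitone Γ n (Nat.le_succ k) htw)
    have h1 : sym Γ n k (t1 + w1) = 0 := by
      rw [hsum]
      exact sym_eq_zero Γ n k htw
    rw [map_add] at h1
    have h2 : sym Γ n k w1 ∈ Lay Γ n T k := by
      refine ⟨-t1, ⟨neg_mem ht1, neg_mem ht1F⟩, ?_⟩
      rw [map_neg]
      exact neg_eq_of_add_eq_zero_right h1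
    obtain ⟨t', ht', ht'F, ht'B, ht's⟩ := hN'' w1 (Bd_antitone Γ n f (le_max_right _ _) hw1) h2
    refine ⟨t1 + t', add_mem ht1 ht', w1 - t',
      sub_mem (Bd_antitone Γ n f (le_max_left _ _) hw1) ht'B, ?_, ?_, ?_⟩
    · apply mem_Fil_succ Γ n k (add_mem ht1F ht'F)
      rw [map_add, ht's]
      exact h1
    · apply mem_Fil_succ Γ n k (sub_mem hw1F ht'F)
      rw [map_sub, ht's, sub_self]
    · rw [← hsum]
      abel

end Pool.Agent.H.MP_f5ceca_al.N
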