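import Pool.Agent.H.MP_f5ceca_al.N.Phi

/-!
The ideal generated by the `f_j(x_j)^N`.
-/

namespace Pool.Agent.H.MP_f5ceca_al.N

universe u v

variable (Γ : Type v) [CommRing Γ] (n : ℕ)

theorem Bd_left (f : Fin n → Polynomial Γ) (N : ℕ) (a : FA Γ n) {z : FA Γ n}
    (hz : z ∈ Bd Γ n f N) : a * z ∈ Bd Γ n f N := by
  unfold Bd at hz ⊢
  induction hz using Submodule.span_induction with
  | mem z hz =>
    obtain ⟨c, b, j, rfl⟩ := hz
    exact Submodule.subset_span ⟨a * c, b, j, by simp only [mul_assoc]⟩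
  | zero =>
    rw [mul_zero]
    exact Submodule.zero_mem _
  | add x y _ _ hx hy =>
    rw [mul_add]
    exact Submodule.add_mem _ hx hy
  | smul r x _ hx =>
    rw [mul_smul_comm]
    exact Submodule.smul_mem _ _ hx

theorem Bd_right (f : Fin n → Polynomial Γ) (N : ℕ) (a : FA Γ n) {z : FA Γ n}
    (hz : z ∈ Bd Γ n f N) : z * a ∈ Bd Γ n f N := by
  unfold Bd at hz ⊢
  induction hz using Submodule.span_induction with
  | mem z hz =>
    obtain ⟨c, b, j, rfl⟩ := hz
    exact Submodule.subset_span ⟨c, b * a, j, by simp only [mul_assoc]⟩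
  | zero =>
    rw [zero_mul]
    exact Submodule.zero_mem _
  | add x y _ _ hx hy =>
    rw [add_mul]
    exact Submodule.add_mem _ hx hy
  | smul r x _ hx =>
    rw [smul_mul_assoc]
    exact Submodule.smul_mem _ _ hx

theorem Bd_antitone (f : Fin n → Polynomial Γ) : Antitone (Bd Γ n f) := by
  intro N M hNM
  refine Submodule.span_le.2 ?_
  rintro z ⟨a, b, j, rfl⟩
  obtain ⟨c, rfl⟩ := Nat.exists_eq_add_of_le hNM
  refine Submodule.subset_span ⟨a, Polynomial.aeval (xx Γ j) (f j) ^ c * b, j, ?_⟩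
  rw [pow_add]
  simp only [mul_assoc]

/-- If `y` is in the ideal `Bd` then the substitution `phi y g` is the identity modulo `Bd`.
(`FreeAlgebra.induction`.) -/
theorem phi_sub_mem_Bd (f : Fin n → Polynomial Γ) (N : ℕ) (y g : FA Γ n) (hy : y ∈ Bd Γ n f N)
    (z : FA Γ n) : phi Γ n y g z - z ∈ Bd Γ n f N := by
  induction z using FreeAlgebra.induction with
  | grade0 r =>
    rw [AlgHom.commutes, sub_self]
    exact Submodule.zero_mem _
  | grade1 j =>
    have h1 : phi Γ n y g (FreeAlgebra.ι Γ j) =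
        xx Γ j + (xx Γ j * y - y * xx Γ j) * g := by
      unfold phi
      rw [FreeAlgebra.lift_ι_apply]
    rw [h1]
    have h2 : xx Γ j + (xx Γ j * y - y * xx Γ j) * g - FreeAlgebra.ι Γ j =
        (xx Γ j * y - y * xx Γ j) * g := by
      unfold xx
      abel
    rw [h2]
    exact Bd_right Γ n f N g (Submodule.sub_mem _ (Bd_left Γ n f N _ hy) (Bd_right Γ n f N _ hy))
  | mul a b ha hb =>
    have h1 : phi Γ n y g (a * b) - a * b =
        phi Γ n y g a * (phi Γ n y g b - b) + (phi Γ n y g a - a) * b := by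
      rw [map_mul, mul_sub, sub_mul]
      abel
    rw [h1]
    exact Submodule.add_mem _ (Bd_left Γ n f N _ hb) (Bd_right Γ n f N _ ha)
  | add a b ha hb =>
    have h1 : phi Γ n y g (a + b) - (a + b) = (phi Γ n y g a - a) + (phi Γ n y g b - b) := by
      rw [map_add]
      abel
    rw [h1]
    exact Submodule.add_mem _ ha hb

end Pool.Agent.H.MP_f5ceca_al.N
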