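import Pool.Agent.H.MP_f5ceca_al.N.CoeffA

/-!
Extension of the ideal `T` to a commutative `K`-algebra.
-/

namespace Pool.Agent.H.MP_f5ceca_al.N

universe u v

variable {K : Type u} [Field K] (Γ : Type v) [CommRing Γ] [Algebra K Γ] (n : ℕ)

/-- the ideal `T` extended to `Γ` -/
noncomputable def TG (T : Submodule K (FA K n)) : Submodule Γ (FA Γ n) :=
  Submodule.span Γ (mapF Γ n '' (T : Set (FA K n)))

/-- elements of `TG` are finite sums -/
theorem mem_TG_iff (T : Submodule K (FA K n)) {t : FA Γ n} (ht : t ∈ TG Γ n T) :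
    ∃ (m : ℕ) (γ : Fin m → Γ) (z : Fin m → FA K n), (∀ i, z i ∈ T) ∧
      t = ∑ i, γ i • mapF Γ n (z i) := by
  obtain ⟨m, f, g, h⟩ := Submodule.mem_span_set'.mp ht
  choose z hz hz' using fun i => (g i).2
  refine ⟨m, f, z, fun i => hz i, ?_⟩
  rw [← h]
  refine Finset.sum_congr rfl fun i _ => ?_
  rw [hz']

/-- An element of `T_Γ ∩ Fil k` is a combination of elements of `T ∩ Fil k`.

PROOF. Let `(e_i)` be a `K`-basis of `Γ` with coordinate forms `l_i`, and `lF_i` as in `exists_lam`. Every `t ∈ FA Γ n` is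
`∑ e_i • mapF (lF_i t)` (finite sum; check for `t = γ • mapF z`). If `t ∈ T_Γ` then `lF_i t ∈ T` (check for `γ • mapF z`, `z ∈ T`), and if
`t ∈ Fil k` then `sym i' (lF_i t) = lZ (sym i' t) = 0` for `i' < k` (`sym_eq_zero`, `Fil_antitone`), so `lF_i t ∈ Fil k` by
`mem_Fil_of_sym`. -/
theorem mem_TG_inf_Fil (T : Submodule K (FA K n)) (k : ℕ) {t : FA Γ n} (ht : t ∈ TG Γ n T)
    (htk : t ∈ Fil Γ n k) :
    t ∈ Submodule.span Γ (mapF Γ n '' ((T ⊓ Fil K n k : Submodule K (FA K n)) : Set (FA K n))) := by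
  classical
  let e := Module.Basis.ofVectorSpace K Γ
  choose lF lZ h1 h2 h3 using fun i => exists_lam (K := K) Γ n (e.coord i)
  obtain ⟨m, γ, z, hz, rfl⟩ := mem_TG_iff Γ n T ht
  set t : FA Γ n := ∑ i, γ i • mapF Γ n (z i) with htdef
  have hlF : ∀ i, lF i t = ∑ j, e.coord i (γ j) • z j := by
    intro i
    rw [htdef, map_sum]
    exact Finset.sum_congr rfl fun j _ => h1 i _ _
  have hT : ∀ i, lF i t ∈ T := by
    intro i
    rw [hlF]
    exact T.sum_mem fun j _ => T.smul_mem _ (hz j)
  have hk : ∀ i, lF i t ∈ Fil K n k := by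
    intro i
    refine mem_Fil_of_sym K n k _ fun i' hi' => ?_
    rw [← h3, sym_eq_zero Γ n i' (Fil_antitone Γ n hi' htk), map_zero]
  let s : Finset (Module.Basis.ofVectorSpaceIndex K Γ) :=
    Finset.univ.biUnion fun j : Fin m => (e.repr (γ j)).support
  have hsum : t = ∑ i ∈ s, e i • mapF Γ n (lF i t) := by
    have h4 : ∀ j, γ j = ∑ i ∈ s, e.coord i (γ j) • e i := by
      intro j
      have := e.linearCombination_repr (γ j)
      rw [Finsupp.linearCombination_apply, Finsupp.sum_of_support_subset _ (s := s)] at this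
      · exact this.symm
      · exact Finset.subset_biUnion_of_mem (fun j : Fin m => (e.repr (γ j)).support)
          (Finset.mem_univ j)
      · intro i _
        exact zero_smul _ _
    have h5 : ∀ i, mapF Γ n (lF i t) = ∑ j, e.coord i (γ j) • mapF Γ n (z j) := by
      intro i
      rw [hlF, map_sum]
      exact Finset.sum_congr rfl fun j _ => map_smul _ _ _
    calc t = ∑ j, γ j • mapF Γ n (z j) := htdef
      _ = ∑ j, ∑ i ∈ s, e i • (e.coord i (γ j) • mapF Γ n (z j)) := by
          refine Finset.sum_congr rfl fun j _ => ?_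
          conv_lhs => rw [h4 j]
          rw [Finset.sum_smul]
          refine Finset.sum_congr rfl fun i _ => ?_
          rw [smul_assoc, smul_comm]
      _ = ∑ i ∈ s, e i • mapF Γ n (lF i t) := by
          rw [Finset.sum_comm]
          refine Finset.sum_congr rfl fun i _ => ?_
          rw [h5, Finset.smul_sum]
  rw [hsum]
  refine Submodule.sum_mem _ fun i _ => Submodule.smul_mem _ _ (Submodule.subset_span ?_)
  exact ⟨_, Submodule.mem_inf.mpr ⟨hT i, hk i⟩, rfl⟩

theorem span_mapF_top : Submodule.span Γ (Set.range (mapF (K := K) Γ n)) = ⊤ := by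
  rw [eq_top_iff]
  rintro t -
  induction t using FreeAlgebra.induction with
  | grade0 r =>
    rw [Algebra.algebraMap_eq_smul_one]
    exact Submodule.smul_mem _ _ (Submodule.subset_span ⟨1, map_one _⟩)
  | grade1 i =>
    refine Submodule.subset_span ⟨xx K i, ?_⟩
    simp [mapF, xx]
  | add a b ha hb => exact Submodule.add_mem _ ha hb
  | mul a b ha hb =>
    induction ha using Submodule.span_induction with
    | zero => rw [zero_mul]; exact Submodule.zero_mem _
    | add x y _ _ hx hy => rw [add_mul]; exact Submodule.add_mem _ hx hy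
    | smul c x _ hx => rw [smul_mul_assoc]; exact Submodule.smul_mem _ _ hx
    | mem x hx =>
      obtain ⟨x, rfl⟩ := hx
      induction hb using Submodule.span_induction with
      | zero => rw [mul_zero]; exact Submodule.zero_mem _
      | add y z _ _ hy hz => rw [mul_add]; exact Submodule.add_mem _ hy hz
      | smul c y _ hy => rw [mul_smul_comm]; exact Submodule.smul_mem _ _ hy
      | mem y hy =>
        obtain ⟨y, rfl⟩ := hy
        exact Submodule.subset_span ⟨x * y, map_mul _ _ _⟩

theorem TG_left (T : Submodule K (FA K n)) (hT : ∀ a, ∀ z ∈ T, a * z ∈ T) (a : FA Γ n)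
    {z : FA Γ n} (hz : z ∈ TG Γ n T) : a * z ∈ TG Γ n T := by
  have ha : a ∈ Submodule.span Γ (Set.range (mapF (K := K) Γ n)) := by
    rw [span_mapF_top]; trivial
  induction ha using Submodule.span_induction with
  | zero => rw [zero_mul]; exact Submodule.zero_mem _
  | add x y _ _ hx hy => rw [add_mul]; exact Submodule.add_mem _ hx hy
  | smul c x _ hx => rw [smul_mul_assoc]; exact Submodule.smul_mem _ _ hx
  | mem x hx =>
    obtain ⟨x, rfl⟩ := hx
    unfold TG at hz
    induction hz using Submodule.span_induction with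
    | zero => rw [mul_zero]; exact Submodule.zero_mem _
    | add y z _ _ hy hz => rw [mul_add]; exact Submodule.add_mem _ hy hz
    | smul c y _ hy => rw [mul_smul_comm]; exact Submodule.smul_mem _ _ hy
    | mem y hy =>
      obtain ⟨y, hy, rfl⟩ := hy
      exact Submodule.subset_span ⟨x * y, hT x y hy, map_mul _ _ _⟩

theorem TG_right (T : Submodule K (FA K n)) (hT : ∀ a, ∀ z ∈ T, z * a ∈ T) (a : FA Γ n)
    {z : FA Γ n} (hz : z ∈ TG Γ n T) : z * a ∈ TG Γ n T := by
  have ha : a ∈ Submodule.span Γ (Set.range (mapF (K := K) Γ n)) := by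
    rw [span_mapF_top]; trivial
  induction ha using Submodule.span_induction with
  | zero => rw [mul_zero]; exact Submodule.zero_mem _
  | add x y _ _ hx hy => rw [mul_add]; exact Submodule.add_mem _ hx hy
  | smul c x _ hx => rw [mul_smul_comm]; exact Submodule.smul_mem _ _ hx
  | mem x hx =>
    obtain ⟨x, rfl⟩ := hx
    unfold TG at hz
    induction hz using Submodule.span_induction with
    | zero => rw [zero_mul]; exact Submodule.zero_mem _
    | add y z _ _ hy hz => rw [add_mul]; exact Submodule.add_mem _ hy hz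
    | smul c y _ hy => rw [smul_mul_assoc]; exact Submodule.smul_mem _ _ hy
    | mem y hy =>
      obtain ⟨y, hy, rfl⟩ := hy
      exact Submodule.subset_span ⟨y * x, hT x y hy, map_mul _ _ _⟩

theorem mapF_xx (j : Fin n) : mapF (K := K) Γ n (xx K j) = xx Γ j := by
  simp [mapF, xx]

theorem Com_le_TG : Com Γ n ≤ TG Γ n (Com K n) := by
  rw [Com_eq, Submodule.span_le]
  rintro z ⟨a, b, i, j, rfl⟩
  refine TG_right Γ n _ (fun a z hz => Com_right K a hz) _
    (TG_left Γ n _ (fun a z hz => Com_left K a hz) _ ?_)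
  refine Submodule.subset_span ⟨xx K i * xx K j - xx K j * xx K i, ?_, ?_⟩
  · exact Submodule.subset_span ⟨1, 1, xx K i, xx K j, by rw [one_mul, mul_one]⟩
  · rw [map_sub, map_mul, map_mul, mapF_xx, mapF_xx]

open scoped TensorProduct

/-- the algebra map `z ⊗ γ ↦ γ • mapF z` -/
noncomputable def psi : FA K n ⊗[K] Γ →ₐ[K] FA Γ n :=
  Algebra.TensorProduct.lift (mapF Γ n) ((Algebra.ofId Γ (FA Γ n)).restrictScalars K)
    (fun x y => by
      change Commute _ (algebraMap Γ (FA Γ n) y)
      exact (Algebra.commutes y _).symm)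

theorem psi_tmul (z : FA K n) (γ : Γ) : psi Γ n (z ⊗ₜ[K] γ) = γ • mapF Γ n z := by
  unfold psi
  rw [Algebra.TensorProduct.lift_tmul]
  change _ * algebraMap Γ (FA Γ n) γ = _
  rw [← Algebra.commutes, Algebra.smul_def]

theorem psi_mem (U : Submodule K (FA K n)) {w : FA K n ⊗[K] Γ} (hw : w ∈ extS Γ U) :
    psi Γ n w ∈ TG Γ n U := by
  unfold extS at hw
  induction hw using Submodule.span_induction with
  | zero => rw [map_zero]; exact Submodule.zero_mem _
  | add x y _ _ hx hy => rw [map_add]; exact Submodule.add_mem _ hx hy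
  | smul c x _ hx =>
    rw [map_smul, ← algebraMap_smul Γ c]
    exact Submodule.smul_mem _ _ hx
  | mem x hx =>
    obtain ⟨u, hu, γ, rfl⟩ := hx
    rw [psi_tmul]
    exact Submodule.smul_mem _ _ (Submodule.subset_span ⟨u, hu, rfl⟩)

theorem exists_psi (U : Submodule K (FA K n)) {t : FA Γ n} (ht : t ∈ TG Γ n U) :
    ∃ w ∈ extS Γ U, psi Γ n w = t := by
  obtain ⟨m, γ, z, hz, rfl⟩ := mem_TG_iff Γ n U ht
  refine ⟨∑ i, z i ⊗ₜ[K] γ i, Submodule.sum_mem _ fun i _ =>
    Submodule.subset_span ⟨z i, hz i, γ i, rfl⟩, ?_⟩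
  rw [map_sum]
  exact Finset.sum_congr rfl fun i _ => psi_tmul Γ n _ _

/-- `T_Γ` is operator-stable.

PROOF. Left and right multiplication: every element of `FA Γ n` is a combination of elements `mapF a`. Operators: it is
enough to treat `mapF z`, `z ∈ T`. Write `c j ∈ Com Γ n` as `∑ γ • mapF (c')`, `c' ∈ Com K n`. Apply `scalar_ext` with `Q = FA K n`,
`f = z`, `a j = xx j`, `U j = Com K n`, `W = T` and the algebra map `FA K n ⊗ Γ → FA Γ n`, `z ⊗ γ ↦ γ • mapF z`, which sends
`extS Γ T` into `T_Γ`. -/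
theorem TG_isOp [Infinite K] (T : Submodule K (FA K n)) (hT : IsOp K n T) :
    IsOp Γ n (TG Γ n T) := by
  refine ⟨fun a z hz => TG_left Γ n T hT.left a hz, fun a z hz => TG_right Γ n T hT.right a hz,
    fun c hc z hz => ?_⟩
  unfold TG at hz
  induction hz using Submodule.span_induction with
  | zero => rw [map_zero]; exact Submodule.zero_mem _
  | add x y _ _ hx hy => rw [map_add]; exact Submodule.add_mem _ hx hy
  | smul γ x _ hx => rw [map_smul]; exact Submodule.smul_mem _ _ hx
  | mem x hx =>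
    obtain ⟨z, hz, rfl⟩ := hx
    choose w hw hw' using fun j => exists_psi Γ n (Com K n) (Com_le_TG Γ n (hc j))
    have key := scalar_ext (Γ := Γ) z (fun j => xx K j) (fun _ => Com K n) T
      (fun u hu => hT.op u hu z hz) w hw
    have h1 := psi_mem Γ n T key
    have h2 : psi Γ n (FreeAlgebra.lift K (fun i => xx K i ⊗ₜ[K] (1 : Γ) + w i) z) =
        FreeAlgebra.lift Γ (fun j => xx Γ j + c j) (mapF Γ n z) := by
      have h3 : (psi Γ n).comp (FreeAlgebra.lift K (fun i => xx K i ⊗ₜ[K] (1 : Γ) + w i)) =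
          ((FreeAlgebra.lift Γ (fun j => xx Γ j + c j)).restrictScalars K).comp (mapF Γ n) := by
        refine FreeAlgebra.hom_ext ?_
        funext j
        simp only [Function.comp_apply, AlgHom.comp_apply, FreeAlgebra.lift_ι_apply, map_add,
          psi_tmul, one_smul, hw', mapF_xx, AlgHom.restrictScalars_apply]
        have h4 : mapF (K := K) Γ n (FreeAlgebra.ι K j) = FreeAlgebra.ι Γ j := mapF_xx Γ n j
        rw [h4, FreeAlgebra.lift_ι_apply]
      exact DFunLike.congr_fun h3 z
    rw [← h2]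
    exact h1

end Pool.Agent.H.MP_f5ceca_al.N
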