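import Pool.Agent.H.MP_f5ceca_al.N.ScalarExt
import Pool.Agent.H.MP_f5ceca_al.N.Lewin

/-!
Extension of the base field `K` to a commutative `K`-algebra `Γ`.
-/

namespace Pool.Agent.H.MP_f5ceca_al.N

universe u v

variable {K : Type u} [Field K] (Γ : Type v) [CommRing Γ] [Algebra K Γ] (n : ℕ)

/-- the inclusion of the free algebras -/
noncomputable def mapF : FA K n →ₐ[K] FA Γ n := FreeAlgebra.lift K (xx Γ)

noncomputable def mapX (k : ℕ) : RX K n k →+* RX Γ n k := MvPolynomial.map (algebraMap K Γ)

noncomputable def mapZ (k : ℕ) : RZ K n k →+* RZ Γ n k := MvPolynomial.map (mapX Γ n k)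

theorem mapX_algebraMap (k : ℕ) (r : K) :
    mapX Γ n k (MvPolynomial.C r) = MvPolynomial.C (algebraMap K Γ r) := by
  simp [mapX]

theorem mapZ_algebraMap (k : ℕ) (r : K) :
    mapZ Γ n k (algebraMap K (RZ K n k) r) = algebraMap Γ (RZ Γ n k) (algebraMap K Γ r) := by
  have h1 : algebraMap K (RZ K n k) r = MvPolynomial.C (MvPolynomial.C r) := rfl
  have h2 : algebraMap Γ (RZ Γ n k) (algebraMap K Γ r)
      = MvPolynomial.C (MvPolynomial.C (algebraMap K Γ r)) := rfl
  rw [h1, h2, mapZ, MvPolynomial.map_C, mapX_algebraMap]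

theorem mapZ_gen (k : ℕ) (j : Fin n) :
    (mapZ Γ n k).mapMatrix (gen K n k j) = gen Γ n k j := by
  ext1 a b
  simp only [RingHom.mapMatrix_apply, Matrix.map_apply, gen]
  split_ifs with h1 h2
  · simp [mapZ, gX, mapX]
  · simp [mapZ]
  · simp

theorem tau_mapF (k : ℕ) (z : FA K n) :
    tau Γ n k (mapF Γ n z) = (mapZ Γ n k).mapMatrix (tau K n k z) := by
  induction z using FreeAlgebra.induction with
  | grade0 r =>
    rw [AlgHom.commutes, AlgHom.commutes]
    have h1 : algebraMap K (FA Γ n) r = algebraMap Γ (FA Γ n) (algebraMap K Γ r) := rfl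
    rw [h1, AlgHom.commutes]
    ext1 a b
    simp only [RingHom.mapMatrix_apply, Matrix.map_apply, Matrix.algebraMap_matrix_apply]
    split_ifs with h
    · rw [mapZ_algebraMap]
    · simp
  | grade1 x =>
    have h1 : mapF Γ n (FreeAlgebra.ι K x) = FreeAlgebra.ι Γ x := by
      simp [mapF, xx]
    rw [h1]
    simp only [tau, FreeAlgebra.lift_ι_apply]
    rw [mapZ_gen]
  | mul a b ha hb => rw [map_mul, map_mul, map_mul, map_mul, ha, hb]
  | add a b ha hb => rw [map_add, map_add, map_add, map_add, ha, hb]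

theorem sym_mapF (k : ℕ) (z : FA K n) : sym Γ n k (mapF Γ n z) = mapZ Γ n k (sym K n k z) := by
  change tau Γ n k (mapF Γ n z) 0 (Fin.last k) = mapZ Γ n k (tau K n k z 0 (Fin.last k))
  rw [tau_mapF]
  rfl

/-- coefficientwise action on a polynomial ring -/
noncomputable def coefL {σ : Type} {R : Type u} {S : Type v} [CommRing R] [CommRing S]
    [Algebra K R] [Algebra K S] (l : S →ₗ[K] R) : MvPolynomial σ S →ₗ[K] MvPolynomial σ R :=
  (((MvPolynomial.basisMonomials σ R).repr.symm.toLinearMap.restrictScalars K) ∘ₗ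
    (Finsupp.mapRange.linearMap l)) ∘ₗ
    ((MvPolynomial.basisMonomials σ S).repr.toLinearMap.restrictScalars K)

theorem coefL_monomial {σ : Type} {R : Type u} {S : Type v} [CommRing R] [CommRing S]
    [Algebra K R] [Algebra K S] (l : S →ₗ[K] R) (m : σ →₀ ℕ) (s : S) :
    coefL (σ := σ) l (MvPolynomial.monomial m s) = MvPolynomial.monomial m (l s) := by
  have h2 : ∀ {T : Type _} [CommRing T] (t : T),
      (MvPolynomial.basisMonomials σ T).repr.symm (Finsupp.single m t)
      = MvPolynomial.monomial m t := by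
    intro T _ t
    rw [Module.Basis.repr_symm_apply, Finsupp.linearCombination_single,
      MvPolynomial.coe_basisMonomials, MvPolynomial.smul_monomial, smul_eq_mul, mul_one]
  have h1 : (MvPolynomial.basisMonomials σ S).repr (MvPolynomial.monomial m s)
      = Finsupp.single m s := by
    rw [← h2, LinearEquiv.apply_symm_apply]
  have h3 : (MvPolynomial.basisMonomials σ R).repr.symm (Finsupp.single m (l s))
      = MvPolynomial.monomial m (l s) := by
    rw [Module.Basis.repr_symm_apply, Finsupp.linearCombination_single,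
      MvPolynomial.coe_basisMonomials, MvPolynomial.smul_monomial, smul_eq_mul, mul_one]
  change (MvPolynomial.basisMonomials σ R).repr.symm (Finsupp.mapRange.linearMap l
    ((MvPolynomial.basisMonomials σ S).repr (MvPolynomial.monomial m s))) = _
  rw [h1, ← h3]
  simp

/-- coefficientwise action on the free algebra -/
noncomputable def coefF (l : Γ →ₗ[K] K) : FA Γ n →ₗ[K] FA K n :=
  (((FreeAlgebra.basisFreeMonoid K (Fin n)).repr.symm.toLinearMap.restrictScalars K) ∘ₗ
    (Finsupp.mapRange.linearMap l)) ∘ₗ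
    ((FreeAlgebra.basisFreeMonoid Γ (Fin n)).repr.toLinearMap.restrictScalars K)

theorem basis_apply (R : Type v) [CommRing R] (w : FreeMonoid (Fin n)) :
    FreeAlgebra.basisFreeMonoid R (Fin n) w = FreeMonoid.lift (FreeAlgebra.ι R) w := by
  change FreeAlgebra.equivMonoidAlgebraFreeMonoid.symm
    ((MonoidAlgebra.coeffLinearEquiv R).symm (Finsupp.single w 1)) = _
  have h : (MonoidAlgebra.coeffLinearEquiv R).symm (Finsupp.single w (1 : R))
      = MonoidAlgebra.of R (FreeMonoid (Fin n)) w := rfl
  rw [h]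
  change MonoidAlgebra.lift R (FreeAlgebra R (Fin n)) (FreeMonoid (Fin n))
    (FreeMonoid.lift (FreeAlgebra.ι R)) (MonoidAlgebra.of R (FreeMonoid (Fin n)) w) = _
  rw [MonoidAlgebra.lift_of]

theorem mapF_basis (w : FreeMonoid (Fin n)) :
    mapF Γ n (FreeAlgebra.basisFreeMonoid K (Fin n) w)
      = FreeAlgebra.basisFreeMonoid Γ (Fin n) w := by
  rw [basis_apply, basis_apply]
  have h : ((mapF Γ n : FA K n →ₐ[K] FA Γ n) : FA K n →* FA Γ n).comp
      (FreeMonoid.lift (FreeAlgebra.ι K)) = FreeMonoid.lift (FreeAlgebra.ι Γ) := by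
    ext x
    simp [mapF, xx]
  exact DFunLike.congr_fun h w

theorem coefF_basis (l : Γ →ₗ[K] K) (w : FreeMonoid (Fin n)) (γ : Γ) :
    coefF Γ n l (γ • FreeAlgebra.basisFreeMonoid Γ (Fin n) w)
      = l γ • FreeAlgebra.basisFreeMonoid K (Fin n) w := by
  change (FreeAlgebra.basisFreeMonoid K (Fin n)).repr.symm (Finsupp.mapRange.linearMap l
    ((FreeAlgebra.basisFreeMonoid Γ (Fin n)).repr
      (γ • FreeAlgebra.basisFreeMonoid Γ (Fin n) w))) = _
  rw [map_smul, Module.Basis.repr_self, Finsupp.smul_single, smul_eq_mul, mul_one]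
  have h : Finsupp.mapRange.linearMap l (Finsupp.single w γ) = Finsupp.single w (l γ) := by
    simp
  rw [h, Module.Basis.repr_symm_apply, Finsupp.linearCombination_single]

theorem coefF_mapF (l : Γ →ₗ[K] K) (γ : Γ) (z : FA K n) :
    coefF Γ n l (γ • mapF Γ n z) = l γ • z := by
  have hz := (FreeAlgebra.basisFreeMonoid K (Fin n)).repr.symm_apply_apply z
  rw [← hz]
  generalize (FreeAlgebra.basisFreeMonoid K (Fin n)).repr z = f
  induction f using Finsupp.induction_linear with
  | zero => simp
  | add f g hf hg => rw [map_add, map_add, smul_add, map_add, hf, hg, smul_add]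
  | single w c =>
    rw [Module.Basis.repr_symm_apply, Finsupp.linearCombination_single, map_smul (mapF Γ n),
      mapF_basis, smul_comm γ c, map_smul (coefF Γ n l) c, coefF_basis, smul_comm c (l γ)]

theorem span_mapF (z : FA Γ n) {p : FA Γ n → Prop} (h0 : p 0) (ha : ∀ x y, p x → p y → p (x + y))
    (h : ∀ (γ : Γ) (y : FA K n), p (γ • mapF Γ n y)) : p z := by
  have hz := (FreeAlgebra.basisFreeMonoid Γ (Fin n)).repr.symm_apply_apply z
  rw [← hz]
  generalize (FreeAlgebra.basisFreeMonoid Γ (Fin n)).repr z = f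
  induction f using Finsupp.induction_linear with
  | zero => simpa using h0
  | add f g hf hg => rw [map_add]; exact ha _ _ hf hg
  | single w c =>
    rw [Module.Basis.repr_symm_apply, Finsupp.linearCombination_single,
      ← mapF_basis (K := K)]
    exact h _ _

theorem coefX_map (l : Γ →ₗ[K] K) (k : ℕ) (γ : Γ) (u : RX K n k) :
    coefL (σ := Fin (k + 1) × Fin n) l (γ • mapX Γ n k u) = l γ • u := by
  induction u using MvPolynomial.induction_on' with
  | monomial m c =>
    rw [mapX, MvPolynomial.map_monomial, MvPolynomial.smul_monomial, coefL_monomial,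
      MvPolynomial.smul_monomial]
    congr 1
    rw [smul_eq_mul, mul_comm, ← Algebra.smul_def, map_smul, smul_eq_mul, smul_eq_mul, mul_comm]
  | add f g hf hg => rw [map_add, smul_add, map_add, hf, hg, smul_add]

theorem coefZ_map (l : Γ →ₗ[K] K) (k : ℕ) (γ : Γ) (u : RZ K n k) :
    coefL (σ := Fin k × Fin n) (coefL (σ := Fin (k + 1) × Fin n) l) (γ • mapZ Γ n k u)
      = l γ • u := by
  induction u using MvPolynomial.induction_on' with
  | monomial m c =>
    rw [mapZ, MvPolynomial.map_monomial, MvPolynomial.smul_monomial, coefL_monomial,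
      MvPolynomial.smul_monomial, coefX_map]
  | add f g hf hg => rw [map_add, smul_add, map_add, hf, hg, smul_add]

/-- A `K`-linear form on `Γ` acts on coefficients.

PROOF. On polynomial rings it acts coefficientwise (`Finsupp.mapRange` twice); on the free algebra use the basis of
words (`FreeAlgebra.basisFreeMonoid`, `FreeAlgebra.equivMonoidAlgebraFreeMonoid`). The last property is checked on the elements
`γ • mapF z` which span. -/
theorem exists_lam (l : Γ →ₗ[K] K) : ∃ (lF : FA Γ n →ₗ[K] FA K n)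
    (lZ : ∀ k, RZ Γ n k →ₗ[K] RZ K n k),
    (∀ γ z, lF (γ • mapF Γ n z) = l γ • z) ∧
    (∀ k γ u, lZ k (γ • mapZ Γ n k u) = l γ • u) ∧
    ∀ k z, lZ k (sym Γ n k z) = sym K n k (lF z) := by
  refine ⟨coefF Γ n l, fun k => coefL (coefL l), coefF_mapF Γ n l, fun k => coefZ_map Γ n l k, ?_⟩
  intro k z
  refine span_mapF (K := K) Γ n z (p := fun z => coefL (σ := Fin k × Fin n)
    (coefL (σ := Fin (k + 1) × Fin n) l) (sym Γ n k z) = sym K n k (coefF Γ n l z)) ?_ ?_ ?_
  · simp
  · intro x y hx hy
    rw [map_add, map_add, map_add, map_add, hx, hy]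
  · intro γ y
    rw [map_smul, sym_mapF, coefZ_map, coefF_mapF, map_smul]

end Pool.Agent.H.MP_f5ceca_al.N
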