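import Mathlib

/-!
NMREP: basic definitions (identities, varieties, commutator filtration of the free algebra, the
generic upper triangular representation).
-/

namespace Pool.Agent.H.MP_f5ceca_al.N

universe u v

section identities

variable {K : Type u} [Field K]

/-- The (not necessarily unital) associative `K`-algebra `A` satisfies the polynomial identity
`f = 0`; the value of `f` is computed in the unitization of `A`. -/
def IsIdentity {X : Type} (f : FreeAlgebra K X) (A : Type u)
    [NonUnitalRing A] [Module K A] [IsScalarTower K A A] [SMulCommClass K A A] : Prop :=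
  ∀ w : X → A, FreeAlgebra.lift K (fun i => ((w i : A) : Unitization K A)) f = 0

/-- `A` belongs to the variety given by the set `S` of identities. -/
def Satisfies (S : Set (FreeAlgebra K ℕ)) (A : Type u)
    [NonUnitalRing A] [Module K A] [IsScalarTower K A A] [SMulCommClass K A A] : Prop :=
  ∀ f ∈ S, IsIdentity f A

/-- The identities in `k` variables of the variety given by `S`. -/
def identities (S : Set (FreeAlgebra K ℕ)) (k : ℕ) :
    Set (FreeAlgebra K (Fin k)) :=
  {f | ∀ (A : Type u) [NonUnitalRing A] [Module K A] [IsScalarTower K A A]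
    [SMulCommClass K A A], Satisfies S A → IsIdentity f A}

end identities

section free

variable (Γ : Type v) [CommRing Γ] (n : ℕ)

/-- the free algebra on `x_0, …, x_{n-1}` -/
abbrev FA : Type v := FreeAlgebra Γ (Fin n)

variable {Γ n}

/-- the letter `x_j` -/
def xx (Γ : Type v) [CommRing Γ] {n : ℕ} (j : Fin n) : FA Γ n := FreeAlgebra.ι Γ j

variable (Γ n)

/-- the augmentation ideal (elements without constant term) -/
def Aug : Submodule Γ (FA Γ n) :=
  LinearMap.ker (FreeAlgebra.algebraMapInv : FA Γ n →ₐ[Γ] Γ).toLinearMap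

/-- the commutator ideal -/
def Com : Submodule Γ (FA Γ n) :=
  Submodule.span Γ {z | ∃ a b p q : FA Γ n, z = a * (p * q - q * p) * b}

/-- the commutator filtration: `Fil 0` is everything, `Fil k` is the `k`-th power of `Com` -/
def Fil (k : ℕ) : Submodule Γ (FA Γ n) := ⊤ * (Com Γ n) ^ k

/-- the polynomial ring in the gap variables `X(a,j)`, `a ≤ k` -/
abbrev RX (k : ℕ) : Type v := MvPolynomial (Fin (k + 1) × Fin n) Γ

/-- the polynomial ring in the gap variables `X(a,j)` and the jump variables `ξ(a,j)`, `a < k` -/
abbrev RZ (k : ℕ) : Type v := MvPolynomial (Fin k × Fin n) (RX Γ n k)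

/-- the gap variable -/
noncomputable def gX (k : ℕ) (a : Fin (k + 1)) (j : Fin n) : RX Γ n k := MvPolynomial.X (a, j)

/-- the generic upper triangular matrix of the letter `x_j` -/
noncomputable def gen (k : ℕ) (j : Fin n) : Matrix (Fin (k + 1)) (Fin (k + 1)) (RZ Γ n k) :=
  fun a b => if a = b then MvPolynomial.C (gX Γ n k a j)
    else if h : (a : ℕ) + 1 = b then MvPolynomial.X (⟨a, by have := b.2; omega⟩, j) else 0

/-- the generic upper triangular representation with `k + 1` diagonal blocks -/
noncomputable def tau (k : ℕ) : FA Γ n →ₐ[Γ] Matrix (Fin (k + 1)) (Fin (k + 1)) (RZ Γ n k) :=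
  FreeAlgebra.lift Γ (gen Γ n k)

/-- the symbol of level `k`: the upper right corner of the generic representation -/
noncomputable def sym (k : ℕ) : FA Γ n →ₗ[Γ] RZ Γ n k where
  toFun z := tau Γ n k z 0 (Fin.last k)
  map_add' x y := by simp
  map_smul' c x := by simp

/-- the ideal generated by `f_j(x_j)^N` -/
def Bd (f : Fin n → Polynomial Γ) (N : ℕ) : Submodule Γ (FA Γ n) :=
  Submodule.span Γ {z | ∃ (a b : FA Γ n) (j : Fin n),
    z = a * Polynomial.aeval (xx Γ j) (f j) ^ N * b}

/-- Ideals of the free algebra which are stable under the operators used in the proof. -/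
structure IsOp (T : Submodule Γ (FA Γ n)) : Prop where
  left : ∀ a, ∀ z ∈ T, a * z ∈ T
  right : ∀ a, ∀ z ∈ T, z * a ∈ T
  op : ∀ c : Fin n → FA Γ n, (∀ j, c j ∈ Com Γ n) → ∀ z ∈ T,
    FreeAlgebra.lift Γ (fun j => xx Γ j + c j) z ∈ T

end free

end Pool.Agent.H.MP_f5ceca_al.N
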