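import Pool.Agent.H.MP_f5ceca_al.N.ScalarExt

/-!
Elements of an ideal which satisfies the identities of a nonmatrix variety commute on simple modules.
-/

namespace Pool.Agent.H.MP_f5ceca_al.N

universe u v w

/-- A division ring `D` which is a `K`-algebra has a maximal commutative subalgebra: a commutative
subalgebra `Φ` such that every element commuting with all of `Φ` is in `Φ`. (No division needed.)

PROOF. Zorn for the commutative subalgebras (`⊥` is one; unions of chains). If `d` commutes with all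
of `Φ` then `Algebra.adjoin K (Φ ∪ {d})` is commutative, hence equal to `Φ`. -/
theorem exists_maximal_comm (K : Type u) [Field K] (D : Type v) [Ring D] [Algebra K D] :
    ∃ Φ : Subalgebra K D, (∀ a ∈ Φ, ∀ b ∈ Φ, a * b = b * a) ∧
      ∀ d : D, (∀ a ∈ Φ, a * d = d * a) → d ∈ Φ := by
  obtain ⟨S, hS⟩ := zorn_subset {S : Set D | ∀ a ∈ S, ∀ b ∈ S, a * b = b * a} (by
    intro c hc hch
    refine ⟨⋃₀ c, ?_, fun s hs => Set.subset_sUnion_of_mem hs⟩
    rintro a ⟨s, hs, ha⟩ b ⟨t, ht, hb⟩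
    rcases hch.total hs ht with h | h
    · exact hc ht a (h ha) b hb
    · exact hc hs a ha b (h hb))
  have hS1 : ∀ a ∈ S, ∀ b ∈ S, a * b = b * a := hS.prop
  have key : ∀ d : D, (∀ a ∈ S, a * d = d * a) → d ∈ S := by
    intro d hd
    have h1 : insert d S ∈ {S : Set D | ∀ a ∈ S, ∀ b ∈ S, a * b = b * a} := by
      rintro a (rfl | ha) b (rfl | hb)
      · rfl
      · exact (hd b hb).symm
      · exact hd a ha
      · exact hS1 a ha b hb
    exact hS.le_of_ge h1 (Set.subset_insert d S) (Set.mem_insert d S)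
  have hmem : ∀ d : D, d ∈ Subalgebra.centralizer K S ↔ d ∈ S := by
    intro d
    rw [Subalgebra.mem_centralizer_iff]
    exact ⟨key d, fun h a ha => hS1 a ha d h⟩
  refine ⟨Subalgebra.centralizer K S, fun a ha b hb => ?_, fun d hd => ?_⟩
  · exact hS1 a ((hmem a).1 ha) b ((hmem b).1 hb)
  · exact (hmem d).2 (key d fun a ha => hd a ((hmem a).2 ha))

/-- the values of `f` in the unitization, from the augmentation and the values in the algebra -/
theorem Dens_identity {K : Type u} [Field K] {A : Type u} [Ring A] [Algebra K A]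
    (f : FreeAlgebra K ℕ) (w : ℕ → A) (h0 : FreeAlgebra.lift K (fun _ : ℕ => (0 : K)) f = 0)
    (h1 : FreeAlgebra.lift K w f = 0) :
    FreeAlgebra.lift K (fun i => ((w i : A) : Unitization K A)) f = 0 := by
  set z := FreeAlgebra.lift K (fun i => ((w i : A) : Unitization K A)) f with hz
  have e1 : (Unitization.fstHom K A).comp
      (FreeAlgebra.lift K (fun i => ((w i : A) : Unitization K A))) =
      FreeAlgebra.lift K (fun _ : ℕ => (0 : K)) := by
    refine FreeAlgebra.hom_ext (funext fun i => ?_)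
    rw [Function.comp_apply, Function.comp_apply, AlgHom.comp_apply, FreeAlgebra.lift_ι_apply,
      FreeAlgebra.lift_ι_apply]
    rfl
  have e2 : (Unitization.lift (NonUnitalAlgHom.id K A)).comp
      (FreeAlgebra.lift K (fun i => ((w i : A) : Unitization K A))) =
      FreeAlgebra.lift K w := by
    refine FreeAlgebra.hom_ext (funext fun i => ?_)
    simp
  have f1 : z.fst = 0 := by
    have := DFunLike.congr_fun e1 f
    rw [h0] at this
    exact this
  have f2 : Unitization.lift (NonUnitalAlgHom.id K A) z = 0 := by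
    have := DFunLike.congr_fun e2 f
    rw [h1] at this
    exact this
  have f3 : Unitization.lift (NonUnitalAlgHom.id K A) z = algebraMap K A z.fst + z.snd := by
    conv_lhs => rw [← Unitization.inl_fst_add_inr_snd_eq z]
    rw [map_add]
    simp
  rw [f2, f1, map_zero, zero_add] at f3
  exact Unitization.ext f1 f3.symm

section

variable {K : Type u} [Field K] {Λ : Type v} [Ring Λ] [Algebra K Λ]
  {M : Type w} [AddCommGroup M] [Module Λ M] [Module K M] [IsScalarTower K Λ M]

/-- forgetting `Λ`-linearity -/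
def Dens_i : Module.End Λ M →ₐ[K] Module.End K M where
  toFun d := d.restrictScalars K
  map_one' := rfl
  map_mul' _ _ := rfl
  map_zero' := rfl
  map_add' _ _ := rfl
  commutes' _ := rfl

/-- the action of `Λ` by `K`-linear maps -/
def Dens_r : Λ →ₐ[K] Module.End K M := Algebra.lsmul K K M

theorem Dens_r_apply (a : Λ) (x : M) : (Dens_r (K := K) a) x = a • x := rfl

theorem Dens_i_apply (d : Module.End Λ M) (x : M) : (Dens_i (K := K) d) x = d x := rfl

theorem Dens_comm (a : Λ) (d : Module.End Λ M) :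
    Dens_i (K := K) d * Dens_r a = Dens_r a * Dens_i d := by
  refine LinearMap.ext fun x => ?_
  show d (a • x) = a • d x
  exact d.map_smul a x

/-- the operators of `Λ` -/
def Dens_A (K : Type u) [Field K] (Λ : Type v) [Ring Λ] [Algebra K Λ]
    (M : Type w) [AddCommGroup M] [Module Λ M] [Module K M] [IsScalarTower K Λ M] :
    Submodule K (Module.End K M) := LinearMap.range (Dens_r (K := K) (Λ := Λ) (M := M)).toLinearMap

/-- the operators of `B` -/
def Dens_B (M : Type w) [AddCommGroup M] [Module Λ M] [Module K M] [IsScalarTower K Λ M]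
    (B : Submodule K Λ) : Submodule K (Module.End K M) :=
  B.map (Dens_r (K := K) (Λ := Λ) (M := M)).toLinearMap

/-- the operators of `Φ` -/
def Dens_F (Φ : Subalgebra K (Module.End Λ M)) : Submodule K (Module.End K M) :=
  (Subalgebra.toSubmodule Φ).map (Dens_i (K := K) (Λ := Λ) (M := M)).toLinearMap

theorem Dens_mem_A (a : Λ) : Dens_r (K := K) (M := M) a ∈ Dens_A K Λ M := ⟨a, rfl⟩

theorem Dens_mem_F {Φ : Subalgebra K (Module.End Λ M)} {d : Module.End Λ M} (h : d ∈ Φ) :
    Dens_i (K := K) d ∈ Dens_F Φ := ⟨d, h, rfl⟩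

theorem Dens_one_mem_F (Φ : Subalgebra K (Module.End Λ M)) :
    (1 : Module.End K M) ∈ Dens_F Φ := ⟨1, Φ.one_mem, rfl⟩

theorem Dens_mem_L (Φ : Subalgebra K (Module.End Λ M)) (a : Λ) :
    Dens_r (K := K) (M := M) a ∈ Dens_A K Λ M * Dens_F Φ := by
  have := Submodule.mul_mem_mul (Dens_mem_A (K := K) (M := M) a) (Dens_one_mem_F Φ)
  rwa [mul_one] at this

theorem Dens_FA (Φ : Subalgebra K (Module.End Λ M)) :
    Dens_F Φ * Dens_A K Λ M ≤ Dens_A K Λ M * Dens_F Φ := by
  rw [Submodule.mul_le]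
  rintro _ ⟨d, hd, rfl⟩ _ ⟨a, rfl⟩
  show Dens_i (K := K) d * Dens_r a ∈ _
  rw [Dens_comm]
  exact Submodule.mul_mem_mul (Dens_mem_A a) (Dens_mem_F hd)

theorem Dens_FF (Φ : Subalgebra K (Module.End Λ M)) :
    Dens_F Φ * Dens_F Φ ≤ Dens_F Φ := by
  rw [Submodule.mul_le]
  rintro _ ⟨d, hd, rfl⟩ _ ⟨e, he, rfl⟩
  exact ⟨d * e, Φ.mul_mem hd he, rfl⟩

theorem Dens_BA {B : Submodule K Λ} (hr : ∀ a, ∀ b ∈ B, b * a ∈ B) :
    Dens_B M B * Dens_A K Λ M ≤ Dens_B M B := by
  rw [Submodule.mul_le]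
  rintro _ ⟨b, hb, rfl⟩ _ ⟨a, rfl⟩
  exact ⟨b * a, hr a b hb, map_mul (Dens_r (K := K) (M := M)) b a⟩

theorem Dens_BL {B : Submodule K Λ} (hr : ∀ a, ∀ b ∈ B, b * a ∈ B)
    (Φ : Subalgebra K (Module.End Λ M)) :
    (Dens_B M B * Dens_F Φ) * (Dens_A K Λ M * Dens_F Φ) ≤ Dens_B M B * Dens_F Φ := by
  calc (Dens_B M B * Dens_F Φ) * (Dens_A K Λ M * Dens_F Φ)
      = Dens_B M B * (Dens_F Φ * Dens_A K Λ M) * Dens_F Φ := by
        simp only [mul_assoc]
    _ ≤ Dens_B M B * (Dens_A K Λ M * Dens_F Φ) * Dens_F Φ :=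
        mul_le_mul_left (mul_le_mul_right (Dens_FA Φ) _) _
    _ = (Dens_B M B * Dens_A K Λ M) * (Dens_F Φ * Dens_F Φ) := by
        simp only [mul_assoc]
    _ ≤ Dens_B M B * Dens_F Φ := mul_le_mul' (Dens_BA hr) (Dens_FF Φ)

/-- density for two vectors -/
theorem Dens_two [IsSimpleModule Λ M] {Φ : Subalgebra K (Module.End Λ M)}
    (hΦ : ∀ d : Module.End Λ M, (∀ a ∈ Φ, a * d = d * a) → d ∈ Φ)
    {v₁ v₂ : M} (h2 : v₂ ≠ 0) (hv : ∀ d ∈ Φ, d v₂ ≠ v₁) :
    ∃ e ∈ Dens_A K Λ M * Dens_F Φ, e v₂ = 0 ∧ e v₁ ≠ 0 := by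
  by_contra hcon
  have hcon' : ∀ e ∈ Dens_A K Λ M * Dens_F Φ, e v₂ = 0 → e v₁ = 0 := by
    intro e he h
    by_contra h'
    exact hcon ⟨e, he, h, h'⟩
  have hsur : ∀ x : M, ∃ a : Λ, a • v₂ = x := fun x =>
    IsSimpleModule.toSpanSingleton_surjective Λ h2 x
  choose c hc using hsur
  have key : ∀ e ∈ Dens_A K Λ M * Dens_F Φ, c (e v₂) • v₁ = e v₁ := by
    intro e he
    have h1 : (Dens_r (K := K) (M := M) (c (e v₂)) - e) v₂ = 0 := by
      rw [LinearMap.sub_apply, Dens_r_apply, hc, sub_self]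
    have h3 := hcon' _ (Submodule.sub_mem _ (Dens_mem_L Φ _) he) h1
    rw [LinearMap.sub_apply, Dens_r_apply, sub_eq_zero] at h3
    exact h3
  let δ : Module.End Λ M :=
    { toFun := fun x => c x • v₁
      map_add' := by
        intro x y
        have h1 : Dens_r (K := K) (M := M) (c x) + Dens_r (c y) ∈ Dens_A K Λ M * Dens_F Φ :=
          Submodule.add_mem _ (Dens_mem_L Φ _) (Dens_mem_L Φ _)
        have h3 := key _ h1
        rw [LinearMap.add_apply, LinearMap.add_apply, Dens_r_apply, Dens_r_apply, Dens_r_apply,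
          Dens_r_apply, hc, hc] at h3
        exact h3
      map_smul' := by
        intro a x
        have h3 := key _ (Dens_mem_L Φ (a * c x))
        rw [Dens_r_apply, Dens_r_apply, mul_smul, mul_smul, hc] at h3
        exact h3 }
  have hδ : δ ∈ Φ := by
    refine hΦ δ fun d hd => LinearMap.ext fun x => ?_
    have h1 : Dens_i (K := K) d * Dens_r (c x) ∈ Dens_A K Λ M * Dens_F Φ := by
      rw [Dens_comm]
      exact Submodule.mul_mem_mul (Dens_mem_A _) (Dens_mem_F hd)
    have h3 := key _ h1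
    have h4 : (Dens_i (K := K) d * Dens_r (c x) : Module.End K M) v₂ = d x := by
      show d (c x • v₂) = d x
      rw [hc]
    rw [h4] at h3
    show d (c x • v₁) = c (d x) • v₁
    rw [h3]
    rfl
  refine hv δ hδ ?_
  have h3 := key 1 (by
    have := Dens_mem_L (K := K) (M := M) Φ (1 : Λ)
    rwa [map_one] at this)
  exact h3

/-- the inverse of a nonzero element of a maximal commutative subalgebra -/
theorem Dens_inv [IsSimpleModule Λ M] {Φ : Subalgebra K (Module.End Λ M)}
    (hΦ : ∀ d : Module.End Λ M, (∀ a ∈ Φ, a * d = d * a) → d ∈ Φ)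
    (hc : ∀ a ∈ Φ, ∀ b ∈ Φ, a * b = b * a)
    {d : Module.End Λ M} (hd : d ∈ Φ) (h0 : d ≠ 0) : ∃ e ∈ Φ, ∀ x, e (d x) = x := by
  have hb : Function.Bijective d := LinearMap.bijective_of_ne_zero h0
  let E := LinearEquiv.ofBijective d hb
  have h1 : ∀ x, E.symm (d x) = x := fun x => E.symm_apply_apply x
  have h2 : ∀ x, d (E.symm x) = x := fun x => E.apply_symm_apply x
  refine ⟨E.symm.toLinearMap, hΦ _ fun a ha => LinearMap.ext fun x => ?_, h1⟩
  show a (E.symm x) = E.symm (a x)
  apply hb.1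
  rw [h2]
  have h3 := LinearMap.congr_fun (hc d hd a ha) (E.symm x)
  have h4 : d (a (E.symm x)) = a (d (E.symm x)) := h3
  rw [h4, h2]

theorem Dens_aux [Infinite K] (S : Set (FreeAlgebra K ℕ))
    (hS : ¬ Satisfies S (Matrix (Fin 2) (Fin 2) K)) (B : Submodule K Λ)
    (hl : ∀ a, ∀ b ∈ B, a * b ∈ B) (hr : ∀ a, ∀ b ∈ B, b * a ∈ B) [IsSimpleModule Λ M]
    (hB : ∀ f ∈ S, ∀ w : ℕ → Λ, (∀ i, w i ∈ B) → ∀ x : M, FreeAlgebra.lift K w f • x = 0)
    (b b' : Λ) (hb : b ∈ B) (hb' : b' ∈ B) (x : M) : (b * b' - b' * b) • x = 0 := by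
  obtain ⟨Φ, hc, hΦ⟩ := exists_maximal_comm K (Module.End Λ M)
  by_cases hx : x = 0
  · rw [hx, smul_zero]
  by_cases hBM : ∃ b₁ ∈ B, ∃ m : M, b₁ • m ≠ 0
  swap
  · have h1 : ∀ b₁ ∈ B, ∀ m : M, b₁ • m = 0 := by
      intro b₁ h1 m
      by_contra h2
      exact hBM ⟨b₁, h1, m, h2⟩
    rw [sub_smul, mul_smul, mul_smul, h1 b hb (b' • x), h1 b' hb' (b • x), sub_zero]
  obtain ⟨b₁, hb₁, m, hm⟩ := hBM
  have hsur : ∀ v : M, v ≠ 0 → ∀ y : M, ∃ a : Λ, a • v = y := fun v hv y =>
    IsSimpleModule.toSpanSingleton_surjective Λ hv y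
  -- `B' u = M` for `u ≠ 0`
  have hBu : ∀ u : M, u ≠ 0 → ∀ y : M, ∃ β ∈ B, β • u = y := by
    intro u hu y
    obtain ⟨a, ha⟩ := hsur u hu m
    obtain ⟨a', ha'⟩ := hsur _ hm y
    refine ⟨a' * (b₁ * a), hl _ _ (hr _ _ hb₁), ?_⟩
    rw [mul_smul, mul_smul, ha, ha']
  -- every vector is in `Φ x`
  have hone : ∀ v₂ : M, ∃ d ∈ Φ, d x = v₂ := by
    intro v₂
    by_contra hcon
    apply hS
    have hn : ∀ d ∈ Φ, d x ≠ v₂ := fun d hd h => hcon ⟨d, hd, h⟩
    have hv2 : v₂ ≠ 0 := by
      rintro rfl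
      exact hn 0 Φ.zero_mem rfl
    have hn' : ∀ d ∈ Φ, d v₂ ≠ x := by
      intro d hd h
      have hd0 : d ≠ 0 := by
        rintro rfl
        exact hx h.symm
      obtain ⟨e, he, h2⟩ := Dens_inv hΦ hc hd hd0
      apply hn e he
      rw [← h, h2]
    obtain ⟨e₁, he₁, h11, h12⟩ := Dens_two hΦ hv2 hn'
    obtain ⟨e₂, he₂, h21, h22⟩ := Dens_two hΦ hx hn
    -- prescribed values
    have hval : ∀ y z : M, ∃ γ ∈ Dens_B M B * Dens_F Φ, γ x = y ∧ γ v₂ = z := by
      intro y z
      obtain ⟨β₁, hβ₁, g₁⟩ := hBu _ h12 y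
      obtain ⟨β₂, hβ₂, g₂⟩ := hBu _ h22 z
      have m1 : ∀ β ∈ B, Dens_r (K := K) (M := M) β ∈ Dens_B M B * Dens_F Φ := by
        intro β hβ
        have h5 : Dens_r (K := K) (M := M) β ∈ Dens_B M B := ⟨β, hβ, rfl⟩
        have := Submodule.mul_mem_mul h5 (Dens_one_mem_F Φ)
        rwa [mul_one] at this
      refine ⟨Dens_r β₁ * e₁ + Dens_r β₂ * e₂, Submodule.add_mem _
        (Dens_BL hr Φ (Submodule.mul_mem_mul (m1 _ hβ₁) he₁))
        (Dens_BL hr Φ (Submodule.mul_mem_mul (m1 _ hβ₂) he₂)), ?_, ?_⟩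
      · show β₁ • e₁ x + β₂ • e₂ x = y
        rw [h21, smul_zero, add_zero, g₁]
      · show β₁ • e₁ v₂ + β₂ • e₂ v₂ = z
        rw [h11, smul_zero, zero_add, g₂]
    intro f hf
    -- the augmentation of `f` vanishes
    have haug : FreeAlgebra.lift K (fun _ : ℕ => (0 : K)) f = 0 := by
      have h1 := hB f hf (fun _ => 0) (fun _ => B.zero_mem) x
      have h2 : (Algebra.ofId K Λ).comp (FreeAlgebra.lift K (fun _ : ℕ => (0 : K))) =
          FreeAlgebra.lift K (fun _ : ℕ => (0 : Λ)) := by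
        refine FreeAlgebra.hom_ext (funext fun i => ?_)
        simp
      rw [← h2] at h1
      have h3 : algebraMap K Λ (FreeAlgebra.lift K (fun _ : ℕ => (0 : K)) f) • x = 0 := h1
      rw [algebraMap_smul] at h3
      exact (smul_eq_zero.1 h3).resolve_right hx
    intro w
    refine Dens_identity f w haug ?_
    have hch : ∀ i, ∃ γ ∈ Dens_B M B * Dens_F Φ, γ x = w i 0 0 • x + w i 1 0 • v₂ ∧
        γ v₂ = w i 0 1 • x + w i 1 1 • v₂ := fun i => hval _ _
    choose γ hγ hγ1 hγ2 using hch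
    have hz : FreeAlgebra.lift K γ f = 0 := by
      refine scalar_ext_comm f (Dens_B M B) (Dens_F Φ) ?_ ?_ ?_ γ hγ
      · rintro _ ⟨d, hd, rfl⟩ _ ⟨e, he, rfl⟩
        show Dens_i (K := K) d * Dens_i e = Dens_i e * Dens_i d
        rw [← map_mul, ← map_mul, hc d hd e he]
      · rintro _ ⟨a, ha, rfl⟩ _ ⟨e, he, rfl⟩
        exact (Dens_comm a e).symm
      · intro q hq
        choose β hβ hβ' using hq
        have h1 : (Dens_r (K := K) (M := M)).comp (FreeAlgebra.lift K β) = FreeAlgebra.lift K q := by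
          refine FreeAlgebra.hom_ext (funext fun i => ?_)
          simp only [AlgHom.coe_comp, Function.comp_apply, FreeAlgebra.lift_ι_apply]
          exact hβ' i
        rw [← h1]
        refine LinearMap.ext fun y => ?_
        exact hB f hf β hβ y
    -- transport to matrices
    let T : (Fin 2 → K) →ₗ[K] M :=
      { toFun := fun c => c 0 • x + c 1 • v₂
        map_add' := by
          intro c c'
          simp only [Pi.add_apply, add_smul]
          abel
        map_smul' := by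
          intro k c
          simp only [Pi.smul_apply, smul_eq_mul, mul_smul, smul_add, RingHom.id_apply] }
    have hTinj : ∀ c, T c = 0 → c = 0 := by
      intro c hcc
      have h1 : c 0 • x + c 1 • v₂ = 0 := hcc
      have h2 : c 1 = 0 := by
        by_contra h3
        apply hn (algebraMap K (Module.End Λ M) (-(c 1)⁻¹ * c 0)) (Φ.algebraMap_mem _)
        have h4 : v₂ = (-(c 1)⁻¹ * c 0) • x := by
          have h5 : c 1 • v₂ = -(c 0 • x) := eq_neg_of_add_eq_zero_right h1
          calc v₂ = (c 1)⁻¹ • (c 1 • v₂) := by rw [smul_smul, inv_mul_cancel₀ h3, one_smul]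
            _ = (-(c 1)⁻¹ * c 0) • x := by rw [h5, smul_neg, smul_smul, neg_mul, neg_smul]
        exact h4.symm
      rw [h2, zero_smul, add_zero] at h1
      have h6 : c 0 = 0 := (smul_eq_zero.1 h1).resolve_right hx
      funext i
      fin_cases i
      · exact h6
      · exact h2
    have hint : ∀ g : FreeAlgebra K ℕ, ∀ c : Fin 2 → K,
        (FreeAlgebra.lift K γ g) (T c) = T ((FreeAlgebra.lift K w g).mulVec c) := by
      intro g
      induction g using FreeAlgebra.induction with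
      | grade0 r =>
        intro c
        rw [AlgHom.commutes, AlgHom.commutes, Module.algebraMap_end_apply, Algebra.algebraMap_eq_smul_one,
          Matrix.smul_mulVec, Matrix.one_mulVec, map_smul]
      | grade1 i =>
        intro c
        rw [FreeAlgebra.lift_ι_apply, FreeAlgebra.lift_ι_apply]
        show γ i (c 0 • x + c 1 • v₂) = (w i).mulVec c 0 • x + (w i).mulVec c 1 • v₂
        rw [map_add, map_smul, map_smul, hγ1, hγ2]
        simp only [Matrix.mulVec, dotProduct, Fin.sum_univ_two, add_smul, smul_add, smul_smul]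
        rw [mul_comm (c 0), mul_comm (c 0), mul_comm (c 1), mul_comm (c 1)]
        abel
      | mul g g' h1 h2 =>
        intro c
        rw [map_mul, map_mul, Module.End.mul_apply, h2, h1, Matrix.mulVec_mulVec]
      | add g g' h1 h2 =>
        intro c
        rw [map_add, map_add, LinearMap.add_apply, h1, h2, Matrix.add_mulVec, map_add]
    have hzero : ∀ c : Fin 2 → K, (FreeAlgebra.lift K w f).mulVec c = 0 := by
      intro c
      apply hTinj
      rw [← hint, hz, LinearMap.zero_apply]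
    refine Matrix.ext_of_mulVec_single fun i => ?_
    rw [hzero, Matrix.zero_mulVec]
  obtain ⟨d, hd, h1⟩ := hone (b • x)
  obtain ⟨d', hd', h2⟩ := hone (b' • x)
  rw [sub_smul, mul_smul, mul_smul, ← h2, ← h1, ← d'.map_smul, ← d.map_smul, ← h1, ← h2]
  have h3 := LinearMap.congr_fun (hc d hd d' hd') x
  have h4 : d (d' x) = d' (d x) := h3
  rw [h4, sub_self]

end

/-- Let `S` be a set of identities not satisfied by `M_2(K)`, `B` a two-sided ideal of the `K`-algebra
`Λ` and `M` a simple `Λ`-module on which the values of the `f ∈ S` on `B` act as zero. Then the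
elements of `B` commute on `M`.

PROOF. Assume `B • M ≠ 0` (otherwise clear). Make `M` a `K`-space via `Λ` (`Module.compHom`), let
`Q = Module.End K M`, let `D` be the set of `Λ`-linear endomorphisms in `Q` (centralizer of the image of `Λ`),
`Φ ≤ D` a maximal commutative subalgebra (`exists_maximal_comm`). Let `Λ'` be the subalgebra of `Q` generated by the image of
`Λ` and by `Φ` (every element is a finite sum `∑ λ_i φ_i`). `M` is a simple `Λ'`-module and its `Λ'`-endomorphisms are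
the elements of `D` commuting with `Φ`, i.e. the elements of `Φ`. By Schur nonzero elements of `Φ` are invertible on `M`,
so `Φ` is a field and `M` a `Φ`-space. DENSITY (`jacobson_density` for `Λ'`, in
Mathlib.RingTheory.SimpleModule.Basic): for `v₁, v₂` linearly independent over `Φ` there is `e ∈ Λ'`
with `e v₁ = v₁`, `e v₂ = 0`. Let `B' = B * Φ` (sums of products), an ideal of `Λ'` with `B' M = M`;
choose `b₀ ∈ B'` with `b₀ v₁ ≠ 0` (if `B' v₁ = 0` then `B' Λ' v₁ = B' M = 0`) and `λ ∈ Λ'` with `λ b₀ v₁ = w` arbitrary. So `λ b₀ e ∈ B'` maps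
`v₁ ↦ w`, `v₂ ↦ 0`. Hence for every matrix `A ∈ M_2(K)` there is an element of `B'` which acts on the basis `v₁, v₂`
of `V = Φ v₁ + Φ v₂` by the matrix `A`. By `scalar_ext_comm` every `f ∈ S` vanishes on `B'` (as endomorphisms of `M`).
So every `f ∈ S` vanishes on `M_2(K)`, a contradiction. Therefore any two vectors are dependent over `Φ`: `M = Φ v` for `v ≠ 0`,
and two elements `b, b'` of `B` act as multiplications: `b v = φ v`, `b' v = φ' v`, `b b' v = b φ' v = φ' b v = φ' φ v = b' b v`. -/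
theorem commute_on_simple {K : Type u} [Field K] [Infinite K] (S : Set (FreeAlgebra K ℕ))
    (hS : ¬ Satisfies S (Matrix (Fin 2) (Fin 2) K))
    {Λ : Type v} [Ring Λ] [Algebra K Λ] (B : Submodule K Λ)
    (hl : ∀ a, ∀ b ∈ B, a * b ∈ B) (hr : ∀ a, ∀ b ∈ B, b * a ∈ B)
    {M : Type w} [AddCommGroup M] [Module Λ M] [IsSimpleModule Λ M]
    (hB : ∀ f ∈ S, ∀ w : ℕ → Λ, (∀ i, w i ∈ B) → ∀ x : M, FreeAlgebra.lift K w f • x = 0)
    (b b' : Λ) (hb : b ∈ B) (hb' : b' ∈ B) (x : M) : (b * b' - b' * b) • x = 0 := by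
  let _ : Module K M := Module.compHom M (algebraMap K Λ)
  have _ : IsScalarTower K Λ M := ⟨fun k a y => by
    rw [Algebra.smul_def, mul_smul]
    rfl⟩
  exact Dens_aux S hS B hl hr hB b b' hb hb' x

end Pool.Agent.H.MP_f5ceca_al.N
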