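import Pool.Agent.H.MP_f5ceca_al.N.AR
import Pool.Agent.H.MP_f5ceca_al.N.Coeff

/-!
The relatively free algebra embeds in an algebra which is finite over a polynomial ring.
-/

namespace Pool.Agent.H.MP_f5ceca_al.N

universe u

variable (K : Type u) [Field K] (n d : ℕ)

/-- the parameter ring: coefficients of `n` generic monic polynomials of degree `d` -/
abbrev PG : Type u := MvPolynomial (Fin n × Fin d) K

/-- the generic monic polynomials -/
noncomputable def fG (j : Fin n) : Polynomial (PG K n d) :=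
  Polynomial.X ^ d + ∑ i : Fin d, Polynomial.C (MvPolynomial.X (j, i)) * Polynomial.X ^ (i : ℕ)

theorem fG_monic (j : Fin n) : (fG K n d j).Monic := by
  unfold fG
  apply Polynomial.monic_X_pow_add
  exact Polynomial.degree_sum_fin_lt fun i : Fin d => (MvPolynomial.X (j, i) : PG K n d)

/-- Specialization: any monic polynomials `μ j` of degree `d` over a `K`-algebra `R` are images of the generic ones. -/
theorem exists_spec {R : Type*} [CommRing R] [Algebra K R] (μ : Fin n → Polynomial R)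
    (hμ : ∀ j, (μ j).Monic) (hd : ∀ j, (μ j).natDegree = d) :
    ∃ θ : PG K n d →ₐ[K] R, ∀ j, (fG K n d j).map θ.toRingHom = μ j := by
  refine ⟨MvPolynomial.aeval fun p => (μ p.1).coeff p.2, fun j => ?_⟩
  unfold fG
  rw [Polynomial.map_add, Polynomial.map_pow, Polynomial.map_X, Polynomial.map_sum]
  conv_rhs => rw [(hμ j).as_sum, hd j]
  congr 1
  rw [Finset.sum_range]
  refine Finset.sum_congr rfl fun i _ => ?_
  rw [Polynomial.map_mul, Polynomial.map_C, Polynomial.map_pow, Polynomial.map_X]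
  congr 2
  exact MvPolynomial.aeval_X _ _

/-- `mapF` respects the filtration -/
theorem Detect_mapF_mem_Fil {K : Type u} [Field K] (Γ : Type u) [CommRing Γ] [Algebra K Γ] (n k : ℕ)
    {z : FA K n} (hz : z ∈ Fil K n k) : mapF Γ n z ∈ Fil Γ n k := by
  refine mem_Fil_of_sym Γ n k _ fun i hi => ?_
  rw [sym_mapF, sym_eq_zero K n i (Fil_antitone K n hi hz), map_zero]

section step

variable {K : Type u} [Field K] {n : ℕ} {Γ : Type u} [CommRing Γ] [Algebra K Γ]
  {T : Submodule K (FA K n)} {k : ℕ} (θ : Γ →ₐ[K] St K n T k)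

/-- the specialization on the gap variables -/
noncomputable def Detect_Th : RX Γ n k →+* RX K n k :=
  MvPolynomial.eval₂Hom ((algebraMap (St K n T k) (RX K n k)).comp θ.toRingHom)
    (fun p => gX K n k p.1 p.2)

/-- the specialization on the symbols -/
noncomputable def Detect_Th' : RZ Γ n k →+* RZ K n k := MvPolynomial.map (Detect_Th θ)

theorem Detect_Th_C (γ : Γ) : Detect_Th θ (MvPolynomial.C γ) = ((θ γ : St K n T k) : RX K n k) := by
  simp only [Detect_Th, MvPolynomial.coe_eval₂Hom, MvPolynomial.eval₂_C]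
  rfl

theorem Detect_Th_X (a : Fin (k + 1)) (j : Fin n) :
    Detect_Th θ (gX Γ n k a j) = gX K n k a j := by
  simp only [Detect_Th, gX, MvPolynomial.coe_eval₂Hom, MvPolynomial.eval₂_X]

theorem Detect_Th_mapX : (Detect_Th θ).comp (mapX Γ n k) = RingHom.id _ := by
  apply MvPolynomial.ringHom_ext
  · intro c
    rw [RingHom.comp_apply, mapX, MvPolynomial.map_C, Detect_Th_C, RingHom.id_apply,
      AlgHom.commutes]
    rfl
  · rintro ⟨a, j⟩
    rw [RingHom.comp_apply, mapX, MvPolynomial.map_X, RingHom.id_apply]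
    exact Detect_Th_X θ a j

theorem Detect_Th'_mapZ (u : RZ K n k) : Detect_Th' θ (mapZ Γ n k u) = u := by
  rw [Detect_Th', mapZ, MvPolynomial.map_map, Detect_Th_mapX, MvPolynomial.map_id]

theorem Detect_Th'_smulX (r : RX Γ n k) (u : RZ Γ n k) :
    Detect_Th' θ (r • u) = Detect_Th θ r • Detect_Th' θ u := by
  rw [Algebra.smul_def, Algebra.smul_def, map_mul]
  congr 1
  exact MvPolynomial.map_C _ _

theorem Detect_Th'_smul (γ : Γ) (u : RZ Γ n k) :
    Detect_Th' θ (γ • u) = ((θ γ : St K n T k) : RX K n k) • Detect_Th' θ u := by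
  have h : γ • u = (MvPolynomial.C γ : RX Γ n k) • u := by
    rw [← algebraMap_smul (RX Γ n k) γ u]
    rfl
  rw [h, Detect_Th'_smulX, Detect_Th_C]

/-- the specialization kills the symbols of `Bd (k+1)` -/
theorem Detect_small (f : Fin n → Polynomial Γ)
    (hf : ∀ (a : Fin (k + 1)) (j : Fin n),
      Polynomial.aeval (gX K n k a j) ((f j).map θ.toRingHom) = 0)
    {w : FA Γ n} (hw : w ∈ Bd Γ n f (k + 1)) : Detect_Th' θ (sym Γ n k w) = 0 := by
  have h1 := sym_mem_small Γ n f k (k + 1) hw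
  rw [Nat.add_sub_cancel_left, pow_one] at h1
  have hM : ∀ r ∈ MM Γ n f k, Detect_Th θ r = 0 := by
    intro r hr
    have : MM Γ n f k ≤ RingHom.ker (Detect_Th θ) := by
      unfold MM
      rw [Ideal.span_le]
      rintro _ ⟨a, j, rfl⟩
      rw [SetLike.mem_coe, RingHom.mem_ker, Polynomial.aeval_def, Polynomial.hom_eval₂,
        Detect_Th_X]
      rw [← hf a j, Polynomial.aeval_def, Polynomial.eval₂_map]
      congr 1
      ext γ : 1
      exact Detect_Th_C θ γ
    exact this hr
  refine Submodule.smul_induction_on (p := fun x => Detect_Th' θ x = 0) h1 ?_ ?_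
  · intro r hr u _
    rw [Detect_Th'_smulX, hM r hr, zero_smul]
  · intro x y hx hy
    rw [map_add, hx, hy, add_zero]

/-- the specialization maps the symbols of `T_Γ ∩ Fil k` to the layer -/
theorem Detect_lay {t : FA Γ n} (ht : t ∈ TG Γ n T) (htk : t ∈ Fil Γ n k) :
    Detect_Th' θ (sym Γ n k t) ∈ Lay K n T k := by
  have h1 := mem_TG_inf_Fil Γ n T k ht htk
  clear ht htk
  induction h1 using Submodule.span_induction with
  | mem x hx =>
    obtain ⟨z, hz, rfl⟩ := hx
    rw [sym_mapF, Detect_Th'_mapZ]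
    exact ⟨z, hz, rfl⟩
  | zero => rw [map_zero, map_zero]; exact zero_mem _
  | add x y _ _ hx hy => rw [map_add, map_add]; exact add_mem hx hy
  | smul γ x _ hx => rw [map_smul, Detect_Th'_smul]; exact (θ γ).2 _ hx

end step

/-- DETECTION.

PROOF. For `k < m`, `a ≤ k` and `j` let `μ_{k,a,j}` be a monic polynomial over `St_k = St K n T k` with root `X(a,j)`
(`isIntegral_X`), and `μ_{k,j} = t^? ∏_a μ_{k,a,j}`, all of the same degree `d` (multiply by powers of `t`). Let `N_k` be the number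
of `AR_main` for `T_Γ`, level `k` and `N' = k + 1`, `N = max_k N_k`. Let `mapF z ∈ T_Γ + Bd N`. Show by induction on `k ≤ m`: there is
`z_k ∈ Fil k` with `z - z_k ∈ T`; for `k = m` this gives `z ∈ T`. Step: `mapF z_k ∈ T_Γ + Bd N`, so by `AR_main` `mapF z_k = t + w` with
`t ∈ T_Γ ∩ Fil k`, `w ∈ Bd (k+1) ∩ Fil k`. CLAIM `sym K n k z_k ∈ Lay K n T k`. Then `sym z_k = sym τ`, `τ ∈ T ∩ Fil k`, and
`z_{k+1} = z_k - τ ∈ Fil (k+1)` by `mem_Fil_succ`.
Proof of the claim: let `θ : PG → St_k ≤ RX K n k` be the specialization with `θ(f_j) = μ_{k,j}` (`exists_spec`),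
`Θ : RX Γ n k → RX K n k` the ring map equal to `θ` on `Γ` and with `X(a,j) ↦ X(a,j)`, and `Θ' : RZ Γ n k → RZ K n k` the map of
polynomial rings over `Θ`. `Θ' (mapZ u) = u`. `Θ (f_j(X(a,j))) = μ_{k,j}(X(a,j)) = 0`, so `Θ' (sym w) = 0` by `sym_mem_small`
(`MM^1 • Omega`). By `mem_TG_inf_Fil` `t = ∑ γ_i • mapF t_i`, `t_i ∈ T ∩ Fil k`, so `Θ' (sym t) = ∑ θ(γ_i) • sym t_i ∈ Lay`. -/
theorem detect [Infinite K] (T : Submodule K (FA K n)) (hT : IsOp K n T) (m : ℕ)
    (hm : Fil K n m ≤ T) : ∃ d N : ℕ, 0 < d ∧ ∀ z : FA K n,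
      mapF (PG K n d) n z ∈ TG (PG K n d) n T ⊔ Bd (PG K n d) n (fG K n d) N → z ∈ T := by
  classical
  -- the monic polynomials with the gap variables as roots
  have h1 : ∀ (k : ℕ) (a : Fin (k + 1)) (j : Fin n), ∃ p : Polynomial (St K n T k), p.Monic ∧
      Polynomial.aeval (gX K n k a j) p = 0 := fun k a j => isIntegral_X hT K k a j
  choose p hp1 hp2 using h1
  let q : ∀ (k : ℕ) (j : Fin n), Polynomial (St K n T k) := fun k j => ∏ a, p k a j
  have hq1 : ∀ k j, (q k j).Monic := fun k j =>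
    Polynomial.monic_prod_of_monic _ _ fun a _ => hp1 k a j
  have hq2 : ∀ k a j, Polynomial.aeval (gX K n k a j) (q k j) = 0 := by
    intro k a j
    rw [map_prod]
    exact Finset.prod_eq_zero (Finset.mem_univ a) (hp2 k a j)
  let d : ℕ := 1 + ∑ k ∈ Finset.range m, ∑ j : Fin n, (q k j).natDegree
  have hd : ∀ k < m, ∀ j, (q k j).natDegree ≤ d := by
    intro k hk j
    have e1 : (q k j).natDegree ≤ ∑ j : Fin n, (q k j).natDegree :=
      Finset.single_le_sum (f := fun j : Fin n => (q k j).natDegree) (fun _ _ => Nat.zero_le _)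
        (Finset.mem_univ j)
    have e2 : ∑ j : Fin n, (q k j).natDegree ≤
        ∑ k ∈ Finset.range m, ∑ j : Fin n, (q k j).natDegree :=
      Finset.single_le_sum (f := fun k : ℕ => ∑ j : Fin n, (q k j).natDegree)
        (fun _ _ => Nat.zero_le _) (Finset.mem_range.2 hk)
    omega
  have hTG := TG_isOp (PG K n d) n T hT
  have h2 : ∀ k : ℕ, ∃ N : ℕ, ∀ t ∈ TG (PG K n d) n T, ∀ w ∈ Bd (PG K n d) n (fG K n d) N,
      t + w ∈ Fil (PG K n d) n k → ∃ t' ∈ TG (PG K n d) n T,
        ∃ w' ∈ Bd (PG K n d) n (fG K n d) (k + 1),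
        t' ∈ Fil (PG K n d) n k ∧ w' ∈ Fil (PG K n d) n k ∧ t' + w' = t + w := fun k =>
    AR_main K hTG (fG K n d) k (k + 1)
  choose N hN using h2
  refine ⟨d, ∑ k ∈ Finset.range m, N k, by omega, fun z hz => ?_⟩
  have key : ∀ k ≤ m, ∃ z' ∈ Fil K n k, z - z' ∈ T := by
    intro k
    induction k with
    | zero =>
      intro _
      exact ⟨z, by rw [Fil_zero]; exact Submodule.mem_top, by rw [sub_self]; exact zero_mem _⟩
    | succ k ih =>
      intro hk
      obtain ⟨z', hz'1, hz'2⟩ := ih (by omega)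
      have hz3 : mapF (PG K n d) n z' ∈ TG (PG K n d) n T ⊔
          Bd (PG K n d) n (fG K n d) (∑ k ∈ Finset.range m, N k) := by
        have : mapF (PG K n d) n z' = mapF (PG K n d) n z - mapF (PG K n d) n (z - z') := by
          rw [map_sub]; abel
        rw [this]
        exact sub_mem hz (Submodule.mem_sup_left (Submodule.subset_span ⟨_, hz'2, rfl⟩))
      obtain ⟨t, ht, w, hw, htw⟩ := Submodule.mem_sup.1 hz3
      have hNk : N k ≤ ∑ k ∈ Finset.range m, N k :=
        Finset.single_le_sum (f := fun k => N k) (fun _ _ => Nat.zero_le _)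
          (Finset.mem_range.2 (by omega))
      obtain ⟨t', ht', w', hw', ht'k, -, htw'⟩ := hN k t ht w
        (Bd_antitone (PG K n d) n (fG K n d) hNk hw)
        (by rw [htw]; exact Detect_mapF_mem_Fil _ n k hz'1)
      rw [htw] at htw'
      -- the specialization
      obtain ⟨θ, hθ⟩ := exists_spec K n d
        (fun j => Polynomial.X ^ (d - (q k j).natDegree) * q k j)
        (fun j => (Polynomial.monic_X_pow _).mul (hq1 k j))
        (fun j => by
          rw [(Polynomial.monic_X_pow _).natDegree_mul (hq1 k j), Polynomial.natDegree_X_pow]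
          have := hd k (by omega) j
          omega)
      have hsw : Detect_Th' θ (sym (PG K n d) n k w') = 0 := by
        refine Detect_small θ (fG K n d) (fun a j => ?_) hw'
        rw [hθ j, map_mul, hq2 k a j, mul_zero]
      have hcl : sym K n k z' ∈ Lay K n T k := by
        have e1 : Detect_Th' θ (sym (PG K n d) n k (mapF (PG K n d) n z')) = sym K n k z' := by
          rw [sym_mapF, Detect_Th'_mapZ]
        rw [← e1, ← htw', map_add, map_add, hsw, add_zero]
        exact Detect_lay θ ht' ht'k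
      obtain ⟨τ, ⟨hτ1, hτ2⟩, hτ3⟩ := hcl
      refine ⟨z' - τ, mem_Fil_succ K n k (sub_mem hz'1 hτ2) ?_, ?_⟩
      · rw [map_sub, hτ3, sub_self]
      · have : z - (z' - τ) = (z - z') + τ := by abel
        rw [this]
        exact add_mem hz'2 hτ1
  obtain ⟨z', h1, h2⟩ := key m le_rfl
  have : z = (z - z') + z' := by abel
  rw [this]
  exact add_mem h2 (hm h1)

end Pool.Agent.H.MP_f5ceca_al.N
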