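import Pool.Agent.H.MP_f5ceca_al.N.Defs

/-!
Commutative algebra: a finitely generated module over a finitely generated `K`-algebra embeds in its
base change to a finite-dimensional algebra over a large algebraically closed field.
-/

namespace Pool.Agent.H.MP_f5ceca_al.N

universe u

open scoped TensorProduct

/-- a large algebraically closed field -/
abbrev GE (K : Type u) [Field K] : Type u := AlgebraicClosure (FractionRing (MvPolynomial ℕ K))

/-- Every finitely generated `K`-algebra which is a domain embeds in `GE K`.

PROOF. Noether normalization (`exists_integral_inj_algHom_of_fg`): `D` is integral over a polynomial ring `MvPolynomial (Fin s) K ≤ D`. Map it into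
`MvPolynomial ℕ K ≤ GE K` by renaming the variables (injective). Let `L = FractionRing D`, algebraic over the fraction field
`L₀` of `MvPolynomial (Fin s) K`; `L₀ → GE K` extends to `L → GE K` (`IsAlgClosed.lift`). -/
theorem exists_embedding (K : Type u) [Field K] (D : Type u) [CommRing D] [IsDomain D] [Algebra K D]
    [Algebra.FiniteType K D] : ∃ φ : D →ₐ[K] GE K, Function.Injective φ := by
  obtain ⟨s, g, hg, hint⟩ := exists_integral_inj_algHom_of_fg K D
  let ψ : MvPolynomial (Fin s) K →ₐ[K] GE K :=
    (IsScalarTower.toAlgHom K (MvPolynomial ℕ K) (GE K)).comp (MvPolynomial.rename Fin.val)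
  have hψ : Function.Injective ψ := by
    have h1 : Function.Injective (algebraMap (MvPolynomial ℕ K) (GE K)) := by
      rw [IsScalarTower.algebraMap_eq (MvPolynomial ℕ K) (FractionRing (MvPolynomial ℕ K)) (GE K)]
      exact (algebraMap (FractionRing (MvPolynomial ℕ K)) (GE K)).injective.comp
        (IsFractionRing.injective (MvPolynomial ℕ K) (FractionRing (MvPolynomial ℕ K)))
    exact h1.comp (MvPolynomial.rename_injective _ Fin.val_injective)
  letI : Algebra (MvPolynomial (Fin s) K) D := g.toRingHom.toAlgebra
  letI : Algebra (MvPolynomial (Fin s) K) (GE K) := ψ.toRingHom.toAlgebra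
  haveI : Module.IsTorsionFree (MvPolynomial (Fin s) K) D := by
    rw [Module.isTorsionFree_iff_algebraMap_injective]
    exact hg
  haveI : Module.IsTorsionFree (MvPolynomial (Fin s) K) (GE K) := by
    rw [Module.isTorsionFree_iff_algebraMap_injective]
    exact hψ
  haveI : Algebra.IsIntegral (MvPolynomial (Fin s) K) D := ⟨hint⟩
  haveI : Algebra.IsAlgebraic (MvPolynomial (Fin s) K) D := inferInstance
  let φ : D →ₐ[MvPolynomial (Fin s) K] GE K := IsAlgClosed.lift
  refine ⟨{ φ.toRingHom with commutes' := ?_ }, ?_⟩
  · intro r
    have h1 : algebraMap K D r = algebraMap (MvPolynomial (Fin s) K) D (MvPolynomial.C r) := by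
      show algebraMap K D r = g (MvPolynomial.C r)
      rw [← MvPolynomial.algebraMap_eq]
      exact (g.commutes r).symm
    show φ (algebraMap K D r) = algebraMap K (GE K) r
    rw [h1, φ.commutes]
    show ψ (MvPolynomial.C r) = algebraMap K (GE K) r
    rw [← MvPolynomial.algebraMap_eq]
    exact ψ.commutes r
  · show Function.Injective φ
    rw [← AlgHom.coe_toRingHom, RingHom.injective_iff_ker_eq_bot]
    apply Ideal.eq_bot_of_comap_eq_bot (R := MvPolynomial (Fin s) K)
    rw [RingHom.comap_ker, AlgHom.comp_algebraMap, ← RingHom.injective_iff_ker_eq_bot]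
    exact hψ

end Pool.Agent.H.MP_f5ceca_al.N
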