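import Pool.Agent.H.MP_f5ceca_al.N.GenE

/-!
Finitely generated modules over finitely generated algebras: detection by a finite-dimensional quotient.
-/

namespace Pool.Agent.H.MP_f5ceca_al.N

universe u

open scoped TensorProduct

/-- The property used in the proof. `B = E ⊗ C`. -/
def HasFD (K : Type u) [Field K] (C : Type u) [CommRing C] [Algebra K C] (M : Type u)
    [AddCommGroup M] [Module C M] : Prop :=
  ∃ I : Ideal (C ⊗[K] GE K),
    (∃ s : Finset (C ⊗[K] GE K), ∀ x : C ⊗[K] GE K, ∃ y ∈ I, ∃ g : C ⊗[K] GE K → GE K,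
      x = y + ∑ t ∈ s, t * ((1 : C) ⊗ₜ[K] g t)) ∧
    ∀ m : M, (1 : C ⊗[K] GE K) ⊗ₜ[C] m ∈ I • (⊤ : Submodule (C ⊗[K] GE K) ((C ⊗[K] GE K) ⊗[C] M)) →
      m = 0

/-- finite codimension over the image of `ι` -/
def GenFD_FC {E B : Type*} [CommRing E] [CommRing B] (ι : E →+* B) (I : Ideal B) : Prop :=
  ∃ s : Finset B, ∀ x : B, ∃ y ∈ I, ∃ g : B → E, x = y + ∑ t ∈ s, t * ι (g t)

theorem GenFD_iff {E B : Type*} [CommRing E] [CommRing B] [Algebra E B] (I : Ideal B)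
    (s : Finset B) (x : B) :
    (∃ y ∈ I, ∃ g : B → E, x = y + ∑ t ∈ s, t * algebraMap E B (g t)) ↔
      x ∈ I.restrictScalars E ⊔ Submodule.span E (s : Set B) := by
  rw [Submodule.mem_sup]
  constructor
  · rintro ⟨y, hy, g, rfl⟩
    refine ⟨y, hy, _, ?_, rfl⟩
    refine Submodule.sum_mem _ fun t ht => ?_
    rw [mul_comm, ← Algebra.smul_def]
    exact Submodule.smul_mem _ _ (Submodule.subset_span ht)
  · rintro ⟨y, hy, z, hz, rfl⟩
    obtain ⟨g, -, hg⟩ := Submodule.mem_span_finset.1 hz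
    refine ⟨y, hy, g, ?_⟩
    rw [← hg]
    congr 1
    refine Finset.sum_congr rfl fun t _ => ?_
    rw [mul_comm, ← Algebra.smul_def]

theorem GenFD_mul {E B : Type*} [CommRing E] [CommRing B] [IsNoetherianRing B] (ι : E →+* B)
    {I J : Ideal B} (hI : GenFD_FC ι I) (hJ : GenFD_FC ι J) : GenFD_FC ι (I * J) := by
  classical
  let _ : Algebra E B := ι.toAlgebra
  obtain ⟨s, hs⟩ := hI
  obtain ⟨s', hs'⟩ := hJ
  obtain ⟨A, hA⟩ := (IsNoetherian.noetherian I : I.FG)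
  have hs1 : ∀ x, x ∈ I.restrictScalars E ⊔ Submodule.span E (s : Set B) :=
    fun x => (GenFD_iff I s x).1 (hs x)
  have hs2 : ∀ x, x ∈ J.restrictScalars E ⊔ Submodule.span E (s' : Set B) :=
    fun x => (GenFD_iff J s' x).1 (hs' x)
  refine ⟨s ∪ Finset.image₂ (fun a b => a * b) A s', fun x => ?_⟩
  refine (GenFD_iff (E := E) (I * J) (s ∪ Finset.image₂ (fun a b => a * b) A s') x).2 ?_
  set S : Finset B := s ∪ Finset.image₂ (fun a b => a * b) A s' with hS
  obtain ⟨y, hy, z, hz, rfl⟩ := Submodule.mem_sup.1 (hs1 x)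
  have hsS : (s : Set B) ⊆ (S : Set B) := by
    rw [hS, Finset.coe_union]
    exact Set.subset_union_left
  refine Submodule.add_mem _ ?_ (Submodule.mem_sup_right (Submodule.span_mono hsS hz))
  · have hy' : y ∈ Submodule.span B (A : Set B) := by
      have h0 : y ∈ I := hy
      rw [← hA] at h0
      exact h0
    obtain ⟨f, -, hf⟩ := Submodule.mem_span_finset.1 hy'
    rw [← hf]
    refine Submodule.sum_mem _ fun a ha => ?_
    obtain ⟨v, hv, w, hw, hvw⟩ := Submodule.mem_sup.1 (hs2 (f a))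
    rw [← hvw, smul_eq_mul, add_mul]
    refine Submodule.add_mem _ (Submodule.mem_sup_left ?_) (Submodule.mem_sup_right ?_)
    · have h5 : a ∈ I := by
        rw [← hA]
        exact Submodule.subset_span ha
      have h6 : a * v ∈ I * J := Ideal.mul_mem_mul h5 hv
      rw [mul_comm a v] at h6
      exact h6
    · refine Submodule.span_induction (p := fun w _ => w * a ∈ Submodule.span E (S : Set B))
        ?_ ?_ ?_ ?_ hw
      · intro b hb
        apply Submodule.subset_span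
        rw [hS, Finset.coe_union, Finset.coe_image₂]
        right
        exact ⟨a, ha, b, hb, mul_comm a b⟩
      · rw [zero_mul]
        exact Submodule.zero_mem _
      · intro b b' _ _ h1 h2
        rw [add_mul]
        exact Submodule.add_mem _ h1 h2
      · intro e b _ h1
        rw [smul_mul_assoc]
        exact Submodule.smul_mem _ _ h1

theorem GenFD_pow {E B : Type*} [CommRing E] [CommRing B] [IsNoetherianRing B] (ι : E →+* B)
    {I : Ideal B} (hI : GenFD_FC ι I) (n : ℕ) : GenFD_FC ι (I ^ n) := by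
  induction n with
  | zero =>
    refine ⟨∅, fun x => ⟨x, ?_, fun _ => 0, by simp⟩⟩
    rw [pow_zero, Ideal.one_eq_top]
    exact trivial
  | succ n ih =>
    rw [pow_succ]
    exact GenFD_mul ι ih hI

/-- Artin-Rees in an abstract form. -/
theorem GenFD_exact {E B C : Type u} [CommRing E] [CommRing B] [IsNoetherianRing B] (ι : E →+* B)
    [CommRing C] [Algebra C B] [Module.Flat C B]
    {N₁ N₂ N₃ : Type u} [AddCommGroup N₁] [Module C N₁] [AddCommGroup N₂] [Module C N₂]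
    [Module.Finite C N₂] [AddCommGroup N₃] [Module C N₃] (f : N₁ →ₗ[C] N₂) (g : N₂ →ₗ[C] N₃)
    (hf : Function.Injective f) (hfg : Function.Exact f g)
    {I₁ I₃ : Ideal B} (hI₁ : GenFD_FC ι I₁) (hI₃ : GenFD_FC ι I₃)
    (h₁ : ∀ m : N₁, (1 : B) ⊗ₜ[C] m ∈ I₁ • (⊤ : Submodule B (B ⊗[C] N₁)) → m = 0)
    (h₃ : ∀ m : N₃, (1 : B) ⊗ₜ[C] m ∈ I₃ • (⊤ : Submodule B (B ⊗[C] N₃)) → m = 0) :
    ∃ I : Ideal B, GenFD_FC ι I ∧
      ∀ m : N₂, (1 : B) ⊗ₜ[C] m ∈ I • (⊤ : Submodule B (B ⊗[C] N₂)) → m = 0 := by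
  obtain ⟨F, hFd⟩ : ∃ F : B ⊗[C] N₁ →ₗ[B] B ⊗[C] N₂, F = f.baseChange B := ⟨_, rfl⟩
  have hF : Function.Injective F := by
    have h := Module.Flat.lTensor_preserves_injective_linearMap (M := B) f hf
    rw [hFd]
    exact h
  have hF1 : ∀ m₁ : N₁, F ((1 : B) ⊗ₜ[C] m₁) = (1 : B) ⊗ₜ[C] f m₁ := by
    intro m₁
    rw [hFd]
    exact LinearMap.baseChange_tmul _ _ _
  obtain ⟨G, hGd⟩ : ∃ G : B ⊗[C] N₂ →ₗ[B] B ⊗[C] N₃, G = g.baseChange B := ⟨_, rfl⟩
  have hG1 : ∀ m : N₂, G ((1 : B) ⊗ₜ[C] m) = (1 : B) ⊗ₜ[C] g m := by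
    intro m
    rw [hGd]
    exact LinearMap.baseChange_tmul _ _ _
  obtain ⟨k, hk⟩ := Ideal.exists_pow_inf_eq_pow_smul I₁ (LinearMap.range F)
  refine ⟨I₁ ^ (k + 1) * I₃, GenFD_mul ι (GenFD_pow ι hI₁ _) hI₃, fun m hm => ?_⟩
  have hg : g m = 0 := by
    apply h₃
    have h1 : G ((1 : B) ⊗ₜ[C] m) ∈
        Submodule.map G ((I₁ ^ (k + 1) * I₃) • (⊤ : Submodule B (B ⊗[C] N₂))) :=
      Submodule.mem_map_of_mem hm
    rw [Submodule.map_smul'', hG1] at h1
    have h2 : (I₁ ^ (k + 1) * I₃) • Submodule.map G (⊤ : Submodule B (B ⊗[C] N₂)) ≤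
        I₃ • (⊤ : Submodule B (B ⊗[C] N₃)) :=
      Submodule.smul_mono Ideal.mul_le_right le_top
    exact h2 h1
  obtain ⟨m₁, rfl⟩ := (hfg m).1 hg
  have h2 : (1 : B) ⊗ₜ[C] f m₁ ∈ I₁ ^ (k + 1) • (⊤ : Submodule B (B ⊗[C] N₂)) ⊓
      LinearMap.range F := by
    have h3 : (I₁ ^ (k + 1) * I₃) • (⊤ : Submodule B (B ⊗[C] N₂)) ≤
        I₁ ^ (k + 1) • (⊤ : Submodule B (B ⊗[C] N₂)) :=
      Submodule.smul_mono_left Ideal.mul_le_left
    exact Submodule.mem_inf.2 ⟨h3 hm, LinearMap.mem_range.2 ⟨_, hF1 m₁⟩⟩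
  rw [hk (k + 1) (Nat.le_succ k), Nat.add_sub_cancel_left, pow_one] at h2
  have h3 : (1 : B) ⊗ₜ[C] f m₁ ∈ Submodule.map F (I₁ • (⊤ : Submodule B (B ⊗[C] N₁))) := by
    rw [Submodule.map_smul'', Submodule.map_top]
    have h4 : I₁ • (I₁ ^ k • (⊤ : Submodule B (B ⊗[C] N₂)) ⊓ LinearMap.range F) ≤
        I₁ • LinearMap.range F := Submodule.smul_mono le_rfl inf_le_right
    exact h4 h2
  obtain ⟨z, hz, hz'⟩ := Submodule.mem_map.1 h3
  have h4 : z = (1 : B) ⊗ₜ[C] m₁ := hF (hz'.trans (hF1 m₁).symm)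
  rw [h4] at hz
  rw [h₁ m₁ hz, map_zero]

/-- The quotient case in an abstract form. -/
theorem GenFD_quot {E B C N : Type u} [CommRing E] [CommRing B] [CommRing C] [Algebra C B]
    [AddCommGroup N] [Module C N] (ψ : B →+* E) (q : N →+ E)
    (hq : ∀ (c : C) n, q (c • n) = ψ (algebraMap C B c) * q n) (hinj : ∀ n, q n = 0 → n = 0)
    (m : N) (hm : (1 : B) ⊗ₜ[C] m ∈ RingHom.ker ψ • (⊤ : Submodule B (B ⊗[C] N))) : m = 0 := by
  let _ : Algebra C E := (ψ.comp (algebraMap C B)).toAlgebra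
  have hsm : ∀ (c : C) (x : E), c • x = ψ (algebraMap C B c) * x := fun c x => by
    rw [Algebra.smul_def]
    rfl
  obtain ⟨L, hL⟩ : ∃ L : B ⊗[C] N →ₗ[C] E, ∀ b n, L (b ⊗ₜ[C] n) = ψ b * q n := by
    refine ⟨TensorProduct.lift (LinearMap.mk₂ C (fun (b : B) (n : N) => ψ b * q n)
      ?_ ?_ ?_ ?_), fun b n => ?_⟩
    · intro b b' n
      rw [map_add, add_mul]
    · intro c b n
      rw [Algebra.smul_def, map_mul, hsm, mul_assoc]
    · intro b n n'
      rw [map_add, mul_add]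
    · intro c b n
      rw [hq, hsm, mul_left_comm]
    · rw [TensorProduct.lift.tmul, LinearMap.mk₂_apply]
  have hLB : ∀ (b : B) (x : B ⊗[C] N), L (b • x) = ψ b * L x := by
    intro b x
    induction x using TensorProduct.induction_on with
    | zero => rw [smul_zero, map_zero, mul_zero]
    | tmul b' n =>
      rw [TensorProduct.smul_tmul', hL, hL, smul_eq_mul, map_mul, mul_assoc]
    | add x y hx hy => rw [smul_add, map_add, map_add, hx, hy, mul_add]
  have h0 : ∀ x ∈ RingHom.ker ψ • (⊤ : Submodule B (B ⊗[C] N)), L x = 0 := by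
    intro x hx
    refine Submodule.smul_induction_on hx ?_ ?_
    · intro b hb n _
      rw [hLB, (RingHom.mem_ker).1 hb, zero_mul]
    · intro x y hx hy
      rw [map_add, hx, hy, add_zero]
  apply hinj
  have h1 := h0 _ hm
  rwa [hL, map_one, one_mul] at h1

/-- PROOF. `B = C ⊗ E` is noetherian and flat over `C`. Let `0 → M₁ → M₂ → M₃ → 0` be exact, `I₁`, `I₃` ideals for `M₁`, `M₃`. By
Artin-Rees (`Ideal.exists_pow_inf_eq_pow_smul`) there is `c` with `I₁^(c+1) M₂_B ∩ M₁_B ≤ I₁ M₁_B` (`M_B = B ⊗ M`, `M₁_B ≤ M₂_B` by flatness).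
Take `I = I₁^(c+1) * I₃`, of finite codimension over `E` (`B/IJ`: `J/IJ` is a finitely generated `B/I`-module). Quotient case
`M = C/p`: the kernel `I` of `B → E`, `c ⊗ e ↦ φ(c) e`, `φ : C/p → E` injective (`exists_embedding`). Induction principle:
`IsNoetherianRing.induction_on_isQuotientEquivQuotientPrime`. -/
theorem hasFD {K : Type u} [Field K] {C : Type u} [CommRing C] [Algebra K C]
    [Algebra.FiniteType K C] (M : Type u) [AddCommGroup M] [Module C M] [Module.Finite C M] :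
    HasFD K C M := by
  classical
  have : IsNoetherianRing C := Algebra.FiniteType.isNoetherianRing K C
  have : IsNoetherianRing (C ⊗[K] GE K) := by
    have : IsNoetherianRing (GE K ⊗[K] C) :=
      Algebra.FiniteType.isNoetherianRing (GE K) (GE K ⊗[K] C)
    exact isNoetherianRing_of_ringEquiv (GE K ⊗[K] C)
      (Algebra.TensorProduct.comm K (GE K) C).toRingEquiv
  let ι : GE K →+* C ⊗[K] GE K :=
    (Algebra.TensorProduct.includeRight : GE K →ₐ[K] C ⊗[K] GE K).toRingHom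
  have hFC : ∀ I : Ideal (C ⊗[K] GE K), GenFD_FC ι I ↔
      (∃ s : Finset (C ⊗[K] GE K), ∀ x : C ⊗[K] GE K, ∃ y ∈ I, ∃ g : C ⊗[K] GE K → GE K,
        x = y + ∑ t ∈ s, t * ((1 : C) ⊗ₜ[K] g t)) := fun I => Iff.rfl
  refine IsNoetherianRing.induction_on_isQuotientEquivQuotientPrime C (M := M) inferInstance
    (motive := fun N _ _ _ => HasFD K C N) ?_ ?_ ?_
  · intro N _ _ _ _
    refine ⟨⊤, ⟨∅, fun x => ⟨x, Submodule.mem_top, fun _ => 0, by simp⟩⟩, fun m _ => ?_⟩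
    exact Subsingleton.elim _ _
  · intro N _ _ _ p e
    have := p.2
    have : IsDomain (C ⧸ p.1) := inferInstance
    have : Algebra.FiniteType K (C ⧸ p.1) :=
      Algebra.FiniteType.of_surjective (Ideal.Quotient.mkₐ K p.1)
        (Ideal.Quotient.mkₐ_surjective K p.1)
    obtain ⟨φ, hφ⟩ := exists_embedding K (C ⧸ p.1)
    let θ : C →ₐ[K] GE K := φ.comp (Ideal.Quotient.mkₐ K p.1)
    let ψ : C ⊗[K] GE K →ₐ[K] GE K := Algebra.TensorProduct.productMap θ (AlgHom.id K (GE K))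
    have hψ : ∀ c e, ψ (c ⊗ₜ[K] e) = θ c * e := fun c e => by
      simp [ψ, Algebra.TensorProduct.productMap_apply_tmul]
    refine ⟨RingHom.ker ψ.toRingHom, ⟨{1}, fun x => ⟨x - 1 ⊗ₜ[K] ψ x, ?_, fun _ => ψ x, ?_⟩⟩,
      fun m hm => ?_⟩
    · rw [RingHom.mem_ker]
      show ψ (x - 1 ⊗ₜ[K] ψ x) = 0
      rw [map_sub, hψ, map_one, one_mul, sub_self]
    · rw [Finset.sum_singleton, one_mul, sub_add_cancel]
    · refine GenFD_quot (B := C ⊗[K] GE K) ψ.toRingHom
        (φ.toRingHom.toAddMonoidHom.comp e.toLinearMap.toAddMonoidHom) ?_ ?_ m hm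
      · intro c n
        have e1 : ψ.toRingHom (algebraMap C (C ⊗[K] GE K) c) = θ c := by
          show ψ (c ⊗ₜ[K] (1 : GE K)) = θ c
          rw [hψ, mul_one]
        rw [e1]
        show φ (e (c • n)) = θ c * φ (e n)
        rw [map_smul, Algebra.smul_def, map_mul]
        rfl
      · intro n hn
        have h1 : φ (e n) = 0 := hn
        have h2 : e n = 0 := hφ (h1.trans (map_zero φ).symm)
        exact e.injective (h2.trans (map_zero e).symm)
  · intro N₁ _ _ _ N₂ _ _ _ N₃ _ _ _ f g hf hg hfg h₁ h₃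
    obtain ⟨I₁, hI₁, h₁⟩ := h₁
    obtain ⟨I₃, hI₃, h₃⟩ := h₃
    exact GenFD_exact (B := C ⊗[K] GE K) ι f g hf hfg hI₁ hI₃ h₁ h₃

end Pool.Agent.H.MP_f5ceca_al.N
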