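import Pool.Agent.H.MP_f5ceca_al.N.Stab

/-!
The polynomial ring in the gap variables is finite over the stabilizer.
-/

namespace Pool.Agent.H.MP_f5ceca_al.N

universe u v

variable {Γ : Type v} [CommRing Γ] {n : ℕ} {T : Submodule Γ (FA Γ n)} (hT : IsOp Γ n T)

include hT

/-- Each `X(a,j)` is integral over the stabilizer.

PROOF. Take `y = x_j`, `g = 1`, so `h_a = X(a+1,j) - X(a,j)`. `h_a` is a root of the monic polynomial
`∏_c (t - h_c)` with coefficients `± e_s(h)` in `St` (`Multiset.prod_X_sub_C_coeff`), so integral; and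
`X(a+1,j) = X(a,j) + h_a`; induction from `a = 0`. -/
theorem isIntegral_X (K : Type u) [Field K] [Infinite K] [Algebra K Γ] (k : ℕ)
    (a : Fin (k + 1)) (j : Fin n) : IsIntegral (St Γ n T k) (gX Γ n k a j) := by
  classical
  have step : ∀ a : Fin k, IsIntegral (St Γ n T k) (hh Γ n k (xx Γ j) 1 a) := by
    intro a
    obtain ⟨P, hP⟩ : ∃ P : Polynomial (RX Γ n k), P =
        (((Finset.univ : Finset (Fin k)).val.map (hh Γ n k (xx Γ j) 1)).map
          fun r => Polynomial.X - Polynomial.C r).prod := ⟨_, rfl⟩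
    have hcard : Multiset.card ((Finset.univ : Finset (Fin k)).val.map
        (hh Γ n k (xx Γ j) 1)) = k := by
      rw [Multiset.card_map]
      exact (Finset.card_univ).trans (Fintype.card_fin k)
    have hmonic : P.Monic := by
      rw [hP]
      exact Polynomial.monic_multiset_prod_of_monic _ _ fun r _ => Polynomial.monic_X_sub_C r
    have hcoef : ∀ m, P.coeff m ∈ St Γ n T k := by
      intro m
      by_cases hm : m ≤ k
      · rw [hP, Multiset.prod_X_sub_C_coeff _ (hcard.symm ▸ hm), hcard]
        exact mul_mem (pow_mem (neg_mem (one_mem _)) _)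
          (esymm_mem_St hT K k (xx Γ j) 1 (k - m) (Nat.sub_le _ _))
      · rcases subsingleton_or_nontrivial (RX Γ n k) with hs | hs
        · rw [Subsingleton.elim (P.coeff m) 0]
          exact zero_mem _
        have hdeg : P.natDegree ≤ k := by
          rw [hP]
          refine (Polynomial.natDegree_multiset_prod_X_sub_C_eq_card _).le.trans hcard.le
        rw [Polynomial.coeff_eq_zero_of_natDegree_lt (lt_of_le_of_lt hdeg (not_le.1 hm))]
        exact zero_mem _
    have hl : P ∈ Polynomial.lifts (algebraMap (St Γ n T k) (RX Γ n k)) := by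
      rw [Polynomial.lifts_iff_coeff_lifts]
      exact fun m => ⟨⟨_, hcoef m⟩, rfl⟩
    obtain ⟨q, hq, -, hqm⟩ := Polynomial.lifts_and_natDegree_eq_and_monic hl hmonic
    refine ⟨q, hqm, ?_⟩
    rw [← Polynomial.eval_map, hq, hP, Polynomial.eval_multiset_prod]
    refine Multiset.prod_eq_zero ?_
    rw [Multiset.map_map, Multiset.mem_map]
    refine ⟨hh Γ n k (xx Γ j) 1 a, Multiset.mem_map_of_mem _ (Finset.mem_univ a), ?_⟩
    simp
  have hval : ∀ b : Fin (k + 1), ev Γ n k b (xx Γ j) = gX Γ n k b j := fun b => by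
    unfold ev xx
    exact FreeAlgebra.lift_ι_apply _ _
  have hha : ∀ a : Fin k, gX Γ n k a.succ j = gX Γ n k a.castSucc j + hh Γ n k (xx Γ j) 1 a := by
    intro a
    unfold hh
    rw [hval, hval, map_one, mul_one]
    ring
  induction a using Fin.induction with
  | zero => exact isIntegral_algebraMap (x := (⟨_, X_zero_mem_St hT k j⟩ : St Γ n T k))
  | succ a ih =>
    rw [hha]
    exact ih.add (step a)

/-- The polynomial ring is a finite module over the stabilizer, and the stabilizer is noetherian if `Γ` is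
(Artin-Tate lemma `fg_of_fg_of_fg`). -/
theorem finite_St (K : Type u) [Field K] [Infinite K] [Algebra K Γ] (k : ℕ) :
    Module.Finite (St Γ n T k) (RX Γ n k) := by
  have h1 : Algebra.IsIntegral (St Γ n T k) (RX Γ n k) := by
    refine ⟨fun x => ?_⟩
    induction x using MvPolynomial.induction_on with
    | C r => exact isIntegral_algebraMap (x := algebraMap Γ (St Γ n T k) r)
    | add p q hp hq => exact hp.add hq
    | mul_X p i hp => exact hp.mul (isIntegral_X hT K k i.1 i.2)
  have h2 : Algebra.FiniteType (St Γ n T k) (RX Γ n k) :=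
    Algebra.FiniteType.of_restrictScalars_finiteType Γ _ _
  exact Algebra.IsIntegral.finite

theorem noetherian_St (K : Type u) [Field K] [Infinite K] [Algebra K Γ] [IsNoetherianRing Γ]
    (k : ℕ) : IsNoetherianRing (St Γ n T k) := by
  have h1 := finite_St hT K k
  have h2 : (⊤ : Subalgebra Γ (St Γ n T k)).FG :=
    fg_of_fg_of_fg Γ (St Γ n T k) (RX Γ n k)
      (Algebra.FiniteType.out (R := Γ) (A := RX Γ n k)) h1.fg_top Subtype.val_injective
  have h3 : Algebra.FiniteType Γ (St Γ n T k) := ⟨h2⟩
  exact Algebra.FiniteType.isNoetherianRing Γ _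

end Pool.Agent.H.MP_f5ceca_al.N
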