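import Pool.Agent.H.MP_f5ceca_al.N.Basic
import Pool.Agent.H.MP_f5ceca_al.N.Density

/-!
The commutator ideal of a finitely generated relatively free algebra of a nonmatrix variety is
nilpotent.
-/

namespace Pool.Agent.H.MP_f5ceca_al.N

universe u

open Polynomial TensorProduct

/-- polynomials with all coefficients in a subspace -/
def NilA_pol {K F : Type*} [Field K] [Ring F] [Algebra K F] (U : Submodule K F) :
    Submodule K F[X] where
  carrier := {q | ∀ i, q.coeff i ∈ U}
  add_mem' {a b} ha hb i := by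
    rw [Polynomial.coeff_add]
    exact U.add_mem (ha i) (hb i)
  zero_mem' i := by
    rw [Polynomial.coeff_zero]
    exact U.zero_mem
  smul_mem' c q hq i := by
    rw [Polynomial.coeff_smul]
    exact U.smul_mem c (hq i)

theorem NilA_mem {K F : Type*} [Field K] [Ring F] [Algebra K F] {U : Submodule K F} {q : F[X]} :
    q ∈ NilA_pol U ↔ ∀ i, q.coeff i ∈ U := Iff.rfl

theorem NilA_left {K F : Type*} [Field K] [Ring F] [Algebra K F] {U : Submodule K F}
    (h : ∀ a, ∀ b ∈ U, a * b ∈ U) (p : F[X]) {q : F[X]} (hq : q ∈ NilA_pol U) :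
    p * q ∈ NilA_pol U := by
  intro i
  rw [Polynomial.coeff_mul]
  exact U.sum_mem fun x _ => h _ _ (hq _)

theorem NilA_right {K F : Type*} [Field K] [Ring F] [Algebra K F] {U : Submodule K F}
    (h : ∀ a, ∀ b ∈ U, b * a ∈ U) (p : F[X]) {q : F[X]} (hq : q ∈ NilA_pol U) :
    q * p ∈ NilA_pol U := by
  intro i
  rw [Polynomial.coeff_mul]
  exact U.sum_mem fun x _ => h _ _ (hq _)

/-- transfer to the tensor product -/
theorem NilA_to {K F : Type*} [Field K] [Ring F] [Algebra K F] {U : Submodule K F} {q : F[X]}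
    (hq : q ∈ NilA_pol U) : polyEquivTensor K F q ∈ extS K[X] U := by
  rw [polyEquivTensor_apply, Polynomial.eval₂_eq_sum, Polynomial.sum]
  refine Submodule.sum_mem _ fun i _ => Submodule.subset_span ⟨q.coeff i, hq i, X ^ i, ?_⟩
  rw [Algebra.TensorProduct.tmul_pow, one_pow]
  change (q.coeff i ⊗ₜ[K] (1 : K[X])) * ((1 : F) ⊗ₜ[K] (X ^ i : K[X])) = _
  rw [Algebra.TensorProduct.tmul_mul_tmul, mul_one, one_mul]

/-- transfer from the tensor product -/
theorem NilA_from {K F : Type*} [Field K] [Ring F] [Algebra K F] {U : Submodule K F}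
    {z : F ⊗[K] K[X]} (hz : z ∈ extS K[X] U) : (polyEquivTensor K F).symm z ∈ NilA_pol U := by
  unfold extS at hz
  induction hz using Submodule.span_induction with
  | mem x hx =>
    obtain ⟨u, hu, γ, rfl⟩ := hx
    intro i
    rw [polyEquivTensor_symm_apply_tmul_eq_smul, Polynomial.coeff_smul, Polynomial.coeff_map,
      smul_eq_mul, ← Algebra.commutes, ← Algebra.smul_def]
    exact U.smul_mem _ hu
  | zero =>
    rw [map_zero]
    exact Submodule.zero_mem _
  | add x y _ _ hx hy =>
    rw [map_add]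
    exact Submodule.add_mem _ hx hy
  | smul c x _ hx =>
    rw [map_smul]
    exact Submodule.smul_mem _ c hx

/-- scalar extension for polynomials -/
theorem NilA_val {K F : Type*} [Field K] [Infinite K] [Ring F] [Algebra K F] {Y : Type*}
    (f : FreeAlgebra K Y) (U W : Submodule K F)
    (h : ∀ u : Y → F, (∀ i, u i ∈ U) → FreeAlgebra.lift K u f ∈ W)
    (w : Y → F[X]) (hw : ∀ i, w i ∈ NilA_pol U) : FreeAlgebra.lift K w f ∈ NilA_pol W := by
  have h1 := scalar_ext (Γ := K[X]) f (fun _ => (0 : F)) (fun _ => U) W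
    (fun u hu => by simpa using h u hu) (fun i => polyEquivTensor K F (w i))
    (fun i => NilA_to (hw i))
  have h2 : (fun i => (0 : F) ⊗ₜ[K] (1 : K[X]) + polyEquivTensor K F (w i)) =
      fun i => polyEquivTensor K F (w i) := by
    funext i
    rw [TensorProduct.zero_tmul, zero_add]
  rw [h2] at h1
  have h3 := NilA_from h1
  have h4 : (polyEquivTensor K F).symm
      (FreeAlgebra.lift K (fun i => polyEquivTensor K F (w i)) f) = FreeAlgebra.lift K w f := by
    have h5 : ((polyEquivTensor K F).symm.toAlgHom.comp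
        (FreeAlgebra.lift K (fun i => polyEquivTensor K F (w i)))) = FreeAlgebra.lift K w := by
      apply FreeAlgebra.hom_ext
      funext i
      simp only [Function.comp_apply, AlgHom.comp_apply, FreeAlgebra.lift_ι_apply]
      exact (polyEquivTensor K F).symm_apply_apply (w i)
    rw [← h5]
    rfl
  rwa [h4] at h3

/-- A power of `[x,y]z` is an identity of a nonmatrix variety.

PROOF. `F = FA K 3`, `T = idn S 3`, `a = [x_0,x_1] x_2`. `Λ = Polynomial F`. Let `L` be the left ideal
of `Λ` of all `p * (1 - a t) + τ`, `p ∈ Λ`, `τ` with all coefficients in `T` (`t = Polynomial.X`,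
`a t = C a * X`). If `L = ⊤` then `1 = p (1 - a t) + τ`; comparing coefficients: `p_0 ≡ 1`,
`p_i ≡ p_{i-1} a mod T`, so `p_i ≡ a^i` and for `i` large `a^i ∈ T`. Otherwise `L` is contained in a
maximal left ideal `L'`; `M = Λ ⧸ L'` is simple. `B` = polynomials with all coefficients in `Aug K 3`, an
ideal of `Λ`. For `f ∈ S` and `w i ∈ B` the value `f(w)` has coefficients in `T`: this is `scalar_ext` with `Q = F`,
`Γ = K[t]`, `W = T`, `U i = Aug` (`F ⊗ K[t] ≃ F[t]`, `polyEquivTensor` or the obvious map), `a = 0`, and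
`idn_of_mem`. `T[t]` acts as zero on `M` as `T[t] Λ ≤ T[t] ≤ L ≤ L'`. So by
`commute_on_simple` `[x_0,x_1]` acts as zero on `M`, hence so does `a`. But (1 - a t)·1 ∈ L', i.e.
`v = a t v` for `v` = the class of `1`, so `v = t (a v) = 0`, a contradiction. -/
theorem exists_pow_mem {K : Type u} [Field K] [Infinite K] (S : Set (FreeAlgebra K ℕ))
    (hS : ¬ Satisfies S (Matrix (Fin 2) (Fin 2) K)) :
    ∃ m : ℕ, ((xx K (0 : Fin 3) * xx K 1 - xx K 1 * xx K 0) * xx K 2) ^ m ∈ idn S 3 := by
  obtain ⟨T, hT⟩ : ∃ T : Submodule K (FA K 3), T = idn S 3 := ⟨_, rfl⟩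
  have hTl : ∀ a, ∀ b ∈ T, a * b ∈ T := by
    rw [hT]
    exact fun a b hb => idn_left S 3 a hb
  have hTr : ∀ a, ∀ b ∈ T, b * a ∈ T := by
    rw [hT]
    exact fun a b hb => idn_right S 3 a hb
  obtain ⟨a, ha⟩ : ∃ a : FA K 3, a = (xx K (0 : Fin 3) * xx K 1 - xx K 1 * xx K 0) * xx K 2 :=
    ⟨_, rfl⟩
  rw [← ha, ← hT]
  -- the left ideal
  obtain ⟨Tt, hTt⟩ : ∃ Tt : Ideal (FA K 3)[X], ∀ q, q ∈ Tt ↔ ∀ i, q.coeff i ∈ T :=
    ⟨{ carrier := {q | ∀ i, q.coeff i ∈ T}
       add_mem' := fun hx hy => (NilA_pol T).add_mem hx hy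
       zero_mem' := (NilA_pol T).zero_mem
       smul_mem' := fun p q hq => NilA_left hTl p hq }, fun q => Iff.rfl⟩
  obtain ⟨L, hL⟩ : ∃ L : Ideal (FA K 3)[X], L = Ideal.span {1 - C a * X} ⊔ Tt := ⟨_, rfl⟩
  by_cases hne : L = ⊤
  · have h1 : (1 : (FA K 3)[X]) ∈ L := by
      rw [hne]
      exact Submodule.mem_top
    rw [hL, Submodule.mem_sup] at h1
    obtain ⟨y, hy, τ, hτ, h1⟩ := h1
    rw [Ideal.mem_span_singleton'] at hy
    obtain ⟨p, rfl⟩ := hy
    rw [hTt] at hτ
    have h2 : ∀ i, p.coeff i - a ^ i ∈ T := by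
      intro i
      induction i with
      | zero =>
        have h3 := congrArg (fun q => Polynomial.coeff q 0) h1
        simp only [mul_sub, mul_one, Polynomial.coeff_add, Polynomial.coeff_sub,
          Polynomial.coeff_one_zero, ← mul_assoc, Polynomial.coeff_mul_X_zero, sub_zero] at h3
        have h4 : p.coeff 0 - a ^ 0 = - τ.coeff 0 := by
          rw [pow_zero, ← h3]
          abel
        rw [h4]
        exact T.neg_mem (hτ 0)
      | succ i ih =>
        have h3 := congrArg (fun q => Polynomial.coeff q (i + 1)) h1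
        simp only [mul_sub, mul_one, Polynomial.coeff_add, Polynomial.coeff_sub,
          ← mul_assoc, Polynomial.coeff_mul_X, Polynomial.coeff_mul_C] at h3
        have h5 : (1 : (FA K 3)[X]).coeff (i + 1) = 0 := by
          rw [Polynomial.coeff_one, if_neg (by omega)]
        rw [h5] at h3
        have h4 : p.coeff (i + 1) - a ^ (i + 1) = (p.coeff i - a ^ i) * a - τ.coeff (i + 1) := by
          rw [sub_mul, ← pow_succ]
          have h6 : p.coeff (i + 1) = p.coeff i * a - τ.coeff (i + 1) := by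
            rw [sub_add_eq_add_sub, sub_eq_zero] at h3
            rw [← h3]
            abel
          rw [h6]
          abel
        rw [h4]
        exact T.sub_mem (hTr _ _ ih) (hτ _)
    refine ⟨p.natDegree + 1, ?_⟩
    have h3 := h2 (p.natDegree + 1)
    rw [Polynomial.coeff_eq_zero_of_natDegree_lt (Nat.lt_succ_self _), zero_sub] at h3
    simpa using T.neg_mem h3
  · exfalso
    obtain ⟨L', hL', hLL⟩ := Ideal.exists_le_maximal L hne
    have hsimple : IsSimpleModule (FA K 3)[X] ((FA K 3)[X] ⧸ L') :=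
      isSimpleModule_iff_isCoatom.2 (Ideal.isMaximal_def.1 hL')
    have hzero : ∀ q : (FA K 3)[X], q ∈ NilA_pol T → ∀ x : (FA K 3)[X] ⧸ L', q • x = 0 := by
      intro q hq x
      obtain ⟨y, rfl⟩ := Submodule.Quotient.mk_surjective L' x
      rw [← Submodule.Quotient.mk_smul, Submodule.Quotient.mk_eq_zero]
      apply hLL
      rw [hL]
      apply Submodule.mem_sup_right
      rw [hTt, smul_eq_mul]
      exact NilA_right hTr y hq
    have hAl : ∀ a, ∀ b ∈ Aug K 3, a * b ∈ Aug K 3 := fun a b hb => Aug_left a hb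
    have hAr : ∀ a, ∀ b ∈ Aug K 3, b * a ∈ Aug K 3 := fun a b hb => Aug_right a hb
    have hC : ∀ j : Fin 3, (C (xx K j) : (FA K 3)[X]) ∈ NilA_pol (Aug K 3) := by
      intro j i
      rw [Polynomial.coeff_C]
      split_ifs
      · exact xx_mem_Aug K j
      · exact Submodule.zero_mem _
    have hcomm := commute_on_simple S hS (Λ := (FA K 3)[X]) (NilA_pol (Aug K 3))
      (fun p q hq => NilA_left hAl p hq) (fun p q hq => NilA_right hAr p hq)
      (M := (FA K 3)[X] ⧸ L')
      (fun f hf w hw x => hzero _ (NilA_val f (Aug K 3) T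
        (fun g hg => by rw [hT]; exact idn_of_mem S 3 hf g hg) w hw) x)
      (C (xx K 0)) (C (xx K 1)) (hC 0) (hC 1)
    have hCa : (C a : (FA K 3)[X]) =
        (C (xx K 0) * C (xx K 1) - C (xx K 1) * C (xx K 0)) * C (xx K 2) := by
      rw [ha]
      simp only [map_mul, map_sub]
    have ha0 : ∀ x : (FA K 3)[X] ⧸ L', (C a : (FA K 3)[X]) • x = 0 := by
      intro x
      rw [hCa, mul_smul]
      exact hcomm _
    have h1 : (1 - C a * X : (FA K 3)[X]) ∈ L' := by
      apply hLL
      rw [hL]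
      exact Submodule.mem_sup_left (Ideal.subset_span rfl)
    have h2 : (C a * X : (FA K 3)[X]) ∈ L' := by
      have h3 := ha0 (Submodule.Quotient.mk X)
      rwa [← Submodule.Quotient.mk_smul, Submodule.Quotient.mk_eq_zero, smul_eq_mul] at h3
    have h3 : (1 : (FA K 3)[X]) ∈ L' := by
      have h4 := L'.add_mem h1 h2
      rwa [sub_add_cancel] at h4
    exact hL'.ne_top ((Ideal.eq_top_iff_one L').2 h3)

end Pool.Agent.H.MP_f5ceca_al.N
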