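import Pool.Agent.H.MP_f5ceca_al.N.Tri

/-!
The partial (Fox type) derivatives with commutative suffixes.
-/

namespace Pool.Agent.H.MP_f5ceca_al.N

universe u v

variable (Γ : Type v) [CommRing Γ] (n : ℕ)

/-- The polynomials in commuting variables with coefficients in the free algebra. -/
abbrev partA : Type v := AddMonoidAlgebra (FA Γ n) (Fin n →₀ ℕ)

/-- The matrix of the letter `x_j`. -/
noncomputable def partM (i j : Fin n) : Matrix (Fin 2) (Fin 2) (partA Γ n) :=
  !![AddMonoidAlgebra.single 0 (xx Γ j), if i = j then 1 else 0;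
    0, AddMonoidAlgebra.single (Finsupp.single j 1) 1]

/-- The representation with the derivation in the corner. -/
noncomputable def partRep (i : Fin n) : FA Γ n →ₐ[Γ] Matrix (Fin 2) (Fin 2) (partA Γ n) :=
  FreeAlgebra.lift Γ (partM Γ n i)

theorem partRep_xx (i j : Fin n) : partRep Γ n i (xx Γ j) = partM Γ n i j := by
  rw [partRep, xx, FreeAlgebra.lift_ι_apply]

theorem partRep_diag (i : Fin n) (z : FA Γ n) :
    partRep Γ n i z 0 0 = AddMonoidAlgebra.single 0 z ∧ partRep Γ n i z 1 0 = 0 := by
  induction z using FreeAlgebra.induction with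
  | grade0 r =>
    rw [AlgHom.commutes, Matrix.algebraMap_matrix_apply, Matrix.algebraMap_matrix_apply,
      if_pos rfl, if_neg (by decide)]
    exact ⟨rfl, rfl⟩
  | grade1 j =>
    have h := partRep_xx Γ n i j
    rw [xx] at h
    rw [h]
    exact ⟨rfl, rfl⟩
  | mul x y hx hy =>
    rw [map_mul, Matrix.mul_apply, Matrix.mul_apply, Fin.sum_univ_two, Fin.sum_univ_two, hx.1,
      hx.2, hy.1, hy.2, AddMonoidAlgebra.single_mul_single, add_zero, mul_zero, mul_zero, zero_mul,
      add_zero, add_zero]
    exact ⟨rfl, rfl⟩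
  | add x y hx hy =>
    rw [map_add, Matrix.add_apply, Matrix.add_apply, hx.1, hx.2, hy.1, hy.2, add_zero,
      ← AddMonoidAlgebra.single_add]
    exact ⟨rfl, rfl⟩

/-- The derivatives. -/
noncomputable def partD (p : Fin n × (Fin n →₀ ℕ)) : FA Γ n →ₗ[Γ] FA Γ n where
  toFun z := (partRep Γ n p.1 z 0 1).coeff p.2
  map_add' x y := by
    rw [map_add, Matrix.add_apply, AddMonoidAlgebra.coeff_add, Finsupp.add_apply]
  map_smul' c x := by
    rw [map_smul, Matrix.smul_apply, AddMonoidAlgebra.coeff_smul, Finsupp.smul_apply]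
    rfl

theorem partD_apply (p : Fin n × (Fin n →₀ ℕ)) (z : FA Γ n) :
    partD Γ n p z = (partRep Γ n p.1 z 0 1).coeff p.2 := rfl

/-- There are linear maps `∂ (i,μ) : F → F` (for a word `w = x_{i_1} … x_{i_r}`:
`∂ (i,μ) w = ∑ x_{i_1} … x_{i_{p-1}}` over the positions `p` with `i_p = i` such that the commutative image of
`x_{i_{p+1}} … x_{i_r}` is `μ`). They are characterized by `∂ 1 = 0` and
`∂ (i,μ) (z x_j) = ∂ (i, μ - e_j) z` (if `μ j ≠ 0`, otherwise `0`) `+ z` if `i = j` and `μ = 0`. All but finitely many
vanish on a given `z`.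

CONSTRUCTION for instance: `FreeAlgebra.lift` into the algebra of linear endomorphisms of the module
`F × ((Fin n × (Fin n →₀ ℕ)) → F)` acting from the right (opposite algebra), or through
`FreeAlgebra.equivMonoidAlgebraFreeMonoid` and `Finsupp.lift` with an explicit function on words. -/
theorem exists_partial : ∃ d : (Fin n × (Fin n →₀ ℕ)) → (FA Γ n →ₗ[Γ] FA Γ n),
    (∀ p, d p 1 = 0) ∧
    (∀ p z j, d p (z * xx Γ j) =
      (if p.2 j = 0 then 0 else d (p.1, p.2 - Finsupp.single j 1) z) +
        (if p.1 = j ∧ p.2 = 0 then z else 0)) ∧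
    ∀ z, (Function.support fun p => d p z).Finite := by
  refine ⟨partD Γ n, ?_, ?_, ?_⟩
  · intro p
    rw [partD_apply, map_one, Matrix.one_apply_ne (by decide)]
    rfl
  · intro p z j
    rw [partD_apply, map_mul, Matrix.mul_apply, Fin.sum_univ_two, partRep_xx,
      (partRep_diag Γ n p.1 z).1, add_comm, AddMonoidAlgebra.coeff_add, Finsupp.add_apply]
    congr 1
    · change (partRep Γ n p.1 z 0 1 * AddMonoidAlgebra.single (Finsupp.single j 1) 1).coeff p.2 = _
      by_cases h : p.2 j = 0
      · rw [if_pos h, AddMonoidAlgebra.coeff_mul_single_of_forall_add_ne]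
        intro d hd
        rw [← hd] at h
        simp at h
      · rw [if_neg h, AddMonoidAlgebra.coeff_mul_single_eq_coeff_mul (p.2 - Finsupp.single j 1),
          mul_one]
        · rfl
        · intro m' _
          have hle : Finsupp.single j 1 ≤ p.2 := by
            rw [Finsupp.single_le_iff]
            omega
          constructor
          · intro h'
            rw [← h', add_tsub_cancel_right]
          · intro h'
            rw [h', tsub_add_cancel_of_le hle]
    · change ((AddMonoidAlgebra.single 0 z : partA Γ n) * (if p.1 = j then 1 else 0)).coeff p.2 = _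
      by_cases h : p.1 = j
      · rw [if_pos h, mul_one]
        by_cases h' : p.2 = 0
        · rw [if_pos ⟨h, h'⟩, h', AddMonoidAlgebra.coeff_single, Finsupp.single_eq_same]
        · rw [if_neg (fun h'' => h' h''.2), AddMonoidAlgebra.coeff_single,
            Finsupp.single_eq_of_ne h']
      · rw [if_neg h, mul_zero, if_neg (fun h'' => h h''.1)]
        rfl
  · intro z
    refine (Set.finite_iUnion fun i : Fin n =>
      ((partRep Γ n i z 0 1).coeff.support.finite_toSet.image fun μ => (i, μ))).subset ?_
    intro p hp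
    rw [Set.mem_iUnion]
    refine ⟨p.1, p.2, ?_, rfl⟩
    rw [Finset.mem_coe, Finsupp.mem_support_iff]
    exact hp

end Pool.Agent.H.MP_f5ceca_al.N
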