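import Pool.Agent.H.MP_f5ceca_al.N.Tri

/-!
The action of the operators on the symbols.
-/

namespace Pool.Agent.H.MP_f5ceca_al.N

universe u v

variable (Γ : Type v) [CommRing Γ] (n : ℕ)

/-- the substitution `x_j ↦ x_j + [x_j, y] g` -/
noncomputable def phi (y g : FA Γ n) : FA Γ n →ₐ[Γ] FA Γ n :=
  FreeAlgebra.lift Γ fun j => xx Γ j + (xx Γ j * y - y * xx Γ j) * g

/-- the jump function `h_a = (y(X_{a+1}) - y(X_a)) g(X_{a+1})` -/
noncomputable def hh (k : ℕ) (y g : FA Γ n) (a : Fin k) : RX Γ n k :=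
  (ev Γ n k a.succ y - ev Γ n k a.castSucc y) * ev Γ n k a.succ g

/-- the entry just above the diagonal is a derivation along the two diagonal entries -/
theorem tau_e_mul (k : ℕ) (z w : FA Γ n) (a : Fin k) :
    tau Γ n k (z * w) a.castSucc a.succ =
      MvPolynomial.C (ev Γ n k a.castSucc z) * tau Γ n k w a.castSucc a.succ +
        tau Γ n k z a.castSucc a.succ * MvPolynomial.C (ev Γ n k a.succ w) := by
  rw [map_mul, Matrix.mul_apply, ← tau_diag, ← tau_diag]
  have hne : a.castSucc ≠ a.succ := by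
    intro h
    have := congrArg Fin.val h
    simp at this
  rw [← Finset.sum_pair hne (f := fun c => tau Γ n k z a.castSucc c * tau Γ n k w c a.succ)]
  symm
  refine Finset.sum_subset (Finset.subset_univ _) fun c _ hc => ?_
  rw [Finset.mem_insert, Finset.mem_singleton, not_or] at hc
  have h0 : (c : ℕ) ≠ a := fun h => hc.1 (Fin.ext (by simpa using h))
  have h1 : (c : ℕ) ≠ a + 1 := fun h => hc.2 (Fin.ext (by simpa using h))
  rcases lt_or_ge (c : ℕ) a with h | h
  · rw [tau_upper Γ n k z a.castSucc c (by simpa using h), zero_mul]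
  · rw [tau_upper Γ n k w c a.succ (by simp; omega), mul_zero]

theorem phi_xx (y g : FA Γ n) (j : Fin n) : phi Γ n y g (xx Γ j) =
    xx Γ j + (xx Γ j * y - y * xx Γ j) * g := by
  rw [phi, xx, FreeAlgebra.lift_ι_apply]
  rfl

theorem phi_sub_mem_aux (y g z : FA Γ n) : phi Γ n y g z - z ∈ Com Γ n := by
  induction z using FreeAlgebra.induction with
  | grade0 r =>
    rw [AlgHom.commutes, sub_self]
    exact Submodule.zero_mem _
  | grade1 j =>
    have h := phi_xx Γ n y g j
    rw [xx] at h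
    rw [h, add_sub_cancel_left]
    refine Submodule.subset_span ⟨1, g, FreeAlgebra.ι Γ j, y, ?_⟩
    rw [one_mul]
  | mul x w hx hw =>
    have h : phi Γ n y g (x * w) - x * w =
        phi Γ n y g x * (phi Γ n y g w - w) + (phi Γ n y g x - x) * w := by
      rw [map_mul, mul_sub, sub_mul]
      abel
    rw [h]
    exact Submodule.add_mem _ (Com_left Γ _ hw) (Com_right Γ _ hx)
  | add x w hx hw =>
    have h : phi Γ n y g (x + w) - (x + w) =
        (phi Γ n y g x - x) + (phi Γ n y g w - w) := by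
      rw [map_add]
      abel
    rw [h]
    exact Submodule.add_mem _ hx hw

theorem ev_phi (k : ℕ) (y g z : FA Γ n) (a : Fin (k + 1)) :
    ev Γ n k a (phi Γ n y g z) = ev Γ n k a z := by
  have h := ev_eq_zero Γ n k a (phi_sub_mem_aux Γ n y g z)
  rw [map_sub] at h
  exact sub_eq_zero.mp h

theorem ev_xx (k : ℕ) (a : Fin (k + 1)) (j : Fin n) : ev Γ n k a (xx Γ j) = gX Γ n k a j := by
  rw [ev, xx, FreeAlgebra.lift_ι_apply]

theorem phi_mem_Com (y g : FA Γ n) {z : FA Γ n} (hz : z ∈ Com Γ n) :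
    phi Γ n y g z ∈ Com Γ n := by
  have h := Submodule.add_mem _ (phi_sub_mem_aux Γ n y g z) hz
  rwa [sub_add_cancel] at h

theorem comm_mem (z w : FA Γ n) : z * w - w * z ∈ Com Γ n :=
  Submodule.subset_span ⟨1, 1, z, w, by rw [one_mul, mul_one]⟩

/-- the commutator of two letters -/
theorem tau_phi_xx (k : ℕ) (y g : FA Γ n) (i j : Fin n) (a : Fin k) :
    tau Γ n k (phi Γ n y g (xx Γ i * xx Γ j - xx Γ j * xx Γ i)) a.castSucc a.succ =
      (1 + hh Γ n k y g a) • tau Γ n k (xx Γ i * xx Γ j - xx Γ j * xx Γ i) a.castSucc a.succ := by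
  have hs : ∀ z w : FA Γ n, tau Γ n k (z - w) a.castSucc a.succ =
      tau Γ n k z a.castSucc a.succ - tau Γ n k w a.castSucc a.succ := by
    intro z w
    rw [map_sub, Matrix.sub_apply]
  have ha : ∀ z w : FA Γ n, tau Γ n k (z + w) a.castSucc a.succ =
      tau Γ n k z a.castSucc a.succ + tau Γ n k w a.castSucc a.succ := by
    intro z w
    rw [map_add, Matrix.add_apply]
  have hc : ∀ l : Fin n, tau Γ n k (phi Γ n y g (xx Γ l)) a.castSucc a.succ =
      tau Γ n k (xx Γ l) a.castSucc a.succ +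
      (MvPolynomial.C (gX Γ n k a.castSucc l) * tau Γ n k y a.castSucc a.succ +
        tau Γ n k (xx Γ l) a.castSucc a.succ * MvPolynomial.C (ev Γ n k a.succ y) -
        (MvPolynomial.C (ev Γ n k a.castSucc y) * tau Γ n k (xx Γ l) a.castSucc a.succ +
        tau Γ n k y a.castSucc a.succ * MvPolynomial.C (gX Γ n k a.succ l))) *
        MvPolynomial.C (ev Γ n k a.succ g) := by
    intro l
    rw [phi_xx, ha, tau_e_mul, ev_eq_zero Γ n k _ (comm_mem Γ n _ _), MvPolynomial.C_0, zero_mul,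
      zero_add, hs, tau_e_mul, tau_e_mul, ev_xx, ev_xx]
  rw [map_sub, map_mul, map_mul, hs, hs, tau_e_mul, tau_e_mul, tau_e_mul, tau_e_mul, hc, hc,
    ev_phi, ev_phi, ev_phi, ev_phi, ev_xx, ev_xx, ev_xx, ev_xx, MvPolynomial.smul_eq_C_mul, hh,
    map_add, map_mul, map_sub, MvPolynomial.C_1]
  ring

/-- On `Com` the substitution multiplies the entry `(a,a+1)` by `1 + h_a`.

PROOF. By `Com_eq` and multiplicativity it is enough to treat `z = [x_i,x_j]` (for `u z v` use that `phi u ≡ u mod Com`,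
so the diagonal entries do not change). Let `d_i = [x_i,y]`, `e(z)` = entry `(a,a+1)`, `0`/`1` = evaluation at
the gaps `a`, `a+1`. `phi [x_i,x_j] ≡ [d_i g, x_j] + [x_i, d_j g] mod Com^2`,
`e(d_i g x_j) = e(d_i) g₁ X₁ⱼ`, `e(x_j d_i g) = X₀ⱼ e(d_i) g₁`, and
`e(d_i) = (X₀ᵢ - X₁ᵢ) e(y) + (y₁ - y₀) ξᵢ`. The terms with `e(y)` cancel and one gets
`g₁ (y₁ - y₀) (ξᵢ (X₁ⱼ - X₀ⱼ) - ξⱼ (X₁ᵢ - X₀ᵢ)) = h_a e([x_i,x_j])`. -/
theorem tau_phi_Com (k : ℕ) (y g : FA Γ n) {z : FA Γ n} (hz : z ∈ Com Γ n) (a : Fin k) :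
    tau Γ n k (phi Γ n y g z) a.castSucc a.succ =
      (1 + hh Γ n k y g a) • tau Γ n k z a.castSucc a.succ := by
  rw [Com_eq] at hz
  induction hz using Submodule.span_induction with
  | mem x hx =>
    obtain ⟨u, v, i, j, rfl⟩ := hx
    have h1 : ∀ u v c : FA Γ n, c ∈ Com Γ n → tau Γ n k (u * c * v) a.castSucc a.succ =
        MvPolynomial.C (ev Γ n k a.castSucc u) * tau Γ n k c a.castSucc a.succ *
          MvPolynomial.C (ev Γ n k a.succ v) := by
      intro u v c hc
      rw [tau_e_mul, tau_e_mul, map_mul, ev_eq_zero Γ n k _ hc, ev_eq_zero Γ n k _ hc, mul_zero,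
        MvPolynomial.C_0, zero_mul, zero_add, mul_zero, add_zero]
    rw [map_mul (phi Γ n y g), map_mul (phi Γ n y g),
      h1 _ _ _ (phi_mem_Com Γ n y g (comm_mem Γ n _ _)),
      h1 _ _ _ (comm_mem Γ n _ _), ev_phi, ev_phi, tau_phi_xx, MvPolynomial.smul_eq_C_mul,
      MvPolynomial.smul_eq_C_mul]
    ring
  | zero => rw [map_zero, map_zero, Matrix.zero_apply, smul_zero]
  | add x w _ _ hx hw =>
    rw [map_add, map_add, map_add, Matrix.add_apply, Matrix.add_apply, hx, hw, smul_add]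
  | smul r x _ hx =>
    rw [map_smul, map_smul, map_smul, Matrix.smul_apply, Matrix.smul_apply, hx, smul_comm]

theorem phi_sub_mem (y g z : FA Γ n) : phi Γ n y g z - z ∈ Com Γ n :=
  phi_sub_mem_aux Γ n y g z

theorem phi_mem_Fil (k : ℕ) (y g : FA Γ n) {z : FA Γ n} (hz : z ∈ Fil Γ n k) :
    phi Γ n y g z ∈ Fil Γ n k := by
  induction k generalizing z with
  | zero =>
    rw [Fil_zero]
    exact Submodule.mem_top
  | succ k ih =>
    rw [Fil_succ] at hz ⊢
    induction hz using Submodule.mul_induction_on' with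
    | mem_mul_mem x hx w hw =>
      rw [map_mul]
      exact Submodule.mul_mem_mul (ih hx) (phi_mem_Com Γ n y g hw)
    | add x _ w _ hx hw =>
      rw [map_add]
      exact Submodule.add_mem _ hx hw

theorem tau_phi_apply (k i : ℕ) (y g : FA Γ n) {z : FA Γ n} (hz : z ∈ Fil Γ n i)
    (a b : Fin (k + 1)) (hab : (b : ℕ) = a + i) :
    tau Γ n k (phi Γ n y g z) a b =
      (∏ c ∈ Finset.univ.filter (fun c : Fin k => (a : ℕ) ≤ c ∧ (c : ℕ) < b),
        (1 + hh Γ n k y g c)) • tau Γ n k z a b := by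
  induction i generalizing z a b with
  | zero =>
    have h : b = a := Fin.ext (by omega)
    subst h
    rw [Finset.filter_false_of_mem (by intro c _; omega), Finset.prod_empty, one_smul, tau_diag,
      tau_diag, ev_phi]
  | succ i ih =>
    have hb := b.2
    have ha := a.2
    have hz' := hz
    rw [Fil_succ] at hz
    induction hz using Submodule.mul_induction_on' with
    | mem_mul_mem x hx w hw =>
      have hk : (a : ℕ) + i < k := by omega
      obtain ⟨c, hc⟩ : ∃ c : Fin k, (c : ℕ) = a + i := ⟨⟨a + i, hk⟩, rfl⟩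
      have hb' : b = c.succ := Fin.ext (by rw [Fin.val_succ]; omega)
      subst hb'
      have hw1 : w ∈ Fil Γ n 1 := by
        rw [Fil_one]
        exact hw
      have hpw : phi Γ n y g w ∈ Fil Γ n 1 := phi_mem_Fil Γ n 1 y g hw1
      rw [map_mul, tau_mul_apply Γ n k i 1 (phi_mem_Fil Γ n i y g hx) hpw a c.castSucc c.succ
        (by simpa using hc) (by simp),
        tau_mul_apply Γ n k i 1 hx hw1 a c.castSucc c.succ (by simpa using hc) (by simp),
        ih hx a c.castSucc (by simpa using hc), tau_phi_Com Γ n k y g hw]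
      have hset : (Finset.univ.filter (fun d : Fin k => (a : ℕ) ≤ d ∧ (d : ℕ) < c.succ)) =
          insert c (Finset.univ.filter (fun d : Fin k => (a : ℕ) ≤ d ∧ (d : ℕ) < c.castSucc)) := by
        ext d
        rw [Finset.mem_insert, Finset.mem_filter, Finset.mem_filter, Fin.val_succ, Fin.val_castSucc,
          Fin.ext_iff]
        simp only [Finset.mem_univ, true_and]
        omega
      have hnot : c ∉ Finset.univ.filter
          (fun d : Fin k => (a : ℕ) ≤ d ∧ (d : ℕ) < c.castSucc) := by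
        rw [Finset.mem_filter]
        simp
      rw [hset, Finset.prod_insert hnot]
      simp only [MvPolynomial.smul_eq_C_mul, map_mul]
      ring
    | add x hx w hw hx' hw' =>
      rw [← Fil_succ] at hx hw
      rw [map_add, map_add, map_add, Matrix.add_apply, Matrix.add_apply, hx' hx, hw' hw, smul_add]

/-- The action of the operator on symbols. Induction with `Fil_succ`, `tau_mul_apply`, `tau_phi_Com`:
for `z ∈ Fil i`, `a + i = b`, the entry `(a,b)` is multiplied by `∏_{a ≤ c < b} (1 + h_c)`. -/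
theorem sym_phi (k : ℕ) (y g : FA Γ n) {z : FA Γ n} (hz : z ∈ Fil Γ n k) :
    sym Γ n k (phi Γ n y g z) = (∏ a : Fin k, (1 + hh Γ n k y g a)) • sym Γ n k z := by
  have h := tau_phi_apply Γ n k k y g hz 0 (Fin.last k) (by simp)
  rw [Finset.filter_true_of_mem (by intro c _; simp)] at h
  exact h

end Pool.Agent.H.MP_f5ceca_al.N
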