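import Pool.Agent.H.MP_f5ceca_al.N.Defs

/-!
Identities and extension of scalars over an infinite field.
-/

namespace Pool.Agent.H.MP_f5ceca_al.N

open scoped TensorProduct

/-- The `K`-subspace `U ⊗ Γ` of `Q ⊗ Γ`. -/
def extS {K Q : Type*} [Field K] [Ring Q] [Algebra K Q] (Γ : Type*) [CommRing Γ] [Algebra K Γ]
    (U : Submodule K Q) : Submodule K (Q ⊗[K] Γ) :=
  Submodule.span K {z | ∃ u ∈ U, ∃ γ : Γ, z = u ⊗ₜ[K] γ}

/-- elements of `U ⊗ Γ` are finite sums -/
theorem sx_sum {K Q Γ : Type*} [Field K] [Ring Q] [Algebra K Q] [CommRing Γ] [Algebra K Γ]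
    {U : Submodule K Q} {z : Q ⊗[K] Γ} (hz : z ∈ extS Γ U) :
    ∃ (n : ℕ) (b : Fin n → Q) (c : Fin n → Γ), (∀ l, b l ∈ U) ∧ z = ∑ l, b l ⊗ₜ[K] c l := by
  obtain ⟨n, r, g, hg⟩ := Submodule.mem_span_set'.1 hz
  choose u hu γ hγ using fun l => (g l).2
  refine ⟨n, fun l => r l • u l, γ, fun l => U.smul_mem _ (hu l), ?_⟩
  rw [← hg]
  refine Finset.sum_congr rfl fun l _ => ?_
  rw [hγ l, TensorProduct.smul_tmul']

/-- the range of `W ⊗ P → Q ⊗ P` -/
theorem sx_range {K Q P : Type*} [Field K] [Ring Q] [Algebra K Q] [CommRing P] [Algebra K P]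
    (W : Submodule K Q) {z : Q ⊗[K] P} (hz : z ∈ LinearMap.range (W.subtype.rTensor P)) :
    z ∈ extS P W := by
  obtain ⟨y, rfl⟩ := hz
  induction y using TensorProduct.induction_on with
  | zero => rw [map_zero]; exact Submodule.zero_mem _
  | tmul w p =>
    rw [LinearMap.rTensor_tmul]
    exact Submodule.subset_span ⟨w, w.2, p, rfl⟩
  | add x y hx hy => rw [map_add]; exact Submodule.add_mem _ hx hy

/-- evaluation of the polynomial coefficients -/
noncomputable def sxE {K Q σ : Type*} [Field K] [Ring Q] [Algebra K Q] (s : σ → K) :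
    Q ⊗[K] MvPolynomial σ K →ₐ[K] Q :=
  Algebra.TensorProduct.lift (AlgHom.id K Q) ((Algebra.ofId K Q).comp (MvPolynomial.aeval s))
    (fun x y => (Algebra.commutes ((MvPolynomial.aeval s) y) x).symm)

theorem sxE_tmul {K Q σ : Type*} [Field K] [Ring Q] [Algebra K Q] (s : σ → K) (q : Q)
    (p : MvPolynomial σ K) : sxE s (q ⊗ₜ[K] p) = MvPolynomial.eval s p • q := by
  unfold sxE
  rw [Algebra.TensorProduct.lift_tmul]
  simp only [AlgHom.coe_id, id_eq, AlgHom.coe_comp, Function.comp_apply]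
  rw [Algebra.ofId_apply, MvPolynomial.aeval_eq_eval, ← Algebra.commutes, ← Algebra.smul_def]

/-- an element of `Q ⊗ P` all of whose evaluations are in `W` is in `W ⊗ P` -/
theorem sx_mem {K Q σ : Type*} [Field K] [Infinite K] [Ring Q] [Algebra K Q]
    (W : Submodule K Q) (g : Q ⊗[K] MvPolynomial σ K) (h : ∀ s : σ → K, sxE s g ∈ W) :
    g ∈ extS (MvPolynomial σ K) W := by
  classical
  apply sx_range
  rw [← rTensor_mkQ, LinearMap.mem_ker]
  have hcoord : ∀ l : (Q ⧸ W) →ₗ[K] K,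
      TensorProduct.lid K (MvPolynomial σ K) (l.rTensor _ (W.mkQ.rTensor _ g)) = 0 := by
    intro l
    apply MvPolynomial.funext
    intro s
    rw [map_zero]
    have key : ∀ z : Q ⊗[K] MvPolynomial σ K, MvPolynomial.eval s
        (TensorProduct.lid K (MvPolynomial σ K) (l.rTensor _ (W.mkQ.rTensor _ z))) =
          l (W.mkQ (sxE s z)) := by
      intro z
      induction z using TensorProduct.induction_on with
      | zero => simp
      | tmul q p =>
        rw [sxE_tmul, LinearMap.rTensor_tmul, LinearMap.rTensor_tmul, TensorProduct.lid_tmul,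
          MvPolynomial.smul_eval, LinearMap.map_smul, LinearMap.map_smul, smul_eq_mul, mul_comm]
      | add x y hx hy => simp only [map_add, hx, hy]
    rw [key, Submodule.mkQ_apply, (Submodule.Quotient.mk_eq_zero W).2 (h s), map_zero]
  let b := Module.Basis.ofVectorSpace K (Q ⧸ W)
  apply (TensorProduct.equivFinsuppOfBasisLeft (N := MvPolynomial σ K) b).injective
  rw [map_zero]
  ext1 i
  rw [TensorProduct.equivFinsuppOfBasisLeft_apply, hcoord, Finsupp.zero_apply]

/-- SCALAR EXTENSION. If `f (a + u) ∈ W` for all families `u i ∈ U i` then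
`f (a ⊗ 1 + u) ∈ W ⊗ Γ` for all families `u i ∈ U i ⊗ Γ`.

PROOF. (1) Generic case: let `σ` be a type, `P = MvPolynomial σ K`, and `u i = ∑_{l ∈ s i} b (i,l) ⊗ X (i,l)`
a finite sum with `b (i,l) ∈ U i`, `σ = X × ℕ` (write each given `u i ∈ U i ⊗ Γ` as a finite sum
`∑_l b (i,l) ⊗ c (i,l)`, `l` in an initial segment of `ℕ`). Put `g = lift K (fun i => a i ⊗ 1 + u i) f` in
`Q ⊗ P`. For every `s : σ → K` the algebra map `id ⊗ (eval s) : Q ⊗ P → Q` (that is
`Algebra.TensorProduct.lift`/`map` followed by `Q ⊗ K ≃ Q`) sends `g` to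
`f (a i + ∑_l s (i,l) • b (i,l)) ∈ W`. So for every `K`-linear `ℓ : Q → K` vanishing on `W` the polynomial
`(ℓ ⊗ id) g ∈ P` vanishes at all points of `K^σ`, hence is `0` (`MvPolynomial.funext`, `K` infinite).
An element `g` of `Q ⊗ P` with `(ℓ ⊗ id) g = 0` for all `ℓ` vanishing on `W` is in `W ⊗ P`
(choose a basis of `P` over `K`, `g = ∑_e q_e ⊗ e`, the coordinates of `(ℓ ⊗ id) g` are `ℓ (q_e)`; so
`ℓ (q_e) = 0` for all such `ℓ` and therefore `q_e ∈ W`).
(2) Apply the algebra map `id ⊗ (aeval c) : Q ⊗ P → Q ⊗ Γ`, `c (i,l) ∈ Γ`. -/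
theorem scalar_ext {K Q Γ : Type*} [Field K] [Infinite K] [Ring Q] [Algebra K Q] [CommRing Γ]
    [Algebra K Γ] {X : Type*} (f : FreeAlgebra K X) (a : X → Q) (U : X → Submodule K Q)
    (W : Submodule K Q)
    (h : ∀ u : X → Q, (∀ i, u i ∈ U i) → FreeAlgebra.lift K (fun i => a i + u i) f ∈ W)
    (u : X → Q ⊗[K] Γ) (hu : ∀ i, u i ∈ extS Γ (U i)) :
    FreeAlgebra.lift K (fun i => a i ⊗ₜ[K] (1 : Γ) + u i) f ∈ extS Γ W := by
  choose n b c hb huc using fun i => sx_sum (hu i)
  let σ := Σ i : X, Fin (n i)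
  let w : X → Q ⊗[K] MvPolynomial σ K := fun i =>
    a i ⊗ₜ[K] 1 + ∑ l, b i l ⊗ₜ[K] (MvPolynomial.X ⟨i, l⟩ : MvPolynomial σ K)
  have h1 : FreeAlgebra.lift K w f ∈ extS (MvPolynomial σ K) W := by
    apply sx_mem
    intro s
    have h2 : (sxE s).comp (FreeAlgebra.lift K w) =
        FreeAlgebra.lift K fun i => a i + ∑ l, s ⟨i, l⟩ • b i l := by
      apply FreeAlgebra.hom_ext
      funext i
      simp only [Function.comp_apply, AlgHom.coe_comp, FreeAlgebra.lift_ι_apply, w, map_add,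
        map_sum, sxE_tmul, map_one, one_smul, MvPolynomial.eval_X]
    have h3 := congrArg (fun F : FreeAlgebra K X →ₐ[K] Q => F f) h2
    simp only [AlgHom.coe_comp, Function.comp_apply] at h3
    rw [h3]
    exact h _ fun i => Submodule.sum_mem _ fun l _ => Submodule.smul_mem _ _ (hb i l)
  let m : Q ⊗[K] MvPolynomial σ K →ₐ[K] Q ⊗[K] Γ :=
    Algebra.TensorProduct.map (AlgHom.id K Q) (MvPolynomial.aeval fun z : σ => c z.1 z.2)
  have h4 : m.comp (FreeAlgebra.lift K w) =
      FreeAlgebra.lift K fun i => a i ⊗ₜ[K] (1 : Γ) + u i := by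
    apply FreeAlgebra.hom_ext
    funext i
    simp only [Function.comp_apply, AlgHom.coe_comp, FreeAlgebra.lift_ι_apply, w, map_add,
      map_sum, m, Algebra.TensorProduct.map_tmul, AlgHom.coe_id, id_eq, map_one,
      MvPolynomial.aeval_X, huc i]
  have h5 : ∀ z ∈ extS (MvPolynomial σ K) W, m z ∈ extS Γ W := by
    intro z hz
    refine Submodule.span_induction (p := fun z _ => m z ∈ extS Γ W) ?_ ?_ ?_ ?_ hz
    · rintro _ ⟨q, hq, p, rfl⟩
      exact Submodule.subset_span ⟨q, hq, _, Algebra.TensorProduct.map_tmul _ _ _ _⟩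
    · rw [map_zero]
      exact Submodule.zero_mem _
    · intro x y _ _ hx hy
      rw [map_add]
      exact Submodule.add_mem _ hx hy
    · intro r x _ hx
      rw [map_smul]
      exact Submodule.smul_mem _ _ hx
  have h6 := congrArg (fun F : FreeAlgebra K X →ₐ[K] Q ⊗[K] Γ => F f) h4
  simp only [AlgHom.coe_comp, Function.comp_apply] at h6
  rw [← h6]
  exact h5 _ h1

theorem sxc_aux {K Q B' Γ : Type*} [Field K] [Infinite K] [Ring Q] [Algebra K Q] [Ring B']
    [Algebra K B'] [CommRing Γ] [Algebra K Γ] {X : Type*} (i : B' →ₐ[K] Q)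
    (hi : Function.Injective i) (j : Γ →ₐ[K] Q) (hij : ∀ x y, Commute (i x) (j y))
    (f : FreeAlgebra K X) (B Φ : Submodule K Q) (hB : ∀ b ∈ B, ∃ x, i x = b)
    (hΦ : ∀ b ∈ Φ, ∃ y, j y = b)
    (h : ∀ w : X → Q, (∀ i, w i ∈ B) → FreeAlgebra.lift K w f = 0)
    (w : X → Q) (hw : ∀ i, w i ∈ B * Φ) : FreeAlgebra.lift K w f = 0 := by
  let m : B' ⊗[K] Γ →ₐ[K] Q := Algebra.TensorProduct.lift i j hij
  let U : Submodule K B' := B.comap i.toLinearMap
  have h1 : ∀ z ∈ B * Φ, ∃ u ∈ extS Γ U, m u = z := by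
    intro z hz
    refine Submodule.mul_induction_on hz ?_ ?_
    · intro b hb φ hφ
      obtain ⟨x, rfl⟩ := hB b hb
      obtain ⟨y, rfl⟩ := hΦ φ hφ
      exact ⟨x ⊗ₜ[K] y, Submodule.subset_span ⟨x, hb, y, rfl⟩,
        Algebra.TensorProduct.lift_tmul _ _ _ _ _⟩
    · rintro x y ⟨u, hu, rfl⟩ ⟨v, hv, rfl⟩
      exact ⟨u + v, Submodule.add_mem _ hu hv, map_add _ _ _⟩
  choose u hu hmu using fun x => h1 (w x) (hw x)
  have h2 := scalar_ext (Γ := Γ) f (fun _ => (0 : B')) (fun _ => U) ⊥ (by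
    intro v hv
    rw [Submodule.mem_bot]
    apply hi
    rw [map_zero]
    have h3 : i.comp (FreeAlgebra.lift K fun x => (0 : B') + v x) =
        FreeAlgebra.lift K fun x => i (v x) := by
      apply FreeAlgebra.hom_ext
      funext x
      simp only [Function.comp_apply, AlgHom.coe_comp, FreeAlgebra.lift_ι_apply, zero_add]
    have h4 := congrArg (fun F : FreeAlgebra K X →ₐ[K] Q => F f) h3
    simp only [AlgHom.coe_comp, Function.comp_apply] at h4
    rw [h4]
    exact h _ fun x => hv x) u hu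
  have h5 : FreeAlgebra.lift K (fun x => (0 : B') ⊗ₜ[K] (1 : Γ) + u x) f = 0 := by
    have h6 : extS Γ (⊥ : Submodule K B') = ⊥ := by
      rw [eq_bot_iff]
      refine Submodule.span_le.2 ?_
      rintro _ ⟨q, hq, γ, rfl⟩
      rw [Submodule.mem_bot] at hq
      rw [hq, TensorProduct.zero_tmul]
      exact Submodule.zero_mem _
    rw [h6] at h2
    exact h2
  have h7 : m.comp (FreeAlgebra.lift K fun x => (0 : B') ⊗ₜ[K] (1 : Γ) + u x) =
      FreeAlgebra.lift K w := by
    apply FreeAlgebra.hom_ext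
    funext x
    simp only [Function.comp_apply, AlgHom.coe_comp, FreeAlgebra.lift_ι_apply,
      TensorProduct.zero_tmul, zero_add, hmu]
  have h8 := congrArg (fun F : FreeAlgebra K X →ₐ[K] Q => F f) h7
  simp only [AlgHom.coe_comp, Function.comp_apply] at h8
  rw [← h8, h5, map_zero]

open scoped IsMulCommutative in
/-- The commuting form. `B` is a subspace of the algebra `Q` on which `f` vanishes, `Φ` a subspace
of pairwise commuting elements which commute with the elements of `B`. Then `f` vanishes on `B * Φ`.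

PROOF. Let `B' = Algebra.adjoin K B`, `Φ' = Algebra.adjoin K Φ` (commutative,
`Algebra.adjoinCommRingOfComm`), which commute elementwise. Apply `scalar_ext` to the algebra `B'`, to `Γ = Φ'`,
`a = 0`, `U i` = the subspace `B` of `B'`, `W = ⊥`, and to a family `u i ∈ U i ⊗ Φ'` which is mapped to
the given `w i ∈ B * Φ` under the multiplication map `B' ⊗ Φ' → Q` (`Algebra.TensorProduct.lift`,
an algebra map since the two subalgebras commute). -/
theorem scalar_ext_comm {K Q : Type*} [Field K] [Infinite K] [Ring Q] [Algebra K Q] {X : Type*}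
    (f : FreeAlgebra K X) (B Φ : Submodule K Q) (hΦ : ∀ a ∈ Φ, ∀ b ∈ Φ, a * b = b * a)
    (hBΦ : ∀ a ∈ B, ∀ b ∈ Φ, a * b = b * a)
    (h : ∀ w : X → Q, (∀ i, w i ∈ B) → FreeAlgebra.lift K w f = 0)
    (w : X → Q) (hw : ∀ i, w i ∈ B * Φ) : FreeAlgebra.lift K w f = 0 := by
  have hmc : IsMulCommutative (Algebra.adjoin K (Φ : Set Q)) :=
    Algebra.isMulCommutative_adjoin K (fun a ha b hb => hΦ a ha b hb)
  refine sxc_aux (B' := Algebra.adjoin K (B : Set Q)) (Γ := Algebra.adjoin K (Φ : Set Q))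
    (Algebra.adjoin K (B : Set Q)).val Subtype.val_injective
    (Algebra.adjoin K (Φ : Set Q)).val ?_ f B Φ
    (fun b hb => ⟨⟨b, Algebra.subset_adjoin hb⟩, rfl⟩)
    (fun b hb => ⟨⟨b, Algebra.subset_adjoin hb⟩, rfl⟩) h w hw
  intro x y
  have h1 : ∀ z ∈ Algebra.adjoin K (Φ : Set Q), ∀ b ∈ B, Commute b z := by
    intro z hz b hb
    exact Algebra.commute_of_mem_adjoin_of_forall_mem_commute hz fun c hc => hBΦ b hb c hc
  exact (Algebra.commute_of_mem_adjoin_of_forall_mem_commute x.2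
    fun c hc => (h1 y.1 y.2 c hc).symm).symm

end Pool.Agent.H.MP_f5ceca_al.N
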