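import Pool.Agent.H.MP_f5ceca_al.N.BdB
import Pool.Agent.H.MP_f5ceca_al.N.Vand

/-!
The layers of an operator-stable ideal are modules over a large subring of the polynomial ring in the
gap variables.
-/

namespace Pool.Agent.H.MP_f5ceca_al.N

universe u v

variable (Γ : Type v) [CommRing Γ] (n : ℕ)

/-- the layer `T_k` of `T` -/
noncomputable def Lay (T : Submodule Γ (FA Γ n)) (k : ℕ) : Submodule Γ (RZ Γ n k) :=
  (T ⊓ Fil Γ n k).map (sym Γ n k)

/-- the stabilizer of the layer -/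
noncomputable def St (T : Submodule Γ (FA Γ n)) (k : ℕ) : Subalgebra Γ (RX Γ n k) where
  carrier := {s | ∀ u ∈ Lay Γ n T k, s • u ∈ Lay Γ n T k}
  mul_mem' {a b} ha hb u hu := by rw [mul_smul]; exact ha _ (hb _ hu)
  add_mem' {a b} ha hb u hu := by rw [add_smul]; exact add_mem (ha _ hu) (hb _ hu)
  algebraMap_mem' r u hu := by
    rw [algebraMap_smul]; exact Submodule.smul_mem _ _ hu

/-- multipliers which move the layer into the symbols of the elements of `T ∩ Fil k ∩ Bd N` -/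
def smallMul (T : Submodule Γ (FA Γ n)) (f : Fin n → Polynomial Γ) (k N : ℕ)
    (s : RX Γ n k) : Prop :=
  ∀ u ∈ Lay Γ n T k, s • u ∈ (T ⊓ Fil Γ n k ⊓ Bd Γ n f N).map (sym Γ n k)

variable {Γ n}

variable {T : Submodule Γ (FA Γ n)} (hT : IsOp Γ n T)

include hT

omit hT in
theorem Stab_phi_c (y g : FA Γ n) (j : Fin n) :
    (xx Γ j * y - y * xx Γ j) * g ∈ Com Γ n :=
  Submodule.subset_span ⟨1, g, xx Γ j, y, by rw [one_mul]⟩

theorem Stab_phi_mem (y g : FA Γ n) {z : FA Γ n} (hz : z ∈ T) : phi Γ n y g z ∈ T :=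
  hT.op _ (fun j => Stab_phi_c y g j) z hz

omit hT in
theorem Stab_hh_smul (k : ℕ) (y g : FA Γ n) (c : Γ) (a : Fin k) :
    hh Γ n k y (c • g) a = c • hh Γ n k y g a := by
  unfold hh
  rw [map_smul, mul_smul_comm]

omit hT in
/-- `∏ (1 + c h_a) = ∑ c^s e_s(h)` -/
theorem Stab_prod (k : ℕ) (y g : FA Γ n) (c : Γ) :
    ∏ a : Fin k, (1 + hh Γ n k y (c • g) a) =
      ∑ s ∈ Finset.range (k + 1),
        c ^ s • ((Finset.univ : Finset (Fin k)).val.map (hh Γ n k y g)).esymm s := by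
  rw [Finset.prod_one_add, Finset.sum_powerset, Finset.card_univ, Fintype.card_fin]
  refine Finset.sum_congr rfl fun s _ => ?_
  rw [Finset.esymm_map_val, Finset.smul_sum]
  refine Finset.sum_congr rfl fun t ht => ?_
  have hc : t.card = s := (Finset.mem_powersetCard.1 ht).2
  rw [← hc, ← Finset.prod_const, ← Finset.prod_smul]
  exact Finset.prod_congr rfl fun a _ => Stab_hh_smul k y g c a

theorem Stab_prod_mem (k : ℕ) (y g : FA Γ n) (c : Γ) {u : RZ Γ n k} (hu : u ∈ Lay Γ n T k) :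
    ∑ s ∈ Finset.range (k + 1),
      c ^ s • (((Finset.univ : Finset (Fin k)).val.map (hh Γ n k y g)).esymm s • u) ∈
        Lay Γ n T k := by
  obtain ⟨z, ⟨hz1, hz2⟩, rfl⟩ := Submodule.mem_map.1 hu
  refine Submodule.mem_map.2 ⟨phi Γ n y (c • g) z,
    ⟨Stab_phi_mem hT y _ hz1, phi_mem_Fil Γ n k y _ hz2⟩, ?_⟩
  rw [sym_phi Γ n k y _ hz2, Stab_prod, Finset.sum_smul]
  exact Finset.sum_congr rfl fun s _ => smul_assoc _ _ _

theorem Stab_small_mem (f : Fin n → Polynomial Γ) (k N : ℕ) (y g : FA Γ n)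
    (hy : y ∈ Bd Γ n f N) (c : Γ) {u : RZ Γ n k} (hu : u ∈ Lay Γ n T k) :
    ∑ s ∈ Finset.range (k + 1),
      c ^ s • (if s = 0 then 0 else
        ((Finset.univ : Finset (Fin k)).val.map (hh Γ n k y g)).esymm s • u) ∈
        (T ⊓ Fil Γ n k ⊓ Bd Γ n f N).map (sym Γ n k) := by
  obtain ⟨z, ⟨hz1, hz2⟩, rfl⟩ := Submodule.mem_map.1 hu
  refine Submodule.mem_map.2 ⟨phi Γ n y (c • g) z - z,
    ⟨⟨sub_mem (Stab_phi_mem hT y _ hz1) hz1, sub_mem (phi_mem_Fil Γ n k y _ hz2) hz2⟩,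
      phi_sub_mem_Bd Γ n f N y _ hy z⟩, ?_⟩
  rw [map_sub, sym_phi Γ n k y _ hz2, Stab_prod, Finset.sum_smul, Finset.sum_range_succ',
    Finset.sum_range_succ']
  have h0 : ((Finset.univ : Finset (Fin k)).val.map (hh Γ n k y g)).esymm 0 = 1 := by
    rw [Finset.esymm_map_val]
    simp
  rw [h0, pow_zero, one_smul, one_smul, if_pos rfl, smul_zero, add_zero, add_sub_cancel_right]
  refine Finset.sum_congr rfl fun s _ => ?_
  rw [if_neg (Nat.succ_ne_zero s), smul_assoc]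

theorem X_zero_mem_St (k : ℕ) (j : Fin n) : gX Γ n k 0 j ∈ St Γ n T k := by
  intro u hu
  obtain ⟨z, ⟨hz1, hz2⟩, rfl⟩ := Submodule.mem_map.1 hu
  refine Submodule.mem_map.2 ⟨xx Γ j * z, ⟨hT.left _ z hz1, Fil_left Γ k _ hz2⟩, ?_⟩
  rw [sym_mul_left Γ n k _ hz2]
  congr 1
  exact FreeAlgebra.lift_ι_apply _ _

theorem X_last_mem_St (k : ℕ) (j : Fin n) : gX Γ n k (Fin.last k) j ∈ St Γ n T k := by
  intro u hu
  obtain ⟨z, ⟨hz1, hz2⟩, rfl⟩ := Submodule.mem_map.1 hu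
  refine Submodule.mem_map.2 ⟨z * xx Γ j, ⟨hT.right _ z hz1, Fil_right Γ k _ hz2⟩, ?_⟩
  rw [sym_mul_right Γ n k _ hz2]
  congr 1
  exact FreeAlgebra.lift_ι_apply _ _

/-- The elementary symmetric functions of the `h_a` are in the stabilizer.

PROOF. For `b : K` the substitution `phi y (b • g)` maps `T ∩ Fil k` to itself (`IsOp.op`, `phi_mem_Fil`), so by
`sym_phi` `∏ (1 + b h_a) = ∑_s b^s e_s(h)` is in `St` (a `K`-subspace). `vandermonde`. -/
theorem esymm_mem_St (K : Type u) [Field K] [Infinite K] [Algebra K Γ] (k : ℕ) (y g : FA Γ n)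
    (s : ℕ) (hs : s ≤ k) :
    ((Finset.univ : Finset (Fin k)).val.map (hh Γ n k y g)).esymm s ∈ St Γ n T k := by
  intro u hu
  have h1 := vandermonde ((Lay Γ n T k).restrictScalars K) k
    (fun s => ((Finset.univ : Finset (Fin k)).val.map (hh Γ n k y g)).esymm s • u) (fun b => by
      have h2 := Stab_prod_mem hT k y g (algebraMap K Γ b) hu
      rw [Submodule.restrictScalars_mem]
      refine (congrArg (· ∈ Lay Γ n T k) (Finset.sum_congr rfl fun s _ => ?_)).mp h2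
      rw [← map_pow, algebraMap_smul])
  exact h1 s hs

/-- Same for `y ∈ Bd N` and `s > 0`, with `phi_sub_mem_Bd`: `∏ (1 + b h_a) - 1` multiplies into the small part. -/
theorem esymm_smallMul (K : Type u) [Field K] [Infinite K] [Algebra K Γ]
    (f : Fin n → Polynomial Γ) (k N : ℕ) (y g : FA Γ n) (hy : y ∈ Bd Γ n f N)
    (s : ℕ) (hs : s ≤ k) (hs0 : 0 < s) :
    smallMul Γ n T f k N (((Finset.univ : Finset (Fin k)).val.map (hh Γ n k y g)).esymm s) := by
  intro u hu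
  have h1 := vandermonde (((T ⊓ Fil Γ n k ⊓ Bd Γ n f N).map (sym Γ n k)).restrictScalars K) k
    (fun s => if s = 0 then 0 else
      ((Finset.univ : Finset (Fin k)).val.map (hh Γ n k y g)).esymm s • u) (fun b => by
      have h2 := Stab_small_mem hT f k N y g hy (algebraMap K Γ b) hu
      rw [Submodule.restrictScalars_mem]
      refine (congrArg (· ∈ (T ⊓ Fil Γ n k ⊓ Bd Γ n f N).map (sym Γ n k))
        (Finset.sum_congr rfl fun s _ => ?_)).mp h2
      rw [← map_pow, algebraMap_smul])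
  have h2 := h1 s hs
  rw [if_neg hs0.ne'] at h2
  exact h2

/-- `f_j(X(0,j))^N` multiplies into the small part (left multiplication by `f_j(x_j)^N`). -/
theorem zero_smallMul (f : Fin n → Polynomial Γ) (k N : ℕ) (j : Fin n) :
    smallMul Γ n T f k N (Polynomial.aeval (gX Γ n k 0 j) (f j) ^ N) := by
  intro u hu
  obtain ⟨z, ⟨hz1, hz2⟩, rfl⟩ := Submodule.mem_map.1 hu
  have h1 : Polynomial.aeval (xx Γ j) (f j) ^ N ∈ Bd Γ n f N :=
    Submodule.subset_span ⟨1, 1, j, by rw [one_mul, mul_one]⟩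
  refine Submodule.mem_map.2 ⟨Polynomial.aeval (xx Γ j) (f j) ^ N * z,
    ⟨⟨hT.left _ z hz1, Fil_left Γ k _ hz2⟩, Bd_right Γ n f N z h1⟩, ?_⟩
  rw [sym_mul_left Γ n k _ hz2]
  have h2 : ev Γ n k 0 (xx Γ j) = gX Γ n k 0 j := FreeAlgebra.lift_ι_apply _ _
  rw [map_pow, ← Polynomial.aeval_algHom_apply, h2]

end Pool.Agent.H.MP_f5ceca_al.N
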