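import Pool.Agent.H.MP_f5ceca_al.N.Basic

/-!
The generic representation is upper triangular; multiplicativity of its entries.
-/

namespace Pool.Agent.H.MP_f5ceca_al.N

universe u v

variable (Γ : Type v) [CommRing Γ] (n : ℕ)

/-- `tau` is upper triangular. -/
theorem tau_upper (k : ℕ) (z : FA Γ n) : ∀ a b : Fin (k + 1), (b : ℕ) < a →
    tau Γ n k z a b = 0 := by
  induction z using FreeAlgebra.induction with
  | grade0 r =>
    intro a b hab
    rw [AlgHom.commutes, Matrix.algebraMap_matrix_apply, if_neg]
    rintro rfl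
    exact lt_irrefl _ hab
  | grade1 j =>
    intro a b hab
    rw [tau, FreeAlgebra.lift_ι_apply, gen, if_neg, dif_neg]
    · omega
    · rintro rfl
      exact lt_irrefl _ hab
  | mul x y hx hy =>
    intro a b hab
    rw [map_mul, Matrix.mul_apply]
    refine Finset.sum_eq_zero fun c _ => ?_
    rcases lt_or_ge (c : ℕ) a with h | h
    · rw [hx a c h, zero_mul]
    · rw [hy c b (by omega), mul_zero]
  | add x y hx hy =>
    intro a b hab
    rw [map_add, Matrix.add_apply, hx a b hab, hy a b hab, add_zero]

/-- the value of `y` at the gap `a` -/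
noncomputable def ev (k : ℕ) (a : Fin (k + 1)) : FA Γ n →ₐ[Γ] RX Γ n k :=
  FreeAlgebra.lift Γ (gX Γ n k a)

theorem tau_diag (k : ℕ) (z : FA Γ n) (a : Fin (k + 1)) :
    tau Γ n k z a a = MvPolynomial.C (ev Γ n k a z) := by
  induction z using FreeAlgebra.induction with
  | grade0 r =>
    rw [AlgHom.commutes, AlgHom.commutes, Matrix.algebraMap_matrix_apply, if_pos rfl]
    rfl
  | grade1 j =>
    rw [tau, ev, FreeAlgebra.lift_ι_apply, FreeAlgebra.lift_ι_apply, gen, if_pos rfl]
  | mul x y hx hy =>
    rw [map_mul, map_mul, map_mul, Matrix.mul_apply, ← hx, ← hy]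
    refine Finset.sum_eq_single a (fun c _ hc => ?_) (fun h => absurd (Finset.mem_univ _) h)
    rcases lt_or_ge (c : ℕ) a with h | h
    · rw [tau_upper Γ n k x a c h, zero_mul]
    · have h1 : (a : ℕ) < c := lt_of_le_of_ne h (fun h2 => hc (Fin.ext h2.symm))
      rw [tau_upper Γ n k y c a h1, mul_zero]
  | add x y hx hy =>
    rw [map_add, map_add, map_add, Matrix.add_apply, hx, hy]

theorem ev_eq_zero (k : ℕ) (a : Fin (k + 1)) {z : FA Γ n} (hz : z ∈ Com Γ n) :
    ev Γ n k a z = 0 := by
  induction hz using Submodule.span_induction with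
  | mem x hx =>
    obtain ⟨a', b', p, q, rfl⟩ := hx
    rw [map_mul, map_mul, map_sub, map_mul, map_mul, mul_comm (ev Γ n k a q), sub_self, mul_zero,
      zero_mul]
  | zero => rw [map_zero]
  | add x y _ _ hx hy => rw [map_add, hx, hy, add_zero]
  | smul r x _ hx => rw [map_smul, hx, smul_zero]

/-- `tau` is upper triangular, and the entries near the diagonal vanish on the filtration.

PROOF. For the letters clear from the definition of `gen`; upper triangular matrices form a subalgebra.
For `z ∈ Com` the diagonal entries vanish (the diagonal is multiplicative on upper triangular matrices and `RZ` is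
commutative); products: induction on `i` with `Fil_succ`. -/
theorem tau_apply_eq_zero (k i : ℕ) {z : FA Γ n} (hz : z ∈ Fil Γ n i) (a b : Fin (k + 1))
    (hab : (b : ℕ) < a + i) : tau Γ n k z a b = 0 := by
  induction i generalizing z a b with
  | zero => exact tau_upper Γ n k z a b (by omega)
  | succ i ih =>
    rw [Fil_succ] at hz
    induction hz using Submodule.mul_induction_on' with
    | mem_mul_mem x hx y hy =>
      rw [map_mul, Matrix.mul_apply]
      refine Finset.sum_eq_zero fun c _ => ?_
      rcases lt_or_ge (c : ℕ) (a + i) with h | h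
      · rw [ih hx a c h, zero_mul]
      · have h1 : tau Γ n k y c b = 0 := by
          rcases Nat.lt_or_ge b c with h2 | h2
          · exact tau_upper Γ n k y c b h2
          · have h3 : b = c := Fin.ext (by omega)
            subst h3
            rw [tau_diag, ev_eq_zero Γ n k _ hy, MvPolynomial.C_0]
        rw [h1, mul_zero]
    | add x _ y _ hx hy => rw [map_add, Matrix.add_apply, hx, hy, add_zero]

theorem sym_eq_zero (k : ℕ) {z : FA Γ n} (hz : z ∈ Fil Γ n (k + 1)) : sym Γ n k z = 0 := by
  have := tau_apply_eq_zero Γ n k (k + 1) hz 0 (Fin.last k) (by simp)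
  exact this

/-- Multiplicativity: for `z ∈ Fil i`, `w ∈ Fil j` with `a + i + j = b` the entry `(a,b)` of the
product has only one term. -/
theorem tau_mul_apply (k i j : ℕ) {z w : FA Γ n} (hz : z ∈ Fil Γ n i) (hw : w ∈ Fil Γ n j)
    (a c b : Fin (k + 1)) (hac : (c : ℕ) = a + i) (hcb : (b : ℕ) = c + j) :
    tau Γ n k (z * w) a b = tau Γ n k z a c * tau Γ n k w c b := by
  rw [map_mul, Matrix.mul_apply]
  refine Finset.sum_eq_single c (fun c' _ hc => ?_) (fun h => absurd (Finset.mem_univ _) h)
  rcases lt_or_ge (c' : ℕ) c with h | h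
  · rw [tau_apply_eq_zero Γ n k i hz a c' (by omega), zero_mul]
  · have h1 : (c : ℕ) < c' := lt_of_le_of_ne h (fun h2 => hc (Fin.ext h2.symm))
    rw [tau_apply_eq_zero Γ n k j hw c' b (by omega), mul_zero]

theorem sym_mul_left (k : ℕ) (u : FA Γ n) {z : FA Γ n} (hz : z ∈ Fil Γ n k) :
    sym Γ n k (u * z) = ev Γ n k 0 u • sym Γ n k z := by
  have hu : u ∈ Fil Γ n 0 := by
    rw [Fil_zero]
    exact Submodule.mem_top
  have h := tau_mul_apply Γ n k 0 k hu hz 0 0 (Fin.last k) (by simp) (by simp)
  rw [tau_diag] at h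
  rw [MvPolynomial.smul_eq_C_mul]
  exact h

theorem sym_mul_right (k : ℕ) (u : FA Γ n) {z : FA Γ n} (hz : z ∈ Fil Γ n k) :
    sym Γ n k (z * u) = ev Γ n k (Fin.last k) u • sym Γ n k z := by
  have hu : u ∈ Fil Γ n 0 := by
    rw [Fil_zero]
    exact Submodule.mem_top
  have h := tau_mul_apply Γ n k k 0 hz hu 0 (Fin.last k) (Fin.last k) (by simp) (by simp)
  rw [tau_diag] at h
  rw [MvPolynomial.smul_eq_C_mul, mul_comm]
  exact h

end Pool.Agent.H.MP_f5ceca_al.N
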